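import Pool.Agent.DNB.Defs

/-!
# The differences of the arc are absolutely continuous

Change of variables by a shear, then the change of variables formula in dimension one.
-/

open Set MeasureTheory Filter Topology Metric
open Pool.Agent.Helper2.LM Pool.Agent.AEP Pool.Agent.H99N

namespace Pool.Agent.DNB

private theorem ac_inj {g g' : ℝ → ℝ} {α β : ℝ} (hg : Pf g g' α β) {a : ℝ} (ha : a ≠ 0) :
    InjOn (fun s => g (s + a) - g s) {s | s ∈ Ioo α β ∧ s + a ∈ Ioo α β} ∧
      ∀ s, s ∈ Ioo α β → s + a ∈ Ioo α β → DifferentiableAt ℝ (fun s => g (s + a) - g s) s ∧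
        deriv (fun s => g (s + a) - g s) s ≠ 0 := by
  have hd : ∀ s, s ∈ Ioo α β → s + a ∈ Ioo α β →
      HasDerivAt (fun s => g (s + a) - g s) (g' (s + a) - g' s) s := by
    intro s h1 h2
    exact ((hg.der (s + a) h2).comp_add_const s a).sub (hg.der s h1)
  have hJ : {s | s ∈ Ioo α β ∧ s + a ∈ Ioo α β} = Ioo α β ∩ Ioo (α - a) (β - a) := by
    ext s
    constructor
    · rintro ⟨⟨h1, h2⟩, h3, h4⟩
      exact ⟨⟨h1, h2⟩, by linarith, by linarith⟩
    · rintro ⟨⟨h1, h2⟩, h3, h4⟩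
      exact ⟨⟨h1, h2⟩, by linarith, by linarith⟩
  have hcv : Convex ℝ {s | s ∈ Ioo α β ∧ s + a ∈ Ioo α β} := by
    rw [hJ]
    exact (convex_Ioo α β).inter (convex_Ioo _ _)
  have hop : IsOpen {s | s ∈ Ioo α β ∧ s + a ∈ Ioo α β} := by
    rw [hJ]
    exact isOpen_Ioo.inter isOpen_Ioo
  have hct : ContinuousOn (fun s => g (s + a) - g s) {s | s ∈ Ioo α β ∧ s + a ∈ Ioo α β} := by
    intro s hs
    exact (hd s hs.1 hs.2).continuousAt.continuousWithinAt
  rcases lt_or_gt_of_ne ha with hneg | hpos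
  · have hlt : ∀ s, s ∈ Ioo α β → s + a ∈ Ioo α β → 0 < g' (s + a) - g' s := by
      intro s h1 h2
      have := hg.anti h2 h1 (by linarith)
      linarith
    refine ⟨?_, fun s h1 h2 => ⟨(hd s h1 h2).differentiableAt, ?_⟩⟩
    · apply StrictMonoOn.injOn
      apply strictMonoOn_of_deriv_pos hcv hct
      intro s hs
      rw [hop.interior_eq] at hs
      rw [(hd s hs.1 hs.2).deriv]
      exact hlt s hs.1 hs.2
    · rw [(hd s h1 h2).deriv]
      exact (hlt s h1 h2).ne'
  · have hlt : ∀ s, s ∈ Ioo α β → s + a ∈ Ioo α β → g' (s + a) - g' s < 0 := by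
      intro s h1 h2
      have := hg.anti h1 h2 (by linarith)
      linarith
    refine ⟨?_, fun s h1 h2 => ⟨(hd s h1 h2).differentiableAt, ?_⟩⟩
    · apply StrictAntiOn.injOn
      apply strictAntiOn_of_deriv_neg hcv hct
      intro s hs
      rw [hop.interior_eq] at hs
      rw [(hd s hs.1 hs.2).deriv]
      exact hlt s hs.1 hs.2
    · rw [(hd s h1 h2).deriv]
      exact (hlt s h1 h2).ne

private theorem ac_sec {g g' : ℝ → ℝ} {α β : ℝ} (hg : Pf g g' α β) {a : ℝ} (ha : a ≠ 0)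
    {T : Set ℝ} (hT : MeasurableSet T) (h0 : volume T = 0) :
    volume {s : ℝ | s ∈ Ioo α β ∧ s + a ∈ Ioo α β ∧ g (s + a) - g s ∈ T} = 0 := by
  obtain ⟨hinj, hdf⟩ := ac_inj hg ha
  set E := {s : ℝ | s ∈ Ioo α β ∧ s + a ∈ Ioo α β ∧ g (s + a) - g s ∈ T} with hE
  have hEm : MeasurableSet E := by
    have h1 : MeasurableSet {s : ℝ | s ∈ Ioo α β} := measurableSet_Ioo
    have h2 : MeasurableSet {s : ℝ | s + a ∈ Ioo α β} :=
      (measurable_id.add_const a) measurableSet_Ioo
    have h3 : MeasurableSet {s : ℝ | g (s + a) - g s ∈ T} :=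
      ((hg.meas.comp (measurable_id.add_const a)).sub hg.meas) hT
    exact h1.inter (h2.inter h3)
  have hEJ : E ⊆ {s | s ∈ Ioo α β ∧ s + a ∈ Ioo α β} := fun s hs => ⟨hs.1, hs.2.1⟩
  have h1 := lintegral_image_eq_lintegral_abs_deriv_mul (s := E)
    (f := fun s => g (s + a) - g s) (f' := deriv (fun s => g (s + a) - g s)) hEm
    (fun s hs => (hdf s hs.1 hs.2.1).1.hasDerivAt.hasDerivWithinAt)
    (hinj.mono hEJ) (fun _ => 1)
  have h2 : volume ((fun s => g (s + a) - g s) '' E) = 0 := by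
    refine measure_mono_null ?_ h0
    rintro _ ⟨s, hs, rfl⟩
    exact hs.2.2
  rw [setLIntegral_one, h2] at h1
  simp only [mul_one] at h1
  have hms : Measurable (fun s => ENNReal.ofReal |deriv (fun s => g (s + a) - g s) s|) :=
    ENNReal.measurable_ofReal.comp (measurable_deriv _).abs
  have h3 := (lintegral_eq_zero_iff hms).1 h1.symm
  rw [Filter.EventuallyEq, ae_restrict_iff' hEm] at h3
  rw [measure_eq_zero_iff_ae_notMem]
  filter_upwards [h3] with s hs hsE
  have h4 := hs hsE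
  rw [Pi.zero_apply, ENNReal.ofReal_eq_zero] at h4
  exact (hdf s hsE.1 hsE.2.1).2 (abs_nonpos_iff.1 h4)

private theorem ac_shear : MeasurePreserving (fun z : ℝ × ℝ => (z.2, z.2 + z.1)) volume volume := by
  have h1 := measurePreserving_prod_add (volume : Measure ℝ) (volume : Measure ℝ)
  exact h1.comp (Measure.measurePreserving_swap (μ := (volume : Measure ℝ))
    (ν := (volume : Measure ℝ)))

theorem ac_null {g g' : ℝ → ℝ} {α β : ℝ} (hg : Pf g g' α β) {Z : Set (ℝ × ℝ)}
    (hZ : volume Z = 0) :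
    volume {q : ℝ × ℝ | q.1 ∈ Ioo α β ∧ q.2 ∈ Ioo α β ∧ (q.2 - q.1, g q.2 - g q.1) ∈ Z} = 0 := by
  set Z' := toMeasurable volume Z with hZ'
  have hm' : MeasurableSet Z' := measurableSet_toMeasurable _ _
  have h0' : volume Z' = 0 := by
    rw [hZ', measure_toMeasurable, hZ]
  have hΦ : Measurable (fun q : ℝ × ℝ => (q.2 - q.1, g q.2 - g q.1)) :=
    (measurable_snd.sub measurable_fst).prodMk
      ((hg.meas.comp measurable_snd).sub (hg.meas.comp measurable_fst))
  have hS : MeasurableSet {q : ℝ × ℝ | q.1 ∈ Ioo α β ∧ q.2 ∈ Ioo α β ∧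
      (q.2 - q.1, g q.2 - g q.1) ∈ Z'} := by
    have h1 : MeasurableSet {q : ℝ × ℝ | q.1 ∈ Ioo α β} := measurable_fst measurableSet_Ioo
    have h2 : MeasurableSet {q : ℝ × ℝ | q.2 ∈ Ioo α β} := measurable_snd measurableSet_Ioo
    exact h1.inter (h2.inter (hΦ hm'))
  refine measure_mono_null (t := {q : ℝ × ℝ | q.1 ∈ Ioo α β ∧ q.2 ∈ Ioo α β ∧
      (q.2 - q.1, g q.2 - g q.1) ∈ Z'}) ?_ ?_
  · rintro q ⟨h1, h2, h3⟩
    exact ⟨h1, h2, subset_toMeasurable _ _ h3⟩
  · rw [← ac_shear.measure_preimage hS.nullMeasurableSet]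
    have hmeas := ac_shear.measurable hS
    rw [Measure.volume_eq_prod, Measure.measure_prod_null hmeas]
    rw [Measure.volume_eq_prod, Measure.measure_prod_null hm'] at h0'
    have hne : ∀ᵐ a : ℝ, a ≠ 0 := by
      rw [ae_iff]
      simp
    filter_upwards [h0', hne] with a ha ha0
    have hTm : MeasurableSet (Prod.mk a ⁻¹' Z') := measurable_prodMk_left hm'
    have h4 := ac_sec hg ha0 hTm ha
    refine measure_mono_null ?_ h4
    rintro s ⟨h1, h2, h3⟩
    refine ⟨h1, h2, ?_⟩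
    simp only [add_sub_cancel_left] at h3
    exact h3

theorem ac {g g' : ℝ → ℝ} {α β : ℝ} (hg : Pf g g' α β) : ∃ κ : ℝ × ℝ → ℝ, Integrable κ ∧
    ∀ c : ℝ × ℝ → ℝ, Measurable c → (∃ C : ℝ, ∀ u, |c u| ≤ C) →
      ∫ s in α..β, ∫ t in α..β, c (t - s, g t - g s) = ∫ u, κ u * c u := by
  have hΦ : Measurable (fun q : ℝ × ℝ => (q.2 - q.1, g q.2 - g q.1)) :=
    (measurable_snd.sub measurable_fst).prodMk
      ((hg.meas.comp measurable_snd).sub (hg.meas.comp measurable_fst))
  set D : Set (ℝ × ℝ) := Ioo α β ×ˢ Ioo α β with hD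
  have hDm : MeasurableSet D := measurableSet_Ioo.prod measurableSet_Ioo
  have hDfin : volume D < ⊤ := by
    rw [hD, Measure.volume_eq_prod, Measure.prod_prod]
    exact ENNReal.mul_lt_top measure_Ioo_lt_top measure_Ioo_lt_top
  have hfin : IsFiniteMeasure ((volume : Measure (ℝ × ℝ)).restrict D) :=
    ⟨by rw [Measure.restrict_apply_univ]; exact hDfin⟩
  set ν : Measure (ℝ × ℝ) := ((volume : Measure (ℝ × ℝ)).restrict D).map
    (fun q : ℝ × ℝ => (q.2 - q.1, g q.2 - g q.1)) with hν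
  have hνfin : IsFiniteMeasure ν := by
    rw [hν]
    infer_instance
  have hac : ν ≪ volume := by
    refine Measure.AbsolutelyContinuous.mk fun S hS h0 => ?_
    rw [hν, Measure.map_apply hΦ hS, Measure.restrict_apply (hΦ hS)]
    refine measure_mono_null ?_ (ac_null hg h0)
    rintro q ⟨h1, h2, h3⟩
    exact ⟨h2, h3, h1⟩
  refine ⟨fun u => (ν.rnDeriv volume u).toReal, Measure.integrable_toReal_rnDeriv, ?_⟩
  intro c hc hbd
  obtain ⟨C, hC⟩ := hbd
  have h1 : ∫ u, (ν.rnDeriv volume u).toReal * c u = ∫ u, c u ∂ν := by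
    have := integral_rnDeriv_smul (μ := ν) (ν := volume) (f := c) hac
    simpa only [smul_eq_mul] using this
  have h2 : ∀ f : ℝ → ℝ, ∫ t in α..β, f t = ∫ t in Ioo α β, f t := by
    intro f
    rw [intervalIntegral.integral_of_le hg.lt.le, integral_Ioc_eq_integral_Ioo]
  rw [h1, hν, integral_map hΦ.aemeasurable hc.aestronglyMeasurable, h2]
  simp only [h2]
  rw [hD, Measure.volume_eq_prod, setIntegral_prod]
  refine Measure.integrableOn_of_bounded (M := C) ?_ ?_ ?_
  · rw [Measure.volume_eq_prod] at hDfin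
    exact hDfin.ne
  · exact (hc.comp hΦ).aestronglyMeasurable
  · exact Eventually.of_forall fun p => by
      rw [Real.norm_eq_abs]
      exact hC _

end Pool.Agent.DNB
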