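import Pool.Agent.DNB.Np
import Pool.Agent.AEP.Clo

/-!
# Density points and arcs

Plan. The set `{(z, t) | t ∈ Ioo α β → z ∈ B → z + c t ∉ B}` is measurable (`c` is continuous on the
open set `Ioo α β`, see `hset` in `ao_core` of `Pool.Agent.H99N.AvoidOf`; write it as the complement
of a measurable set, `ContinuousOn.measurable_piecewise` or restrict to the subtype), so by
`Measure.ae_ae_comm` for almost every `t ∈ Ioo α β` the set `{z | z ∈ B ∧ z + c t ∈ B}` is null and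
`noPair_null` gives `NoPair B (c t)`. Let `S = {c t | t ∈ Ioo α β, NoPair B (c t)}`. The good `t` are
dense in `Ioo α β` (a set of full measure meets every nonempty open interval) and `c` is continuous,
so `c t ∈ closure S` for all `t ∈ Ioo α β`; apply `Pool.Agent.AEP.noPair_closure`.
-/

open Set MeasureTheory Filter Topology Metric
open Pool.Agent.Helper2.LM Pool.Agent.AEP Pool.Agent.H99N

namespace Pool.Agent.DNB

theorem noPair_arc {B : Set (ℝ × ℝ)} (mB : MeasurableSet B) {c : ℝ → ℝ × ℝ} {α β : ℝ}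
    (hcm : Measurable c) (hc : ContinuousOn c (Ioo α β))
    (h : ∀ᵐ z : ℝ × ℝ, ∀ᵐ t : ℝ, t ∈ Ioo α β → z ∈ B → z + c t ∉ B) {t : ℝ} (ht : t ∈ Ioo α β) :
    NoPair B (c t) := by
  have hset : MeasurableSet {p : (ℝ × ℝ) × ℝ | p.2 ∈ Ioo α β → p.1 ∈ B → p.1 + c p.2 ∉ B} := by
    have e : {p : (ℝ × ℝ) × ℝ | p.2 ∈ Ioo α β → p.1 ∈ B → p.1 + c p.2 ∉ B} =
      ((Prod.snd ⁻¹' (Ioo α β)) ∩ (Prod.fst ⁻¹' B) ∩
        ((fun p : (ℝ × ℝ) × ℝ => p.1 + c p.2) ⁻¹' B))ᶜ := by
      ext p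
      simp only [mem_ofPred_eq, mem_compl_iff, mem_inter_iff, mem_preimage]
      tauto
    rw [e]
    refine MeasurableSet.compl (((measurable_snd measurableSet_Ioo).inter (measurable_fst mB)).inter ?_)
    exact (measurable_fst.add (hcm.comp measurable_snd)) mB
  have hswap : ∀ᵐ t : ℝ, ∀ᵐ z : ℝ × ℝ, t ∈ Ioo α β → z ∈ B → z + c t ∉ B :=
    (Measure.ae_ae_comm (μ := (volume : Measure (ℝ × ℝ))) (ν := (volume : Measure ℝ)) hset).1 h
  have hgood : ∀ᵐ t : ℝ, t ∈ Ioo α β → NoPair B (c t) := by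
    filter_upwards [hswap] with t ht hI
    refine noPair_null mB ?_
    rw [measure_eq_zero_iff_ae_notMem]
    filter_upwards [ht] with z hz hz2
    exact hz hI hz2.1 hz2.2
  have hd := Measure.dense_of_ae hgood
  have h1 : t ∈ closure (Ioo α β ∩ {t | t ∈ Ioo α β → NoPair B (c t)}) :=
    hd.open_subset_closure_inter isOpen_Ioo ht
  have h2 : c t ∈ closure (c '' (Ioo α β ∩ {t | t ∈ Ioo α β → NoPair B (c t)})) :=
    ((hc t ht).mono inter_subset_left).mem_closure_image h1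
  refine noPair_closure mB ?_ h2
  rintro _ ⟨u, ⟨hu, hu2⟩, rfl⟩
  exact hu2 hu

end Pool.Agent.DNB
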