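import Pool.Agent.DNB.Defs

/-!
# From sets without pairs to a measurable colouring

Plan. Exactly as `Pool.Agent.AEP.avoid_of_hulls` in `Pool.Agent.AEP.Av` with `H i` in place of
`Hu κ i` and the hypothesis `hc` in place of `mem_Hu`.
-/

open Set MeasureTheory Filter Topology Metric
open Pool.Agent.Helper2.LM Pool.Agent.AEP Pool.Agent.H99N

namespace Pool.Agent.DNB

private def avs_A (H : Fin 4 → Set (ℝ × ℝ)) (i : Fin 4) : Set (ℝ × ℝ) :=
  {x | x ∈ H i ∧ ∀ j, j < i → x ∉ H j}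

private theorem avs_meas {H : Fin 4 → Set (ℝ × ℝ)} (mH : ∀ i, MeasurableSet (H i)) (i : Fin 4) :
    MeasurableSet (avs_A H i) := by
  unfold avs_A
  apply MeasurableSet.inter
  · exact mH i
  · have e : {x | ∀ j, j < i → x ∉ H j} = ⋂ j, ⋂ (_ : j < i), (H j)ᶜ := by
      ext x; simp
    change MeasurableSet {x | ∀ j, j < i → x ∉ H j}
    rw [e]
    exact MeasurableSet.iInter fun j => MeasurableSet.iInter fun _ => (mH j).compl

theorem avoid_of_sets {H : Fin 4 → Set (ℝ × ℝ)} (mH : ∀ i, MeasurableSet (H i))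
    (hc : ∀ᵐ x : ℝ × ℝ, ∃ i, x ∈ H i) {D : Set (ℝ × ℝ)} (h : ∀ i, ∀ v ∈ D, NoPair (H i) v) :
    ∃ A, Avoid D A := by
  classical
  refine ⟨fun i => avs_A H i ∩ {x | Dens1 (H i) x}, ?_, ?_, ?_, ?_⟩
  · intro i
    exact (avs_meas mH i).inter (measurable_dens1 (mH i))
  · intro i j hij
    rw [Set.disjoint_left]
    rintro x ⟨⟨h1, h2⟩, -⟩ ⟨⟨h3, h4⟩, -⟩
    rcases lt_or_gt_of_ne hij with h5 | h5
    · exact h4 i h5 h1
    · exact h2 j h5 h3
  · have h1 : ∀ i, ∀ᵐ x : ℝ × ℝ, x ∈ H i → Dens1 (H i) x := by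
      intro i
      have h2 := Besicovitch.ae_tendsto_measure_inter_div (volume : Measure (ℝ × ℝ)) (H i)
      rw [ae_restrict_iff' (mH i)] at h2
      filter_upwards [h2] with x hx hxA
      exact (hx hxA).comp tendsto_rad
    have h3 : ∀ᵐ x : ℝ × ℝ, ∀ i, x ∈ H i → Dens1 (H i) x := by
      rw [ae_all_iff]
      exact h1
    filter_upwards [h3, hc] with x hx hcx
    have hne : (Finset.univ.filter fun i => x ∈ H i).Nonempty := by
      obtain ⟨i, hi⟩ := hcx
      exact ⟨i, by simp [hi]⟩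
    have hm : x ∈ H ((Finset.univ.filter fun i => x ∈ H i).min' hne) := by
      have := Finset.min'_mem _ hne
      simpa using this
    refine ⟨(Finset.univ.filter fun i => x ∈ H i).min' hne, ⟨hm, ?_⟩, hx _ hm⟩
    intro j hj hpos
    have h4 : j ∈ (Finset.univ.filter fun i => x ∈ H i) := by simp [hpos]
    exact absurd hj (not_lt.2 (Finset.min'_le _ j h4))
  · rintro i x ⟨-, hx⟩ y ⟨-, hy⟩ hxy
    have h1 := h i (x - y) hxy y hy
    rw [add_sub_cancel] at h1
    exact h1 hx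

end Pool.Agent.DNB
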