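import Pool.Agent.DNB.Sr

/-!
# The limit of the colourings
-/

open Set MeasureTheory Filter Topology Metric
open Pool.Agent.Helper2.LM Pool.Agent.AEP Pool.Agent.H99N

namespace Pool.Agent.DNB

private theorem dl_int {g : ℝ → ℝ} (hg : Measurable g) {f : ℝ × ℝ → ℝ} (hf : Measurable f)
    (hf1 : ∀ x, |f x| ≤ 1) (α β : ℝ) (x : ℝ × ℝ) :
    IntegrableOn (fun t => f (x + (t, g t))) (Ioc α β) := by
  apply Measure.integrableOn_of_bounded (M := 1)
  · exact (measure_Ioc_lt_top (a := α) (b := β)).ne
  · exact (hf.comp (measurable_const.add (measurable_id.prodMk hg))).aestronglyMeasurable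
  · filter_upwards with t
    exact hf1 _

private theorem dl_T1meas {g : ℝ → ℝ} (hg : Measurable g) {f : ℝ × ℝ → ℝ} (hf : Measurable f)
    {α β : ℝ} (h : α ≤ β) : Measurable (T1 g α β f) := by
  have e : T1 g α β f = fun y => ∫ t in Ioc α β, f (y + (t, g t)) := by
    funext y
    unfold T1
    rw [intervalIntegral.integral_of_le h]
  rw [e]
  apply StronglyMeasurable.measurable
  apply StronglyMeasurable.integral_prod_right (f := fun y : ℝ × ℝ => fun t : ℝ => f (y + (t, g t)))
  apply Measurable.stronglyMeasurable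
  apply hf.comp
  exact measurable_fst.add (measurable_snd.prodMk (hg.comp measurable_snd))

private theorem dl_T1bd (g : ℝ → ℝ) {f : ℝ × ℝ → ℝ} (hf1 : ∀ x, |f x| ≤ 1)
    {α β : ℝ} (h : α ≤ β) (y : ℝ × ℝ) : |T1 g α β f y| ≤ β - α := by
  unfold T1
  have h1 := intervalIntegral.norm_integral_le_of_norm_le_const (a := α) (b := β) (C := 1)
    (f := fun t => f (y + (t, g t))) (fun t _ => hf1 _)
  rw [one_mul, abs_of_nonneg (sub_nonneg.mpr h)] at h1
  exact h1

private theorem dl_Trmeas {g : ℝ → ℝ} (hg : Measurable g) {f : ℝ × ℝ → ℝ} (hf : Measurable f)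
    {α β ρ : ℝ} (h : α ≤ β) (hρ : 0 < ρ) : Measurable (Tr g α β ρ f) := by
  have e : Tr g α β ρ f = fun y => ∫ t in Ioc α β, (1 / ρ) * ∫ κ in Ioc 0 ρ, f (y + (t, g t + κ)) := by
    funext y
    unfold Tr
    rw [intervalIntegral.integral_of_le h]
    refine integral_congr_ae (Eventually.of_forall fun t => ?_)
    show 1 / ρ * ∫ κ in (0 : ℝ)..ρ, f (y + (t, g t + κ)) = _
    rw [intervalIntegral.integral_of_le hρ.le]
  rw [e]
  apply StronglyMeasurable.measurable
  apply StronglyMeasurable.integral_prod_right (f := fun y : ℝ × ℝ => fun t : ℝ =>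
    (1 / ρ) * ∫ κ in Ioc 0 ρ, f (y + (t, g t + κ)))
  apply Measurable.stronglyMeasurable
  apply Measurable.const_mul
  apply StronglyMeasurable.measurable
  apply StronglyMeasurable.integral_prod_right (f := fun z : (ℝ × ℝ) × ℝ => fun κ : ℝ =>
    f (z.1 + (z.2, g z.2 + κ)))
  apply Measurable.stronglyMeasurable
  apply hf.comp
  exact (measurable_fst.comp measurable_fst).add ((measurable_snd.comp measurable_fst).prodMk
    ((hg.comp (measurable_snd.comp measurable_fst)).add measurable_snd))

private theorem dl_Trbd (g : ℝ → ℝ) {f : ℝ × ℝ → ℝ} (hf1 : ∀ x, |f x| ≤ 1)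
    {α β ρ : ℝ} (h : α ≤ β) (hρ : 0 < ρ) (y : ℝ × ℝ) : |Tr g α β ρ f y| ≤ β - α := by
  unfold Tr
  have h1 := intervalIntegral.norm_integral_le_of_norm_le_const (a := α) (b := β) (C := 1)
    (f := fun t => 1 / ρ * ∫ κ in (0 : ℝ)..ρ, f (y + (t, g t + κ))) (fun t _ => by
      have h2 := intervalIntegral.norm_integral_le_of_norm_le_const (a := 0) (b := ρ) (C := 1)
        (f := fun κ => f (y + (t, g t + κ))) (fun κ _ => hf1 _)
      rw [one_mul, sub_zero, abs_of_pos hρ] at h2
      rw [norm_mul, Real.norm_of_nonneg (by positivity), one_div, inv_mul_le_iff₀ hρ, mul_one]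
      exact h2)
  rw [one_mul, abs_of_nonneg (sub_nonneg.mpr h)] at h1
  exact h1

/-- a bounded measurable function is integrable on a ball -/
private theorem dl_ball {F : ℝ × ℝ → ℝ} (hF : Measurable F) {C : ℝ} (hC : ∀ x, |F x| ≤ C)
    (R : ℝ) : IntegrableOn F (closedBall (0 : ℝ × ℝ) R) := by
  apply Measure.integrableOn_of_bounded (M := C)
  · exact (measure_closedBall_lt_top (x := (0 : ℝ × ℝ)) (r := R)).ne
  · exact hF.aestronglyMeasurable
  · filter_upwards with x
    exact hC x

theorem limit {g g' : ℝ → ℝ} {α β : ℝ} (hg : Pf g g' α β) {a : ℕ → ℝ × ℝ → ℝ}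
    {f : ℝ × ℝ → ℝ} (ha : ∀ k, Measurable (a k)) (ha1 : ∀ k x, 0 ≤ a k x ∧ a k x ≤ 1)
    (hf : Measurable f) (hf1 : ∀ x, 0 ≤ f x ∧ f x ≤ 1) (hw : Weak a f) {ρ : ℕ → ℝ}
    (hρ : ∀ k, 0 < ρ k) (hρ0 : Tendsto ρ atTop (𝓝 0))
    (hav : ∀ R : ℝ, Tendsto (fun k => ∫ x in closedBall (0 : ℝ × ℝ) R,
      a k x * Tr g α β (ρ k) (a k) x) atTop (𝓝 0)) :
    ∀ᵐ x : ℝ × ℝ, ∀ᵐ t : ℝ, t ∈ Ioo α β → f x * f (x + (t, g t)) = 0 := by
  have hαβ := hg.lt.le
  have hgm := hg.meas
  have hf' : ∀ x, |f x| ≤ 1 := fun x => by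
    rw [abs_of_nonneg (hf1 x).1]; exact (hf1 x).2
  have ha' : ∀ k x, |a k x| ≤ 1 := fun k x => by
    rw [abs_of_nonneg (ha1 k x).1]; exact (ha1 k x).2
  have hTf : Measurable (T1 g α β f) := dl_T1meas hgm hf hαβ
  have hTb : ∀ x, |T1 g α β f x| ≤ β - α := dl_T1bd g hf' hαβ
  have hD : 0 ≤ β - α := sub_nonneg.mpr hαβ
  -- the integral over every ball vanishes
  have key : ∀ R : ℝ, ∫ x in closedBall (0 : ℝ × ℝ) R, f x * T1 g α β f x = 0 := by
    intro R
    set B : Set (ℝ × ℝ) := closedBall (0 : ℝ × ℝ) R with hB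
    have hBm : MeasurableSet B := isClosed_closedBall.measurableSet
    have hb1 : ∀ k x, |a k x - f x| ≤ 1 := by
      intro k x
      rw [abs_le]
      constructor <;> linarith [(ha1 k x).1, (ha1 k x).2, (hf1 x).1, (hf1 x).2]
    have hbm : ∀ k, Measurable fun x => a k x - f x := fun k => (ha k).sub hf
    have t1 := hav R
    have t2 := strong_rho hg ha ha1 hf hf1 hw hρ hρ0 R
    have t3 : Tendsto (fun k => (∫ x, a k x * B.indicator (T1 g α β f) x)
        - ∫ x, f x * B.indicator (T1 g α β f) x) atTop (𝓝 0) := by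
      have hG : Integrable (B.indicator (T1 g α β f)) := by
        rw [integrable_indicator_iff hBm]
        exact dl_ball hTf hTb R
      have h3 := (hw _ hG).sub_const (∫ x, f x * B.indicator (T1 g α β f) x)
      rwa [sub_self] at h3
    have hbound : ∀ k, |∫ x in B, f x * T1 g α β f x| ≤
        |∫ x in B, a k x * Tr g α β (ρ k) (a k) x|
        + (∫ x in B, |Tr g α β (ρ k) (a k) x - T1 g α β f x|)
        + |(∫ x, a k x * B.indicator (T1 g α β f) x) - ∫ x, f x * B.indicator (T1 g α β f) x| := by
      intro k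
      have hTk : Measurable (Tr g α β (ρ k) (a k)) := dl_Trmeas hgm (ha k) hαβ (hρ k)
      have hTkb : ∀ x, |Tr g α β (ρ k) (a k) x| ≤ β - α := dl_Trbd g (ha' k) hαβ (hρ k)
      have hdb : ∀ x, |Tr g α β (ρ k) (a k) x - T1 g α β f x| ≤ (β - α) + (β - α) := fun x =>
        (abs_sub _ _).trans (add_le_add (hTkb x) (hTb x))
      have i1 : IntegrableOn (fun x => a k x * Tr g α β (ρ k) (a k) x) B := by
        apply dl_ball ((ha k).mul hTk) (C := 1 * (β - α))
        intro x
        simp only [Pi.mul_apply]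
        rw [abs_mul]
        exact mul_le_mul (ha' k x) (hTkb x) (abs_nonneg _) (by norm_num)
      have i2 : IntegrableOn (fun x => a k x * (Tr g α β (ρ k) (a k) x - T1 g α β f x)) B := by
        apply dl_ball ((ha k).mul (hTk.sub hTf)) (C := 1 * ((β - α) + (β - α)))
        intro x
        simp only [Pi.mul_apply]
        rw [abs_mul]
        exact mul_le_mul (ha' k x) (hdb x) (abs_nonneg _) (by norm_num)
      have i3 : IntegrableOn (fun x => (a k x - f x) * T1 g α β f x) B := by
        apply dl_ball ((hbm k).mul hTf) (C := 1 * (β - α))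
        intro x
        simp only [Pi.mul_apply]
        rw [abs_mul]
        exact mul_le_mul (hb1 k x) (hTb x) (abs_nonneg _) (by norm_num)
      have i3a : IntegrableOn (fun x => a k x * T1 g α β f x) B := by
        apply dl_ball ((ha k).mul hTf) (C := 1 * (β - α))
        intro x
        simp only [Pi.mul_apply]
        rw [abs_mul]
        exact mul_le_mul (ha' k x) (hTb x) (abs_nonneg _) (by norm_num)
      have i3b : IntegrableOn (fun x => f x * T1 g α β f x) B := by
        apply dl_ball (hf.mul hTf) (C := 1 * (β - α))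
        intro x
        simp only [Pi.mul_apply]
        rw [abs_mul]
        exact mul_le_mul (hf' x) (hTb x) (abs_nonneg _) (by norm_num)
      have e1 : ∫ x in B, f x * T1 g α β f x
          = (∫ x in B, a k x * Tr g α β (ρ k) (a k) x)
            - (∫ x in B, a k x * (Tr g α β (ρ k) (a k) x - T1 g α β f x))
            - ∫ x in B, (a k x - f x) * T1 g α β f x := by
        have i12 : IntegrableOn (fun x => a k x * Tr g α β (ρ k) (a k) x
            - a k x * (Tr g α β (ρ k) (a k) x - T1 g α β f x)) B := i1.sub i2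
        rw [← integral_sub i1 i2, ← integral_sub i12 i3]
        congr 1
        funext x
        ring
      have b2 : |∫ x in B, a k x * (Tr g α β (ρ k) (a k) x - T1 g α β f x)|
          ≤ ∫ x in B, |Tr g α β (ρ k) (a k) x - T1 g α β f x| := by
        rw [← Real.norm_eq_abs]
        apply norm_integral_le_of_norm_le
        · have : IntegrableOn (fun x => |Tr g α β (ρ k) (a k) x - T1 g α β f x|) B := by
            apply Integrable.abs
            exact dl_ball (hTk.sub hTf) hdb R
          exact this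
        · filter_upwards with x
          rw [norm_mul, Real.norm_eq_abs, Real.norm_eq_abs]
          calc |a k x| * |Tr g α β (ρ k) (a k) x - T1 g α β f x|
              ≤ 1 * |Tr g α β (ρ k) (a k) x - T1 g α β f x| :=
                mul_le_mul_of_nonneg_right (ha' k x) (abs_nonneg _)
            _ = |Tr g α β (ρ k) (a k) x - T1 g α β f x| := one_mul _
      have b3 : ∫ x in B, (a k x - f x) * T1 g α β f x
          = (∫ x, a k x * B.indicator (T1 g α β f) x) - ∫ x, f x * B.indicator (T1 g α β f) x := by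
        have c1 : ∫ x, a k x * B.indicator (T1 g α β f) x = ∫ x in B, a k x * T1 g α β f x := by
          rw [← integral_indicator hBm]
          congr 1
          funext x
          by_cases hx : x ∈ B
          · rw [indicator_of_mem hx, indicator_of_mem hx]
          · rw [indicator_of_notMem hx, indicator_of_notMem hx, mul_zero]
        have c2 : ∫ x, f x * B.indicator (T1 g α β f) x = ∫ x in B, f x * T1 g α β f x := by
          rw [← integral_indicator hBm]
          congr 1
          funext x
          by_cases hx : x ∈ B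
          · rw [indicator_of_mem hx, indicator_of_mem hx]
          · rw [indicator_of_notMem hx, indicator_of_notMem hx, mul_zero]
        rw [c1, c2, ← integral_sub i3a i3b]
        congr 1
        funext x
        ring
      rw [e1, b3]
      refine (abs_sub _ _).trans (add_le_add ((abs_sub _ _).trans (add_le_add le_rfl b2)) le_rfl)
    have hlim : Tendsto (fun k =>
        |∫ x in B, a k x * Tr g α β (ρ k) (a k) x|
        + (∫ x in B, |Tr g α β (ρ k) (a k) x - T1 g α β f x|)
        + |(∫ x, a k x * B.indicator (T1 g α β f) x) - ∫ x, f x * B.indicator (T1 g α β f) x|)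
        atTop (𝓝 0) := by
      have h1 := t1.abs
      have h3 := t3.abs
      rw [abs_zero] at h1 h3
      have := (h1.add t2).add h3
      simpa using this
    have hle : |∫ x in B, f x * T1 g α β f x| ≤ 0 :=
      ge_of_tendsto hlim (Eventually.of_forall hbound)
    exact abs_eq_zero.mp (le_antisymm hle (abs_nonneg _))
  -- nonnegativity
  have hT0 : ∀ x, 0 ≤ T1 g α β f x := by
    intro x
    unfold T1
    exact intervalIntegral.integral_nonneg hαβ fun t _ => (hf1 _).1
  have hnn : ∀ x, 0 ≤ f x * T1 g α β f x := fun x => mul_nonneg (hf1 x).1 (hT0 x)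
  have hae : ∀ᵐ x : ℝ × ℝ, f x * T1 g α β f x = 0 := by
    have h1 : ∀ n : ℕ, ∀ᵐ x : ℝ × ℝ, x ∈ closedBall (0 : ℝ × ℝ) n → f x * T1 g α β f x = 0 := by
      intro n
      have i3b : IntegrableOn (fun x => f x * T1 g α β f x) (closedBall (0 : ℝ × ℝ) n) := by
        apply dl_ball (hf.mul hTf) (C := 1 * (β - α))
        intro x
        simp only [Pi.mul_apply]
        rw [abs_mul]
        exact mul_le_mul (hf' x) (hTb x) (abs_nonneg _) (by norm_num)
      have h2 := (setIntegral_eq_zero_iff_of_nonneg_ae
        (by filter_upwards with x; exact hnn x) i3b).mp (key n)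
      have h3 := (ae_restrict_iff' isClosed_closedBall.measurableSet).mp h2
      filter_upwards [h3] with x hx hxB
      exact hx hxB
    have h2 := ae_all_iff.mpr h1
    filter_upwards [h2] with x hx
    obtain ⟨n, hn⟩ := exists_nat_ge ‖x‖
    apply hx n
    rw [mem_closedBall_zero_iff]
    exact hn
  filter_upwards [hae] with x hx
  have e1 : ∫ t in Ioc α β, f x * f (x + (t, g t)) = 0 := by
    rw [integral_const_mul, ← intervalIntegral.integral_of_le hαβ]
    exact hx
  have hint := (dl_int hgm hf hf' α β x).const_mul (f x)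
  have e2 := (setIntegral_eq_zero_iff_of_nonneg_ae
    (by filter_upwards with t; exact mul_nonneg (hf1 x).1 (hf1 _).1) hint).mp e1
  have e3 := (ae_restrict_iff' measurableSet_Ioc).mp e2
  filter_upwards [e3] with t ht htt
  exact ht ⟨htt.1, htt.2.le⟩

end Pool.Agent.DNB
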