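import Pool.Agent.DNB.Gp

/-!
# The eight arcs are dense in the circle
-/

open Set MeasureTheory Filter Topology Metric
open Pool.Agent.Helper2.LM Pool.Agent.AEP Pool.Agent.H99N

namespace Pool.Agent.DNB

private theorem oc_gp_cont {p : ℝ} (hp : 1 < p) : Continuous (gp p) := by
  have hp0 : 0 ≤ p := by linarith
  have h1 : Continuous fun x : ℝ => x ^ p := Real.continuous_rpow_const hp0
  have h2 : Continuous fun x : ℝ => x ^ (1 / p) :=
    Real.continuous_rpow_const (by positivity)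
  exact h2.comp (continuous_const.sub h1)

private theorem oc_dm_cont (e : Bool × Bool × Bool) : Continuous (dm e) := by
  obtain ⟨a, b, c⟩ := e
  unfold dm
  cases a <;> cases b <;> cases c <;> simp only [if_true, if_false, Bool.false_eq_true] <;>
    fun_prop

private theorem oc_cl {p : ℝ} (hp : 1 < p) (e : Bool × Bool × Bool) {t : ℝ}
    (ht : t ∈ Icc 0 (xs p)) :
    dm e (t, gp p t) ∈ closure {u : ℝ × ℝ | ∃ e, ∃ t ∈ Ioo 0 (xs p), u = dm e (t, gp p t)} := by
  have h1 : Continuous fun t : ℝ => dm e (t, gp p t) :=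
    (oc_dm_cont e).comp (continuous_id.prodMk (oc_gp_cont hp))
  have h2 : t ∈ closure (Ioo 0 (xs p)) := by
    rw [closure_Ioo (xs_pos hp).1.ne]
    exact ht
  exact map_mem_closure (f := fun t : ℝ => dm e (t, gp p t)) h1 h2 fun s hs => ⟨e, s, hs, rfl⟩

private theorem oc_le {p : ℝ} (hp : 1 < p) {x y : ℝ} (hx : 0 ≤ x) (hy : 0 ≤ y)
    (h : x ^ p + y ^ p = 1) (hxy : x ≤ y) : x ∈ Icc 0 (xs p) ∧ y = gp p x := by
  have hp0 : 0 < p := by linarith
  refine ⟨⟨hx, ?_⟩, ?_⟩
  · have h1 : x ^ p ≤ y ^ p := Real.rpow_le_rpow hx hxy hp0.le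
    have h2 : x ^ p ≤ 1 / 2 := by linarith
    unfold xs
    calc x = (x ^ p) ^ (1 / p) := by
          rw [← Real.rpow_mul hx, mul_one_div_cancel hp0.ne', Real.rpow_one]
      _ ≤ (1 / 2) ^ (1 / p) :=
          Real.rpow_le_rpow (Real.rpow_nonneg hx p) h2 (by positivity)
  · unfold gp
    have h3 : 1 - x ^ p = y ^ p := by linarith
    rw [h3, ← Real.rpow_mul hy, mul_one_div_cancel hp0.ne', Real.rpow_one]

private theorem oc_sgn (a : ℝ) : a = if decide (a < 0) = true then -|a| else |a| := by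
  by_cases h : a < 0
  · rw [if_pos (decide_eq_true h), abs_of_neg h, neg_neg]
  · rw [if_neg (by simpa using h), abs_of_nonneg (not_lt.1 h)]

theorem mem_closure_oct {p : ℝ} (hp : 1 < p) {v : ℝ × ℝ} (hv : v ∈ Cp p) :
    v ∈ closure {u : ℝ × ℝ | ∃ e, ∃ t ∈ Ioo 0 (xs p), u = dm e (t, gp p t)} := by
  have hv' : |v.1| ^ p + |v.2| ^ p = 1 := hv
  rcases le_total |v.1| |v.2| with h | h
  · obtain ⟨h1, h2⟩ := oc_le hp (abs_nonneg _) (abs_nonneg _) hv' h
    have h3 := oc_cl hp (false, decide (v.1 < 0), decide (v.2 < 0)) h1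
    have h4 : dm (false, decide (v.1 < 0), decide (v.2 < 0)) (|v.1|, gp p |v.1|) = v := by
      rw [← h2]
      unfold dm
      refine Prod.ext ?_ ?_
      · exact (oc_sgn v.1).symm
      · exact (oc_sgn v.2).symm
    rwa [h4] at h3
  · rw [add_comm] at hv'
    obtain ⟨h1, h2⟩ := oc_le hp (abs_nonneg _) (abs_nonneg _) hv' h
    have h3 := oc_cl hp (true, decide (v.1 < 0), decide (v.2 < 0)) h1
    have h4 : dm (true, decide (v.1 < 0), decide (v.2 < 0)) (|v.2|, gp p |v.2|) = v := by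
      rw [← h2]
      unfold dm
      refine Prod.ext ?_ ?_
      · exact (oc_sgn v.1).symm
      · exact (oc_sgn v.2).symm
    rwa [h4] at h3

end Pool.Agent.DNB
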