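import Pool.Agent.DNB.Sym
import Pool.Agent.H99N.WeakCpt

/-!
# Tools for weak convergence
-/

open Set MeasureTheory Filter Topology Metric
open Pool.Agent.Helper2.LM Pool.Agent.AEP Pool.Agent.H99N

namespace Pool.Agent.DNB

private theorem wk_sub {a : ℕ → ℝ × ℝ → ℝ} {f : ℝ × ℝ → ℝ} (h : Weak a f) {ψ : ℕ → ℕ}
    (hψ : StrictMono ψ) : Weak (fun k => a (ψ k)) f :=
  fun G hG => (h G hG).comp hψ.tendsto_atTop

private theorem wk_list {a : ℕ → Fin 4 → ℝ × ℝ → ℝ} (ha : ∀ k i, Measurable (a k i))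
    (ha1 : ∀ k i x, 0 ≤ a k i x ∧ a k i x ≤ 1) (l : List (Fin 4)) :
    ∃ φ : ℕ → ℕ, StrictMono φ ∧ ∃ f : Fin 4 → ℝ × ℝ → ℝ, (∀ i, Measurable (f i)) ∧
      (∀ i x, 0 ≤ f i x ∧ f i x ≤ 1) ∧ ∀ i ∈ l, Weak (fun k => a (φ k) i) (f i) := by
  induction l with
  | nil =>
    refine ⟨id, strictMono_id, fun _ _ => 0, fun _ => measurable_const,
      fun _ _ => ⟨le_refl 0, zero_le_one⟩, ?_⟩
    intro i hi
    exact absurd hi (List.not_mem_nil)
  | cons i l ih =>
    obtain ⟨φ, hφ, f, h1, h2, h3⟩ := ih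
    obtain ⟨ψ, hψ, g, g1, g2, g3⟩ := weak_compact (a := fun k => a (φ k) i)
      (fun k => ha (φ k) i) (fun k x => ha1 (φ k) i x)
    refine ⟨fun k => φ (ψ k), hφ.comp hψ, Function.update f i g, ?_, ?_, ?_⟩
    · intro j
      by_cases hj : j = i
      · rw [hj, Function.update_self]
        exact g1
      · rw [Function.update_of_ne hj]
        exact h1 j
    · intro j
      by_cases hj : j = i
      · rw [hj, Function.update_self]
        exact g2
      · rw [Function.update_of_ne hj]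
        exact h2 j
    · intro j hjl
      by_cases hj : j = i
      · rw [hj, Function.update_self]
        exact g3
      · rw [Function.update_of_ne hj]
        rw [List.mem_cons] at hjl
        exact wk_sub (a := fun k => a (φ k) j) (h3 j (hjl.resolve_left hj)) hψ

private theorem wk_int {h G : ℝ × ℝ → ℝ} (hm : Measurable h) (h1 : ∀ x, 0 ≤ h x ∧ h x ≤ 1)
    (hG : Integrable G) : Integrable (fun x => h x * G x) := by
  refine hG.bdd_mul (c := 1) hm.aestronglyMeasurable (Eventually.of_forall fun x => ?_)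
  rw [Real.norm_eq_abs, abs_of_nonneg (h1 x).1]
  exact (h1 x).2

theorem weak_compact4 {a : ℕ → Fin 4 → ℝ × ℝ → ℝ} (ha : ∀ k i, Measurable (a k i))
    (ha1 : ∀ k i x, 0 ≤ a k i x ∧ a k i x ≤ 1) :
    ∃ φ : ℕ → ℕ, StrictMono φ ∧ ∃ f : Fin 4 → ℝ × ℝ → ℝ, (∀ i, Measurable (f i)) ∧
      (∀ i x, 0 ≤ f i x ∧ f i x ≤ 1) ∧ ∀ i, Weak (fun k => a (φ k) i) (f i) := by
  obtain ⟨φ, hφ, f, h1, h2, h3⟩ := wk_list ha ha1 [0, 1, 2, 3]
  refine ⟨φ, hφ, f, h1, h2, fun i => h3 i ?_⟩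
  fin_cases i <;> simp

theorem weak_sum {a : ℕ → Fin 4 → ℝ × ℝ → ℝ} {f : Fin 4 → ℝ × ℝ → ℝ}
    (ha : ∀ k i, Measurable (a k i)) (ha1 : ∀ k i x, 0 ≤ a k i x ∧ a k i x ≤ 1)
    (hs : ∀ k x, ∑ i, a k i x = 1) (hf : ∀ i, Measurable (f i))
    (hf1 : ∀ i x, 0 ≤ f i x ∧ f i x ≤ 1) (hw : ∀ i, Weak (fun k => a k i) (f i)) :
    ∀ᵐ x : ℝ × ℝ, ∑ i, f i x = 1 := by
  have hs2 := hs
  have hGI : ∀ s : Set (ℝ × ℝ), MeasurableSet s → volume s < ⊤ →
      Integrable (s.indicator (fun _ => (1 : ℝ))) := by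
    intro s hs hv
    rw [integrable_indicator_iff hs]
    exact integrableOn_const hv.ne
  have hmul : ∀ (s : Set (ℝ × ℝ)) (g : ℝ × ℝ → ℝ),
      (fun x => g x * s.indicator (fun _ => (1 : ℝ)) x) = s.indicator g := by
    intro s g
    funext x
    by_cases hx : x ∈ s
    · rw [indicator_of_mem hx, indicator_of_mem hx, mul_one]
    · rw [indicator_of_notMem hx, indicator_of_notMem hx, mul_zero]
  have hsI : ∀ s : Set (ℝ × ℝ), MeasurableSet s → volume s < ⊤ →
      IntegrableOn (fun x => ∑ i, f i x) s := by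
    intro s hs hv
    refine integrable_finsetSum _ fun i _ => ?_
    have h1 := wk_int (hf i) (hf1 i) (hGI s hs hv)
    rw [hmul, integrable_indicator_iff hs] at h1
    exact h1
  refine ae_eq_of_forall_setIntegral_eq_of_sigmaFinite hsI
    (fun s _ hv => integrableOn_const hv.ne) ?_
  intro s hs hv
  obtain ⟨G, hG⟩ : ∃ G : ℝ × ℝ → ℝ, G = s.indicator (fun _ => (1 : ℝ)) := ⟨_, rfl⟩
  have hGi : Integrable G := by
    rw [hG]
    exact hGI s hs hv
  have h1 : Tendsto (fun k => ∑ i, ∫ x, a k i x * G x) atTop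
      (𝓝 (∑ i, ∫ x, f i x * G x)) :=
    tendsto_finsetSum _ fun i _ => hw i G hGi
  have h2 : ∀ k, ∑ i, ∫ x, a k i x * G x = ∫ x, G x := by
    intro k
    rw [← integral_finsetSum _ fun i _ => wk_int (ha k i) (ha1 k i) hGi]
    refine integral_congr_ae (Eventually.of_forall fun x => ?_)
    show ∑ i, a k i x * G x = G x
    rw [← Finset.sum_mul, hs2 k x, one_mul]
  simp only [h2] at h1
  have h3 := tendsto_nhds_unique h1 tendsto_const_nhds
  rw [← integral_finsetSum _ fun i _ => wk_int (hf i) (hf1 i) hGi] at h3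
  have h4 : (fun x => ∑ i, f i x * G x) = s.indicator (fun x => ∑ i, f i x) := by
    rw [← hmul s (fun x => ∑ i, f i x), ← hG]
    funext x
    rw [Finset.sum_mul]
  rw [h4, integral_indicator hs, hG, integral_indicator hs] at h3
  exact h3

theorem weak_dm {a : ℕ → ℝ × ℝ → ℝ} {f : ℝ × ℝ → ℝ} (h : Weak a f) (e : Bool × Bool × Bool) :
    Weak (fun k x => a k (dm e x)) (fun x => f (dm e x)) := by
  intro G hG
  obtain ⟨e', h1, h2⟩ := dm_inv e
  have hemb : MeasurableEmbedding (dm e) :=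
    (MeasurableEquiv.mk ⟨dm e, dm e', h2, h1⟩ (dm_cont e).measurable
      (dm_cont e').measurable).measurableEmbedding
  have hG' : Integrable (fun y => G (dm e' y)) :=
    (dm_mp e').integrable_comp_of_integrable hG
  have key : ∀ b : ℝ × ℝ → ℝ, ∫ x, b (dm e x) * G x = ∫ y, b y * G (dm e' y) := by
    intro b
    have h3 := (dm_mp e).integral_comp hemb (fun y => b y * G (dm e' y))
    rw [← h3]
    refine integral_congr_ae (Eventually.of_forall fun x => ?_)
    show b (dm e x) * G x = b (dm e x) * G (dm e' (dm e x))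
    rw [h2]
  have h4 := h (fun y => G (dm e' y)) hG'
  show Tendsto (fun k => ∫ x, a k (dm e x) * G x) atTop (𝓝 (∫ x, f (dm e x) * G x))
  rw [key f]
  refine h4.congr fun k => ?_
  exact (key (a k)).symm

theorem weak_congr {a b : ℕ → ℝ × ℝ → ℝ} {f : ℝ × ℝ → ℝ} (h : Weak a f)
    (hab : ∀ k, a k =ᵐ[volume] b k) : Weak b f := by
  intro G hG
  refine (h G hG).congr fun k => ?_
  refine integral_congr_ae ?_
  filter_upwards [hab k] with x hx
  rw [hx]

end Pool.Agent.DNB
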