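import Pool.Agent.DNB.En
import Pool.Agent.DNB.Lim
import Pool.Agent.DNB.Arc
import Pool.Agent.DNB.Oc
import Pool.Agent.DNB.Wk
import Pool.Agent.DNB.Avs
import Pool.Agent.AEP.Main

/-!
# Assembly
-/

open Set MeasureTheory Filter Topology Metric
open Pool.Agent.Helper2.LM Pool.Agent.AEP Pool.Agent.H99N

namespace Pool.Agent.DNB

open Classical in
/-- indicator of the colour `i` on the centres, after the symmetry `e` -/
private noncomputable def col (κ : ℝ × ℝ → Fin 4) (n : ℕ) (e : Bool × Bool × Bool) (i : Fin 4)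
    (z : ℤ × ℤ) : ℝ := if κ (dm e (cen n z)) = i then 1 else 0

private theorem col_bd (κ : ℝ × ℝ → Fin 4) (n : ℕ) (e : Bool × Bool × Bool) (i : Fin 4)
    (z : ℤ × ℤ) : 0 ≤ col κ n e i z ∧ col κ n e i z ≤ 1 := by
  unfold col
  split_ifs <;> norm_num

private theorem col_meas (κ : ℝ × ℝ → Fin 4) (n : ℕ) (e : Bool × Bool × Bool) (i : Fin 4) :
    Measurable fun y : ℝ × ℝ => col κ n e i (cell n y) :=
  (measurable_of_countable (col κ n e i)).comp (measurable_cell n)

private theorem dm_id (x : ℝ × ℝ) : dm (false, false, false) x = x := by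
  simp [dm]

private theorem col_sum (κ : ℝ × ℝ → Fin 4) (n : ℕ) (e : Bool × Bool × Bool) (z : ℤ × ℤ) :
    ∑ i, col κ n e i z = 1 := by
  unfold col
  rw [Finset.sum_ite_eq]
  simp

private theorem col_dm {κ : ℝ × ℝ → Fin 4} {n : ℕ} (hn : 0 < n) (e : Bool × Bool × Bool)
    (i : Fin 4) :
    (fun y : ℝ × ℝ => col κ n (false, false, false) i (cell n (dm e y))) =ᵐ[volume]
      fun y => col κ n e i (cell n y) := by
  filter_upwards [cen_cell_dm hn e] with y hy
  unfold col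
  rw [dm_id, hy]

private theorem col_avoid {κ : ℝ × ℝ → Fin 4} {n : ℕ} {p ε : ℝ} {Nm : Seminorm ℝ (ℝ × ℝ)}
    (hG : GN p ε Nm) (hκ : ∀ x ∈ Q2, ∀ y ∈ Q2, κ x = κ y → Nm (x - y) ≠ 1)
    (e : Bool × Bool × Bool) (i : Fin 4) (z s : ℤ × ℤ) (hs : Nm (sc n s) = 1) :
    col κ n e i z * col κ n e i (z + s) = 0 := by
  unfold col
  split_ifs with h1 h2
  · exfalso
    refine hκ (dm e (cen n (z + s))) (dm_Q2 e (cen_Q2 n _)) (dm e (cen n z))
      (dm_Q2 e (cen_Q2 n _)) (h2.trans h1.symm) ?_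
    rw [← dm_sub, hG.sym, cen_add, add_sub_cancel_left]
    exact hs
  · simp
  · simp
  · simp

/-- the key statement for one symmetry and one colour -/
private theorem key {p ε : ℝ} (hp1 : 1 < p) {n : ℕ → ℕ} {ρ : ℕ → ℝ}
    {Nm : ℕ → Seminorm ℝ (ℝ × ℝ)} {κ : ℕ → ℝ × ℝ → Fin 4} (hn : ∀ k, 0 < n k) (hρ : ∀ k, 0 < ρ k)
    (hρ1 : ∀ k : ℕ, ρ k ≤ 1 / ((k : ℝ) + 1)) (hG : ∀ k, GN p ε (Nm k))
    (hE : ∀ (k : ℕ) (H : ℤ × ℤ → ℝ), (∀ z, 0 ≤ H z ∧ H z ≤ 1) →
      (∀ z s, Nm k (sc (n k) s) = 1 → H z * H (z + s) = 0) →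
      ∫ y in closedBall (0 : ℝ × ℝ) k, H (cell (n k) y) * Tr (gp p) (xs p / (k + 3))
        (xs p - xs p / (k + 3)) (ρ k) (fun x => H (cell (n k) x)) y ≤ 1 / ((k : ℝ) + 1))
    (hκ : ∀ k, ∀ x ∈ Q2, ∀ y ∈ Q2, κ k x = κ k y → Nm k (x - y) ≠ 1)
    {φ : ℕ → ℕ} (hφ : StrictMono φ) {f : ℝ × ℝ → ℝ} (hf : Measurable f)
    (hf1 : ∀ x, 0 ≤ f x ∧ f x ≤ 1) {i : Fin 4}
    (hw : Weak (fun k y => col (κ (φ k)) (n (φ k)) (false, false, false) i (cell (n (φ k)) y)) f)
    (e : Bool × Bool × Bool) {t : ℝ} (ht : t ∈ Ioo 0 (xs p)) :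
    NoPair {x | 0 < f x} (dm e (t, gp p t)) := by
  obtain ⟨hx0, hx1⟩ := xs_pos hp1
  obtain ⟨α, hα0, hαt⟩ : ∃ α, 0 < α ∧ α < t := ⟨t / 2, by linarith [ht.1], by linarith [ht.1]⟩
  obtain ⟨β, htβ, hβx⟩ : ∃ β, t < β ∧ β < xs p :=
    ⟨(t + xs p) / 2, by linarith [ht.2], by linarith [ht.2]⟩
  have hαβ : α < β := hαt.trans htβ
  have hpf : Pf (gp p) (gpd p) α β := gp_pf hp1 hα0 hαβ (hβx.trans hx1)
  have hlim := limit hpf (a := fun k y => col (κ (φ k)) (n (φ k)) e i (cell (n (φ k)) y))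
    (f := fun x => f (dm e x)) (ρ := fun k => ρ (φ k))
    (fun k => col_meas _ _ _ _) (fun k x => col_bd _ _ _ _ _)
    (hf.comp (dm_cont e).measurable) (fun x => hf1 _)
    (weak_congr (weak_dm hw e) (fun k => col_dm (hn _) e i)) (fun k => hρ _) (by
      have h1 : Tendsto (fun k : ℕ => 1 / ((k : ℝ) + 1)) atTop (𝓝 0) :=
        tendsto_one_div_add_atTop_nhds_zero_nat
      have h2 : Tendsto ρ atTop (𝓝 0) :=
        squeeze_zero (fun k => (hρ k).le) hρ1 h1
      exact h2.comp hφ.tendsto_atTop) (by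
      intro R
      have h1 : Tendsto (fun k : ℕ => 1 / ((φ k : ℝ) + 1)) atTop (𝓝 0) :=
        (tendsto_one_div_add_atTop_nhds_zero_nat (𝕜 := ℝ)).comp hφ.tendsto_atTop
      have h3 : Tendsto (fun k : ℕ => xs p / ((φ k : ℝ) + 3)) atTop (𝓝 0) := by
        have h4 : Tendsto (fun k : ℕ => ((φ k : ℝ) + 3)) atTop atTop :=
          tendsto_atTop_add_const_right _ _ (tendsto_natCast_atTop_atTop.comp hφ.tendsto_atTop)
        exact h4.const_div_atTop _
      have e1 : ∀ᶠ k in atTop, xs p / ((φ k : ℝ) + 3) < α := h3.eventually (gt_mem_nhds hα0)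
      have e2 : ∀ᶠ k in atTop, xs p / ((φ k : ℝ) + 3) < xs p - β :=
        h3.eventually (gt_mem_nhds (by linarith))
      have e3 : ∀ᶠ k in atTop, R ≤ (φ k : ℝ) :=
        (tendsto_natCast_atTop_atTop.comp hφ.tendsto_atTop).eventually_ge_atTop R
      have hpf' : ∀ k : ℕ, Pf (gp p) (gpd p) (xs p / ((φ k : ℝ) + 3))
          (xs p - xs p / ((φ k : ℝ) + 3)) := by
        intro k
        have h5 : (0 : ℝ) < (φ k : ℝ) + 3 := by positivity
        have h6 : 0 < xs p / ((φ k : ℝ) + 3) := by positivity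
        have h7 : xs p / ((φ k : ℝ) + 3) ≤ xs p / 3 :=
          div_le_div_of_nonneg_left hx0.le (by norm_num) (by
            have : (0 : ℝ) ≤ φ k := Nat.cast_nonneg _
            linarith)
        exact gp_pf hp1 h6 (by linarith) (by linarith)
      have hbd : ∀ k, ∀ x : ℝ × ℝ,
          |col (κ (φ k)) (n (φ k)) e i (cell (n (φ k)) x)| ≤ 1 := by
        intro k x
        have := col_bd (κ (φ k)) (n (φ k)) e i (cell (n (φ k)) x)
        rw [abs_le]
        constructor <;> linarith [this.1, this.2]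
      refine tendsto_of_tendsto_of_tendsto_of_le_of_le' tendsto_const_nhds h1 ?_ ?_
      · filter_upwards [e1, e2] with k h4 h5
        refine integral_nonneg fun x => mul_nonneg (col_bd _ _ _ _ _).1 ?_
        exact (Tr_mono (hpf' k) h4.le hαβ.le (by linarith) (hρ _) (col_meas _ _ _ _)
          (fun x => col_bd _ _ _ _ _) x).1
      · filter_upwards [e1, e2, e3] with k h4 h5 h6
        refine le_trans ?_ (hE (φ k) (col (κ (φ k)) (n (φ k)) e i) (col_bd _ _ _ _)
          (col_avoid (hG _) (hκ _) e i))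
        have hmono := fun x => Tr_mono (hpf' k) h4.le hαβ.le (by linarith) (hρ (φ k))
          (col_meas (κ (φ k)) (n (φ k)) e i) (fun x => col_bd _ _ _ _ _) x
        have hint : IntegrableOn (fun y : ℝ × ℝ => col (κ (φ k)) (n (φ k)) e i (cell (n (φ k)) y) *
            Tr (gp p) (xs p / ((φ k : ℝ) + 3)) (xs p - xs p / ((φ k : ℝ) + 3)) (ρ (φ k))
              (fun x => col (κ (φ k)) (n (φ k)) e i (cell (n (φ k)) x)) y)
            (closedBall (0 : ℝ × ℝ) (φ k)) := by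
          apply Measure.integrableOn_of_bounded (M := 1 * ((xs p - xs p / ((φ k : ℝ) + 3)) -
            xs p / ((φ k : ℝ) + 3)))
          · exact (measure_closedBall_lt_top (x := (0 : ℝ × ℝ)) (r := (φ k : ℝ))).ne
          · exact ((col_meas _ _ _ _).mul
              (measurable_Tr (hpf' k) (hρ _) (col_meas _ _ _ _) (hbd k))).aestronglyMeasurable
          · filter_upwards with x
            rw [norm_mul, Real.norm_eq_abs, Real.norm_eq_abs]
            exact mul_le_mul (hbd k x) (abs_Tr (hpf' k) (hρ _) (hbd k) x) (abs_nonneg _)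
              zero_le_one
        calc ∫ x in closedBall (0 : ℝ × ℝ) R, col (κ (φ k)) (n (φ k)) e i (cell (n (φ k)) x) *
              Tr (gp p) α β (ρ (φ k))
                (fun y => col (κ (φ k)) (n (φ k)) e i (cell (n (φ k)) y)) x
            ≤ ∫ x in closedBall (0 : ℝ × ℝ) R, col (κ (φ k)) (n (φ k)) e i (cell (n (φ k)) x) *
              Tr (gp p) (xs p / ((φ k : ℝ) + 3)) (xs p - xs p / ((φ k : ℝ) + 3)) (ρ (φ k))
                (fun y => col (κ (φ k)) (n (φ k)) e i (cell (n (φ k)) y)) x := by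
              apply integral_mono_of_nonneg
              · filter_upwards with x
                exact mul_nonneg (col_bd _ _ _ _ _).1 (hmono x).1
              · exact hint.mono_set (closedBall_subset_closedBall h6)
              · filter_upwards with x
                exact mul_le_mul_of_nonneg_left (hmono x).2 (col_bd _ _ _ _ _).1
          _ ≤ _ := by
              apply setIntegral_mono_set hint
              · filter_upwards with x
                exact mul_nonneg (col_bd _ _ _ _ _).1 ((hmono x).1.trans (hmono x).2)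
              · exact (closedBall_subset_closedBall h6).eventuallyLE)
  obtain ⟨e', he1, he2⟩ := dm_inv e
  have h2 := (dm_mp e').quasiMeasurePreserving.ae hlim
  have mB : MeasurableSet {x | 0 < f x} := measurableSet_lt measurable_const hf
  have hcm : Measurable fun t : ℝ => dm e (t, gp p t) :=
    (dm_cont e).measurable.comp (measurable_id.prodMk hpf.meas)
  refine noPair_arc mB (c := fun t => dm e (t, gp p t)) (α := α) (β := β) hcm ?_ ?_ ⟨hαt, htβ⟩
  · refine (dm_cont e).comp_continuousOn ?_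
    exact continuousOn_id.prodMk (hpf.cont.mono Ioo_subset_Icc_self)
  · filter_upwards [h2] with z hz
    filter_upwards [hz] with s hs hs1 hz1 hz2
    have h3 := hs hs1
    rw [dm_add, he1] at h3
    have h4 : 0 < f z := hz1
    have h5 : 0 < f (z + dm e (s, gp p s)) := hz2
    exact absurd h3 (mul_pos h4 h5).ne'

theorem main {p : ℝ} (hp1 : 1 < p) {ε : ℝ} (hε : 0 < ε) (hε1 : ε < 1) :
    ∃ Nm : Seminorm ℝ (ℝ × ℝ), GN p ε Nm ∧ ∀ κ : ℝ × ℝ → Fin 4, ∃ x ∈ Q2, ∃ y ∈ Q2,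
      κ x = κ y ∧ Nm (x - y) = 1 := by
  by_contra hcon
  push Not at hcon
  obtain ⟨hx0, hx1⟩ := xs_pos hp1
  have hE : ∀ k : ℕ, ∃ (n : ℕ) (ρ : ℝ) (Nm : Seminorm ℝ (ℝ × ℝ)), 0 < n ∧ 0 < ρ ∧
      ρ ≤ 1 / ((k : ℝ) + 1) ∧ GN p ε Nm ∧ ∀ H : ℤ × ℤ → ℝ, (∀ z, 0 ≤ H z ∧ H z ≤ 1) →
        (∀ z s, Nm (sc n s) = 1 → H z * H (z + s) = 0) →
        ∫ y in closedBall (0 : ℝ × ℝ) k, H (cell n y) * Tr (gp p) (xs p / (k + 3))
          (xs p - xs p / (k + 3)) ρ (fun x => H (cell n x)) y ≤ 1 / ((k : ℝ) + 1) := by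
    intro k
    have h5 : (0 : ℝ) < (k : ℝ) + 3 := by positivity
    have h6 : 0 < xs p / ((k : ℝ) + 3) := by positivity
    have h7 : xs p / ((k : ℝ) + 3) ≤ xs p / 3 :=
      div_le_div_of_nonneg_left hx0.le (by norm_num) (by
        have : (0 : ℝ) ≤ k := Nat.cast_nonneg _
        linarith)
    exact ens hp1 h6 (by linarith) (by linarith) hε hε1 k (by positivity)
  choose n ρ Nm hn hρ hρ1 hG hE' using hE
  choose κ hκ using fun k => hcon (Nm k) (hG k)
  obtain ⟨φ, hφ, f, hfm, hf1, hw⟩ := weak_compact4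
    (a := fun k i y => col (κ k) (n k) (false, false, false) i (cell (n k) y))
    (fun k i => col_meas _ _ _ _) (fun k i x => col_bd _ _ _ _ _)
  have hs := weak_sum
    (a := fun k i y => col (κ (φ k)) (n (φ k)) (false, false, false) i (cell (n (φ k)) y))
    (fun k i => col_meas _ _ _ _) (fun k i x => col_bd _ _ _ _ _) (fun k x => col_sum _ _ _ _)
    hfm hf1 hw
  have hNP : ∀ i, ∀ v ∈ Cp p, NoPair {x | 0 < f i x} v := by
    intro i v hv
    refine noPair_closure (measurableSet_lt measurable_const (hfm i))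
      (S := {u : ℝ × ℝ | ∃ e, ∃ t ∈ Ioo 0 (xs p), u = dm e (t, gp p t)}) ?_
      (mem_closure_oct hp1 hv)
    rintro u ⟨e, t, ht, rfl⟩
    exact key hp1 hn hρ hρ1 hG hE' hκ hφ (hfm i) (hf1 i) (hw i) e ht
  obtain ⟨A, hA⟩ := avoid_of_sets (fun i => measurableSet_lt measurable_const (hfm i)) (by
    filter_upwards [hs] with x hx
    by_contra hno
    push Not at hno
    have h1 : ∑ i, f i x ≤ 0 := Finset.sum_nonpos fun i _ => hno i
    linarith) hNP
  exact no_avoid_Cp hp1 hA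

end Pool.Agent.DNB
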