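import Pool.Agent.DNB.Defs

/-!
# Parseval bound on a finite abelian group
-/

open Set MeasureTheory Filter Topology Metric
open Pool.Agent.Helper2.LM Pool.Agent.AEP Pool.Agent.H99N

namespace Pool.Agent.DNB

private theorem pv_id {G : Type} [AddCommGroup G] [Fintype G] [DecidableEq G] (μ F H : G → ℂ) :
    ∑ ψ : AddChar G ℂ, (∑ w, H w * ψ (-w)) * ((∑ z, F z * ψ z) * (∑ s, μ s * ψ s)) =
      Fintype.card G * ∑ z, ∑ s, μ s * F z * H (z + s) := by
  have h1 : ∀ ψ : AddChar G ℂ, (∑ w, H w * ψ (-w)) * ((∑ z, F z * ψ z) * (∑ s, μ s * ψ s)) =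
      ∑ z, ∑ s, ∑ w, (μ s * F z * H w) * ψ (z + s - w) := by
    intro ψ
    rw [Finset.sum_mul_sum, Finset.mul_sum]
    refine Finset.sum_congr rfl fun z _ => ?_
    rw [Finset.mul_sum]
    refine Finset.sum_congr rfl fun s _ => ?_
    rw [Finset.sum_mul]
    refine Finset.sum_congr rfl fun w _ => ?_
    rw [sub_eq_add_neg, AddChar.map_add_eq_mul, AddChar.map_add_eq_mul]
    ring
  rw [Finset.sum_congr rfl fun ψ _ => h1 ψ, Finset.sum_comm, Finset.mul_sum]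
  refine Finset.sum_congr rfl fun z _ => ?_
  rw [Finset.sum_comm, Finset.mul_sum]
  refine Finset.sum_congr rfl fun s _ => ?_
  rw [Finset.sum_comm, Finset.sum_eq_single (z + s)]
  · rw [← Finset.mul_sum, AddChar.sum_apply_eq_ite, if_pos (sub_self _)]
    ring
  · intro w _ hw
    rw [← Finset.mul_sum, AddChar.sum_apply_eq_ite, if_neg, mul_zero]
    rw [sub_eq_zero]
    exact fun h => hw h.symm
  · intro h
    exact absurd (Finset.mem_univ _) h

private theorem pv_conj {G : Type} [AddCommGroup G] [Fintype G] (F : G → ℝ) (ψ : AddChar G ℂ) :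
    ∑ w, (F w : ℂ) * ψ (-w) = (starRingEnd ℂ) (∑ w, (F w : ℂ) * ψ w) := by
  rw [map_sum]
  refine Finset.sum_congr rfl fun w _ => ?_
  rw [map_mul, Complex.conj_ofReal, AddChar.map_neg_eq_conj]

private theorem pv_pars {G : Type} [AddCommGroup G] [Fintype G] [DecidableEq G] (F : G → ℝ)
    (hF : ∀ z, |F z| ≤ 1) :
    ∑ ψ : AddChar G ℂ, ‖∑ z, (F z : ℂ) * ψ z‖ ^ 2 ≤
      (Fintype.card G : ℝ) * (Fintype.card G : ℝ) := by
  have h1 := pv_id (Pi.single (0 : G) (1 : ℂ)) (fun z => (F z : ℂ)) (fun z => (F z : ℂ))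
  have h2 : ∀ ψ : AddChar G ℂ, ∑ s, (Pi.single (0 : G) (1 : ℂ) : G → ℂ) s * ψ s = 1 := by
    intro ψ
    rw [Finset.sum_eq_single (0 : G)]
    · rw [Pi.single_eq_same, AddChar.map_zero_eq_one, one_mul]
    · intro s _ hs
      rw [Pi.single_eq_of_ne hs, zero_mul]
    · intro h
      exact absurd (Finset.mem_univ _) h
  have h3 : ∀ z : G, ∑ s, (Pi.single (0 : G) (1 : ℂ) : G → ℂ) s * (F z : ℂ) * (F (z + s) : ℂ) =
      ((F z ^ 2 : ℝ) : ℂ) := by
    intro z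
    rw [Finset.sum_eq_single (0 : G)]
    · rw [Pi.single_eq_same, add_zero]
      push_cast
      ring
    · intro s _ hs
      rw [Pi.single_eq_of_ne hs, zero_mul, zero_mul]
    · intro h
      exact absurd (Finset.mem_univ _) h
  have h4 : ((∑ ψ : AddChar G ℂ, ‖∑ z, (F z : ℂ) * ψ z‖ ^ 2 : ℝ) : ℂ) =
      (((Fintype.card G : ℝ) * ∑ z, F z ^ 2 : ℝ) : ℂ) := by
    rw [Complex.ofReal_mul, Complex.ofReal_sum, Complex.ofReal_sum, Complex.ofReal_natCast,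
      ← Finset.sum_congr rfl fun z _ => h3 z, ← h1]
    refine Finset.sum_congr rfl fun ψ _ => ?_
    rw [h2, mul_one, pv_conj, mul_comm, Complex.mul_conj, Complex.normSq_eq_norm_sq]
  have h5 := Complex.ofReal_injective h4
  rw [h5]
  refine mul_le_mul_of_nonneg_left ?_ (Nat.cast_nonneg _)
  calc ∑ z, F z ^ 2 ≤ ∑ _z : G, (1 : ℝ) := by
        refine Finset.sum_le_sum fun z _ => ?_
        rw [← sq_abs]
        exact pow_le_one₀ (abs_nonneg _) (hF z)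
    _ = Fintype.card G := by
        rw [Finset.sum_const, Finset.card_univ, nsmul_eq_mul, mul_one]

theorem parseval_bound {G : Type} [AddCommGroup G] [Fintype G] [DecidableEq G] (μ F H : G → ℝ)
    {η : ℝ} (h : ∀ ψ : AddChar G ℂ, ‖∑ s, (μ s : ℂ) * ψ s‖ ≤ η) (hF : ∀ z, |F z| ≤ 1)
    (hH : ∀ z, |H z| ≤ 1) :
    |∑ z, ∑ s, μ s * F z * H (z + s)| ≤ η * Fintype.card G := by
  have hn : (0 : ℝ) < Fintype.card G := by
    have : 0 < Fintype.card G := Fintype.card_pos_iff.mpr ⟨0⟩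
    exact_mod_cast this
  have hη : 0 ≤ η := (norm_nonneg _).trans (h 0)
  obtain ⟨T, hT⟩ : ∃ T : ℝ, T = ∑ z, ∑ s, μ s * F z * H (z + s) := ⟨_, rfl⟩
  have h1 := pv_id (fun s => (μ s : ℂ)) (fun z => (F z : ℂ)) (fun z => (H z : ℂ))
  have h2 : ∑ z, ∑ s, (μ s : ℂ) * (F z : ℂ) * (H (z + s) : ℂ) = (T : ℂ) := by
    rw [hT]
    push_cast
    rfl
  rw [h2] at h1
  have h3 : (Fintype.card G : ℝ) * |T| ≤ η * ((Fintype.card G : ℝ) * (Fintype.card G : ℝ)) := by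
    calc (Fintype.card G : ℝ) * |T| = ‖(Fintype.card G : ℂ) * (T : ℂ)‖ := by
          rw [norm_mul, Complex.norm_natCast, Complex.norm_real, Real.norm_eq_abs]
      _ = ‖∑ ψ : AddChar G ℂ, (∑ w, (H w : ℂ) * ψ (-w)) *
            ((∑ z, (F z : ℂ) * ψ z) * (∑ s, (μ s : ℂ) * ψ s))‖ := by
          rw [h1]
      _ ≤ ∑ ψ : AddChar G ℂ, ‖(∑ w, (H w : ℂ) * ψ (-w)) *
            ((∑ z, (F z : ℂ) * ψ z) * (∑ s, (μ s : ℂ) * ψ s))‖ := norm_sum_le _ _
      _ ≤ ∑ ψ : AddChar G ℂ, η / 2 * (‖∑ w, (H w : ℂ) * ψ w‖ ^ 2 +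
            ‖∑ z, (F z : ℂ) * ψ z‖ ^ 2) := by
          refine Finset.sum_le_sum fun ψ _ => ?_
          rw [norm_mul, norm_mul, pv_conj, RCLike.norm_conj]
          have e1 := mul_le_mul_of_nonneg_left (h ψ) (mul_nonneg
            (norm_nonneg (∑ w, (H w : ℂ) * ψ w)) (norm_nonneg (∑ z, (F z : ℂ) * ψ z)))
          have e2 := mul_le_mul_of_nonneg_right (two_mul_le_add_sq
            (‖∑ w, (H w : ℂ) * ψ w‖) (‖∑ z, (F z : ℂ) * ψ z‖)) hη
          nlinarith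
      _ = η / 2 * (∑ ψ : AddChar G ℂ, ‖∑ w, (H w : ℂ) * ψ w‖ ^ 2 +
            ∑ ψ : AddChar G ℂ, ‖∑ z, (F z : ℂ) * ψ z‖ ^ 2) := by
          rw [← Finset.mul_sum, Finset.sum_add_distrib]
      _ ≤ η / 2 * ((Fintype.card G : ℝ) * (Fintype.card G : ℝ) +
            (Fintype.card G : ℝ) * (Fintype.card G : ℝ)) :=
          mul_le_mul_of_nonneg_left (add_le_add (pv_pars H hH) (pv_pars F hF)) (by linarith)
      _ = η * ((Fintype.card G : ℝ) * (Fintype.card G : ℝ)) := by ring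
  rw [← hT]
  have h4 : (Fintype.card G : ℝ) * |T| ≤ (Fintype.card G : ℝ) * (η * Fintype.card G) := by
    linarith
  exact le_of_mul_le_mul_left h4 hn

end Pool.Agent.DNB
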