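import Pool.Agent.DNB.Hf
import Pool.Agent.DNB.Pv

/-!
# A good choice of the points

`hoeff` is applied to the real and imaginary parts of the values of the characters (minus their averages), then
`parseval_bound` to the difference of the two averages.
-/

open Set MeasureTheory Filter Topology Metric
open Pool.Agent.Helper2.LM Pool.Agent.AEP Pool.Agent.H99N

namespace Pool.Agent.DNB

private theorem ch_sum {G : Type} [Fintype G] [DecidableEq G] {ι : Type} [Fintype ι]
    {N : ℕ} (P : Fin N → ι → G) (ω : Fin N → ι) (f : G → ℝ) :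
    ∑ s, ((1 / (N : ℝ)) * ∑ j, ((if P j (ω j) = s then (1 : ℝ) else 0) -
      (1 / (Fintype.card ι : ℝ)) * ∑ w, if P j w = s then (1 : ℝ) else 0)) * f s =
      (∑ j, f (P j (ω j))) / N - (∑ j, ∑ w, f (P j w)) / (N * Fintype.card ι) := by
  have hd : ∀ q : G, ∑ s, (if q = s then (1 : ℝ) else 0) * f s = f q := by
    intro q
    simp
  have h1 : ∀ s, ((1 / (N : ℝ)) * ∑ j, ((if P j (ω j) = s then (1 : ℝ) else 0) -
      (1 / (Fintype.card ι : ℝ)) * ∑ w, if P j w = s then (1 : ℝ) else 0)) * f s =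
      (1 / (N : ℝ)) * ∑ j, (if P j (ω j) = s then (1 : ℝ) else 0) * f s -
        (1 / ((N : ℝ) * Fintype.card ι)) * ∑ j, ∑ w, (if P j w = s then (1 : ℝ) else 0) * f s := by
    intro s
    simp only [← Finset.sum_mul]
    rw [Finset.sum_sub_distrib, ← Finset.mul_sum]
    have h2 : (1 / ((N : ℝ) * Fintype.card ι)) = (1 / (N : ℝ)) * (1 / (Fintype.card ι : ℝ)) := by
      rw [one_div_mul_one_div]
    rw [h2]
    ring
  simp only [h1]
  rw [Finset.sum_sub_distrib, ← Finset.mul_sum, ← Finset.mul_sum, Finset.sum_comm]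
  simp only [hd]
  have h3 : ∑ s, ∑ j, ∑ w, (if P j w = s then (1 : ℝ) else 0) * f s = ∑ j, ∑ w, f (P j w) := by
    rw [Finset.sum_comm]
    refine Finset.sum_congr rfl fun j _ => ?_
    rw [Finset.sum_comm]
    exact Finset.sum_congr rfl fun w _ => hd _
  rw [h3]
  ring

private theorem ch_bd {N : ℕ} (hN : 0 < N) {ι : Type} [Fintype ι] (x : Fin N → ι → ℝ)
    (ω : Fin N → ι) {η : ℝ}
    (h : |∑ j, (x j (ω j) - (∑ w, x j w) / Fintype.card ι) / 2| ≤ η * N) :
    |(∑ j, x j (ω j)) / N - (∑ j, ∑ w, x j w) / (N * Fintype.card ι)| ≤ 2 * η := by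
  have hN' : (0 : ℝ) < N := by exact_mod_cast hN
  have h1 : (∑ j, x j (ω j)) / N - (∑ j, ∑ w, x j w) / (N * Fintype.card ι) =
      2 / N * ∑ j, (x j (ω j) - (∑ w, x j w) / Fintype.card ι) / 2 := by
    rw [← Finset.sum_div, Finset.sum_sub_distrib, ← Finset.sum_div, mul_comm (N : ℝ), ← div_div]
    ring
  rw [h1, abs_mul, abs_of_pos (by positivity : (0 : ℝ) < 2 / N)]
  calc 2 / N * |∑ j, (x j (ω j) - (∑ w, x j w) / Fintype.card ι) / 2|
      ≤ 2 / N * (η * N) := mul_le_mul_of_nonneg_left h (by positivity)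
    _ = 2 * η := by field_simp

theorem choice {G : Type} [AddCommGroup G] [Fintype G] [DecidableEq G] {ι : Type} [Fintype ι]
    [Nonempty ι] {N : ℕ} (hN : 0 < N) (P : Fin N → ι → G) {η : ℝ} (hη : 0 < η)
    (h : 4 * (Fintype.card G : ℝ) * Real.exp (-(N * η ^ 2 / 2)) < 1) :
    ∃ ω : Fin N → ι, ∀ F H : G → ℝ, (∀ z, |F z| ≤ 1) → (∀ z, |H z| ≤ 1) →
      |∑ z, F z * ((∑ j, H (z + P j (ω j))) / N - (∑ j, ∑ w, H (z + P j w)) /
        (N * Fintype.card ι))| ≤ 4 * η * Fintype.card G := by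
  have hK : (0 : ℝ) < Fintype.card ι := by exact_mod_cast Fintype.card_pos
  obtain ⟨p, hp⟩ : ∃ p : AddChar G ℂ × Bool → G → ℝ, ∀ ψ b s, p (ψ, b) s =
      if b then (ψ s).re else (ψ s).im := ⟨fun c s => if c.2 then (c.1 s).re else (c.1 s).im,
        fun _ _ _ => rfl⟩
  have hp1 : ∀ c s, |p c s| ≤ 1 := by
    rintro ⟨ψ, b⟩ s
    rw [hp, ← ψ.norm_apply s]
    cases b
    · exact Complex.abs_im_le_norm _
    · exact Complex.abs_re_le_norm _
  have hav : ∀ c j, |(∑ w, p c (P j w)) / Fintype.card ι| ≤ 1 := by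
    intro c j
    rw [abs_div, abs_of_pos hK, div_le_one hK]
    refine (Finset.abs_sum_le_sum_abs _ _).trans ?_
    refine (Finset.sum_le_sum fun w _ => hp1 c (P j w)).trans ?_
    rw [Finset.sum_const, Finset.card_univ, nsmul_eq_mul, mul_one]
  obtain ⟨ω, hω⟩ := hoeff (ι := ι) (C := AddChar G ℂ × Bool) (N := N)
    (fun c j w => (p c (P j w) - (∑ w', p c (P j w')) / Fintype.card ι) / 2)
    (by
      intro c j w
      have h1 := abs_le.1 (hp1 c (P j w))
      have h2 := abs_le.1 (hav c j)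
      rw [abs_le]
      constructor <;> linarith [h1.1, h1.2, h2.1, h2.2])
    (by
      intro c j
      rw [← Finset.sum_div, Finset.sum_sub_distrib, Finset.sum_const, Finset.card_univ,
        nsmul_eq_mul, mul_div_cancel₀ _ hK.ne', sub_self, zero_div])
    hη
    (by
      have h1 : (Fintype.card (AddChar G ℂ × Bool) : ℝ) = Fintype.card G * 2 := by
        rw [Fintype.card_prod, AddChar.card_eq, Fintype.card_bool]
        push_cast
        rfl
      rw [h1]
      have h2 : 2 * ((Fintype.card G : ℝ) * 2) = 4 * (Fintype.card G : ℝ) := by ring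
      rw [h2]
      exact h)
  refine ⟨ω, fun F H hF hH => ?_⟩
  obtain ⟨μ, hμ⟩ : ∃ μ : G → ℝ, μ = fun s => (1 / (N : ℝ)) * ∑ j,
      ((if P j (ω j) = s then (1 : ℝ) else 0) -
        (1 / (Fintype.card ι : ℝ)) * ∑ w, if P j w = s then (1 : ℝ) else 0) := ⟨_, rfl⟩
  have hμs : ∀ f : G → ℝ, ∑ s, μ s * f s =
      (∑ j, f (P j (ω j))) / N - (∑ j, ∑ w, f (P j w)) / (N * Fintype.card ι) := by
    intro f
    rw [hμ]
    exact ch_sum P ω f
  have hpar := parseval_bound μ F H (η := 4 * η) (fun ψ => ?_) hF hH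
  · have h1 : ∀ z, ∑ s, μ s * F z * H (z + s) = F z * ((∑ j, H (z + P j (ω j))) / N -
        (∑ j, ∑ w, H (z + P j w)) / (N * Fintype.card ι)) := by
      intro z
      rw [← hμs fun s => H (z + s), Finset.mul_sum]
      refine Finset.sum_congr rfl fun s _ => ?_
      ring
    simp only [h1] at hpar
    exact hpar
  · have h1 : ∀ b, |∑ s, μ s * p (ψ, b) s| ≤ 2 * η := by
      intro b
      rw [hμs]
      exact ch_bd hN (fun j w => p (ψ, b) (P j w)) ω (hω (ψ, b))
    have hre : (∑ s, (μ s : ℂ) * ψ s).re = ∑ s, μ s * p (ψ, true) s := by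
      rw [Complex.re_sum]
      refine Finset.sum_congr rfl fun s _ => ?_
      rw [hp, Complex.re_ofReal_mul]
      rfl
    have him : (∑ s, (μ s : ℂ) * ψ s).im = ∑ s, μ s * p (ψ, false) s := by
      rw [Complex.im_sum]
      refine Finset.sum_congr rfl fun s _ => ?_
      rw [hp, Complex.im_ofReal_mul]
      rfl
    refine (Complex.norm_le_abs_re_add_abs_im _).trans ?_
    rw [hre, him]
    linarith [h1 true, h1 false]

end Pool.Agent.DNB
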