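import Pool.Agent.DNB.Defs

/-!
# The thickened arc average against the lattice average

The integral over the arc is compared with a sum over the columns of the lattice.
-/

open Set MeasureTheory Filter Topology Metric
open Pool.Agent.Helper2.LM Pool.Agent.AEP Pool.Agent.H99N

namespace Pool.Agent.DNB

private theorem cm_int {φ : ℤ → ℝ} {B : ℝ} (h : ∀ z, |φ z| ≤ B) (a b : ℝ) :
    IntervalIntegrable (fun τ : ℝ => φ ⌊τ⌋) volume a b := by
  have hm : Measurable fun τ : ℝ => φ ⌊τ⌋ := (Measurable.of_discrete (f := φ)).comp Int.measurable_floor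
  refine (intervalIntegrable_const (c := B)).mono_fun' hm.aestronglyMeasurable ?_
  exact Filter.Eventually.of_forall fun x => h _

private theorem cm_piece (φ : ℤ → ℝ) (c : ℤ) : ∫ τ in (c : ℝ)..(c : ℝ) + 1, φ ⌊τ⌋ = φ c := by
  have h : ∫ τ in (c : ℝ)..(c : ℝ) + 1, φ ⌊τ⌋ = ∫ τ in (c : ℝ)..(c : ℝ) + 1, φ c := by
    refine intervalIntegral.integral_congr_ae ?_
    have h1 : ∀ᵐ x : ℝ, x ∉ ({(c : ℝ) + 1} : Set ℝ) :=
      (Set.countable_singleton ((c : ℝ) + 1)).ae_notMem volume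
    filter_upwards [h1] with x hx hx'
    rw [uIoc_of_le (by linarith)] at hx'
    have h2 : ⌊x⌋ = c := by
      rw [Int.floor_eq_iff]
      exact ⟨hx'.1.le, lt_of_le_of_ne hx'.2 hx⟩
    rw [h2]
  rw [h, intervalIntegral.integral_const]
  simp

private theorem cm_sum {φ : ℤ → ℝ} {B : ℝ} (h : ∀ z, |φ z| ≤ B) (c : ℤ) (M : ℕ) :
    ∫ τ in (c : ℝ)..(c : ℝ) + M, φ ⌊τ⌋ = ∑ k ∈ Finset.range M, φ (c + k) := by
  induction M with
  | zero => simp
  | succ M ih =>
    rw [Finset.sum_range_succ, ← ih]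
    have h1 : ∫ τ in (c : ℝ)..(c : ℝ) + (M + 1 : ℕ), φ ⌊τ⌋ =
        (∫ τ in (c : ℝ)..(c : ℝ) + M, φ ⌊τ⌋) + ∫ τ in (c : ℝ) + M..(c : ℝ) + (M + 1 : ℕ), φ ⌊τ⌋ :=
      (intervalIntegral.integral_add_adjacent_intervals (cm_int h _ _) (cm_int h _ _)).symm
    rw [h1]
    have h2 := cm_piece φ (c + M)
    have h3 : ((c + M : ℤ) : ℝ) = (c : ℝ) + M := by push_cast; ring
    have h4 : (c : ℝ) + (M + 1 : ℕ) = (c : ℝ) + M + 1 := by push_cast; ring
    rw [h3] at h2
    rw [h4, h2]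

private theorem cm_bd {φ : ℤ → ℝ} (h : ∀ z, 0 ≤ φ z ∧ φ z ≤ 1) {a b : ℝ} (hab : a ≤ b) :
    0 ≤ ∫ τ in a..b, φ ⌊τ⌋ ∧ ∫ τ in a..b, φ ⌊τ⌋ ≤ b - a := by
  have h' : ∀ z, |φ z| ≤ 1 := fun z => by rw [abs_of_nonneg (h z).1]; exact (h z).2
  refine ⟨intervalIntegral.integral_nonneg hab fun u _ => (h _).1, ?_⟩
  have h1 : ∫ τ in a..b, φ ⌊τ⌋ ≤ ∫ τ in a..b, (1 : ℝ) :=
    intervalIntegral.integral_mono_on hab (cm_int h' a b) intervalIntegrable_const fun u _ => (h _).2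
  rw [intervalIntegral.integral_const, smul_eq_mul, mul_one] at h1
  exact h1

private theorem cm_shift {φ : ℤ → ℝ} (h : ∀ z, 0 ≤ φ z ∧ φ z ≤ 1) (a : ℝ) (b : ℤ) (K : ℕ) :
    ∫ τ in a..a + K, φ ⌊τ⌋ ≤ ∑ k ∈ Finset.range K, φ (b + k) + |a - b| := by
  have h' : ∀ z, |φ z| ≤ 1 := fun z => by rw [abs_of_nonneg (h z).1]; exact (h z).2
  have hi := fun x y : ℝ => cm_int h' x y
  have e : ∫ τ in a..a + K, φ ⌊τ⌋ = (∫ τ in a..(b : ℝ), φ ⌊τ⌋) +
      (∫ τ in (b : ℝ)..(b : ℝ) + K, φ ⌊τ⌋) + ∫ τ in (b : ℝ) + K..a + K, φ ⌊τ⌋ := by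
    rw [intervalIntegral.integral_add_adjacent_intervals (hi _ _) (hi _ _),
      intervalIntegral.integral_add_adjacent_intervals (hi _ _) (hi _ _)]
  rw [e, cm_sum h']
  rcases le_total a b with hab | hab
  · have h1 := (cm_bd h hab).2
    have h2 := (cm_bd h (show a + K ≤ (b : ℝ) + K by linarith)).1
    rw [intervalIntegral.integral_symm (a + K) ((b : ℝ) + K), abs_of_nonpos (by linarith)]
    linarith
  · have h1 := (cm_bd h hab).1
    have h2 := (cm_bd h (show (b : ℝ) + K ≤ a + K by linarith)).2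
    rw [intervalIntegral.integral_symm (b : ℝ) a, abs_of_nonneg (by linarith)]
    linarith

/-- the inner average as an integral over an interval of length `K` -/
private theorem cm_inner (H : ℤ × ℤ → ℝ) (g : ℝ → ℝ) {n K : ℕ} (hn : 0 < n) (hK : 0 < K)
    (y : ℝ × ℝ) (t : ℝ) :
    (1 / ((K : ℝ) / n)) * ∫ κ in (0 : ℝ)..(K / n), H (cell n (y + (t, g t + κ))) =
      (1 / K) * ∫ τ in ((n : ℝ) * y.2 + n * g t)..((n : ℝ) * y.2 + n * g t) + K,
        H (⌊(n : ℝ) * y.1 + n * t⌋, ⌊τ⌋) := by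
  have hn' : (n : ℝ) ≠ 0 := by exact_mod_cast hn.ne'
  have hK' : (K : ℝ) ≠ 0 := by exact_mod_cast hK.ne'
  have h1 : ∀ κ : ℝ, H (cell n (y + (t, g t + κ))) =
      (fun τ : ℝ => H (⌊(n : ℝ) * y.1 + n * t⌋, ⌊τ⌋)) (((n : ℝ) * y.2 + n * g t) + n * κ) := by
    intro κ
    unfold cell
    have e1 : (n : ℝ) * (y + (t, g t + κ)).1 = (n : ℝ) * y.1 + n * t := by
      rw [Prod.fst_add]; ring
    have e2 : (n : ℝ) * (y + (t, g t + κ)).2 = ((n : ℝ) * y.2 + n * g t) + n * κ := by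
      rw [Prod.snd_add]; ring
    rw [e1, e2]
  simp_rw [h1]
  rw [intervalIntegral.integral_comp_add_mul (fun τ : ℝ => H (⌊(n : ℝ) * y.1 + n * t⌋, ⌊τ⌋)) hn']
  have e3 : (n : ℝ) * y.2 + n * g t + n * 0 = (n : ℝ) * y.2 + n * g t := by ring
  have e4 : (n : ℝ) * y.2 + n * g t + n * (K / n) = (n : ℝ) * y.2 + n * g t + K := by
    field_simp
  rw [e3, e4, smul_eq_mul, ← mul_assoc]
  congr 1
  field_simp

private theorem cm_outer {φ : ℤ → ℝ} {B : ℝ} (h0 : ∀ z, 0 ≤ φ z) (h : ∀ z, |φ z| ≤ B) {n : ℕ}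
    (hn : 0 < n) {α β : ℝ} (hαβ : α ≤ β) (x : ℝ) :
    IntervalIntegrable (fun t : ℝ => φ ⌊x + n * t⌋) volume α β ∧
    ∃ (c : ℤ) (M : ℕ), c = ⌊x + n * α⌋ ∧ c + M = ⌊x + n * β⌋ + 1 ∧
      ∫ t in α..β, φ ⌊x + n * t⌋ ≤ (∑ k ∈ Finset.range M, φ (c + k)) / n := by
  have hn' : (0 : ℝ) < n := by exact_mod_cast hn
  constructor
  · have hm : Measurable fun t : ℝ => φ ⌊x + n * t⌋ :=
      (Measurable.of_discrete (f := φ)).comp (Int.measurable_floor.comp (by fun_prop))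
    refine (intervalIntegrable_const (c := B)).mono_fun' hm.aestronglyMeasurable ?_
    exact Filter.Eventually.of_forall fun x => h _
  have hle : x + n * α ≤ x + n * β := by
    have := mul_le_mul_of_nonneg_left hαβ hn'.le
    linarith
  have hfl := Int.floor_le_floor hle
  refine ⟨⌊x + n * α⌋, (⌊x + n * β⌋ + 1 - ⌊x + n * α⌋).toNat, rfl, by omega, ?_⟩
  rw [intervalIntegral.integral_comp_add_mul (fun τ : ℝ => φ ⌊τ⌋) hn'.ne', smul_eq_mul,
    inv_mul_eq_div]
  refine div_le_div_of_nonneg_right ?_ hn'.le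
  rw [← cm_sum h]
  have e1 : ((⌊x + n * α⌋ : ℤ) : ℝ) + ((⌊x + n * β⌋ + 1 - ⌊x + n * α⌋).toNat : ℕ) =
      (⌊x + n * β⌋ : ℤ) + 1 := by
    have h1 : ((⌊x + n * β⌋ + 1 - ⌊x + n * α⌋).toNat : ℤ) = ⌊x + n * β⌋ + 1 - ⌊x + n * α⌋ :=
      Int.toNat_of_nonneg (by omega)
    have h2 : (((⌊x + n * β⌋ + 1 - ⌊x + n * α⌋).toNat : ℤ) : ℝ) =
        ((⌊x + n * β⌋ + 1 - ⌊x + n * α⌋ : ℤ) : ℝ) := by rw [h1]
    push_cast at h2
    rw [h2]
    ring
  rw [e1]
  refine intervalIntegral.integral_mono_interval (Int.floor_le _) hle (Int.lt_floor_add_one _).le ?_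
    (cm_int h _ _)
  exact Filter.Eventually.of_forall fun τ => h0 _

private theorem cm_inj {L G : ℕ} {a b : ℤ} {p q : ℕ × ℕ} (hp : p.2 < L) (hq : q.2 < L)
    (h : a + (b + p.1 * (L + G) + p.2) = a + (b + q.1 * (L + G) + q.2)) : p = q := by
  have h1 : p.1 * (L + G) + p.2 = q.1 * (L + G) + q.2 := by
    have h2 : (p.1 : ℤ) * (L + G) + p.2 = q.1 * (L + G) + q.2 := by linarith
    exact_mod_cast h2
  have hL : 0 < L + G := by omega
  have e1 : (p.1 * (L + G) + p.2) / (L + G) = p.1 := by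
    rw [Nat.mul_comm, Nat.mul_add_div hL, Nat.div_eq_of_lt (by omega), add_zero]
  have e2 : (q.1 * (L + G) + q.2) / (L + G) = q.1 := by
    rw [Nat.mul_comm, Nat.mul_add_div hL, Nat.div_eq_of_lt (by omega), add_zero]
  have e3 : p.1 = q.1 := by rw [← e1, h1, e2]
  rw [e3] at h1
  exact Prod.ext e3 (by omega)

theorem cmp {H : ℤ × ℤ → ℝ} (h0 : ∀ z, 0 ≤ H z ∧ H z ≤ 1) {g : ℝ → ℝ} (hgm : Measurable g)
    {α β Λ : ℝ} (hαβ : α ≤ β) (hΛ : 0 ≤ Λ)
    (hg : ∀ s ∈ Icc α β, ∀ t ∈ Icc α β, |g s - g t| ≤ Λ * |s - t|)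
    {n N L G K A : ℕ} (hn : 0 < n) (hK : 0 < K) (hA : α * n ≤ A)
    (hB : (A : ℝ) + N * (L + G) ≤ β * n) (y : ℝ × ℝ) :
    Tr g α β (K / n) (fun x => H (cell n x)) y ≤
      (∑ j ∈ Finset.range N, ∑ l ∈ Finset.range L, ∑ k ∈ Finset.range K,
        H (cell n y + pt g n (A + j * (L + G) + l) k)) / (n * K) +
      (β - α) * (2 + Λ) / K + ((β - α) * n + 2 - N * L) / n := by
  have _ := hgm
  have hn' : (0 : ℝ) < n := by exact_mod_cast hn
  have hK' : (0 : ℝ) < K := by exact_mod_cast hK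
  have hNL : (N : ℝ) * L ≤ (β - α) * n := by
    have h1 : (N : ℝ) * L ≤ N * (L + G) := by
      have : (0 : ℝ) ≤ (N : ℝ) * G := by positivity
      linarith
    linarith
  set z₁ : ℤ := ⌊(n : ℝ) * y.1⌋ with hz₁
  set z₂ : ℤ := ⌊(n : ℝ) * y.2⌋ with hz₂
  set e : ℝ := (2 + Λ) / K with he
  have he0 : 0 ≤ e := by positivity
  set ψ : ℤ → ℝ := fun w => (∑ k ∈ Finset.range K,
    H (w, z₂ + (⌊(n : ℝ) * g (((w - z₁ : ℤ) : ℝ) / n)⌋ + (k : ℤ)))) / K with hψ
  have hψ0 : ∀ w, 0 ≤ ψ w := fun w => div_nonneg (Finset.sum_nonneg fun k _ => (h0 _).1) hK'.le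
  have hψ1 : ∀ w, ψ w ≤ 1 := by
    intro w
    rw [hψ]
    beta_reduce
    rw [div_le_one hK']
    refine (Finset.sum_le_sum fun k _ => (h0 _).2).trans ?_
    rw [Finset.sum_const, Finset.card_range, nsmul_eq_mul, mul_one]
  set V : Finset ℤ := (Finset.range N ×ˢ Finset.range L).image
    fun p : ℕ × ℕ => z₁ + ((A : ℤ) + p.1 * (L + G) + p.2) with hV
  set Φ : ℤ → ℝ := fun w => if w ∈ V then ψ w + e else 1 with hΦ
  have hΦ0 : ∀ w, 0 ≤ Φ w := by
    intro w
    rw [hΦ]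
    beta_reduce
    split_ifs
    · exact add_nonneg (hψ0 w) he0
    · exact zero_le_one
  have hΦ1 : ∀ w, |Φ w| ≤ 1 + e := by
    intro w
    rw [abs_of_nonneg (hΦ0 w), hΦ]
    beta_reduce
    split_ifs
    · exact add_le_add_left (hψ1 w) e
    · linarith
  -- pointwise bound of the inner average
  have hpt : ∀ t ∈ Icc α β, (1 / ((K : ℝ) / n)) * ∫ κ in (0 : ℝ)..(K / n), H (cell n (y + (t, g t + κ))) ≤
      Φ ⌊(n : ℝ) * y.1 + n * t⌋ := by
    intro t ht
    rw [cm_inner H g hn hK y t]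
    set w : ℤ := ⌊(n : ℝ) * y.1 + n * t⌋ with hw
    have hφ : ∀ z : ℤ, 0 ≤ (fun z : ℤ => H (w, z)) z ∧ (fun z : ℤ => H (w, z)) z ≤ 1 := fun z => h0 _
    rw [hΦ]
    beta_reduce
    split_ifs with hwV
    · obtain ⟨p, hp, hpw⟩ := Finset.mem_image.1 hwV
      rw [Finset.mem_product, Finset.mem_range, Finset.mem_range] at hp
      set u : ℕ := A + p.1 * (L + G) + p.2 with hu
      have hwu : w = z₁ + (u : ℤ) := by
        rw [← hpw, hu]
        push_cast
        ring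
      have hs := cm_shift hφ ((n : ℝ) * y.2 + n * g t) (z₂ + ⌊(n : ℝ) * g (((w - z₁ : ℤ) : ℝ) / n)⌋) K
      have hcast : ((w - z₁ : ℤ) : ℝ) = u := by
        rw [hwu, add_sub_cancel_left]
        simp
      have hu1 : α * n ≤ u := by
        refine hA.trans ?_
        rw [hu]
        exact_mod_cast (by omega : A ≤ A + p.1 * (L + G) + p.2)
      have hu2 : (u : ℝ) ≤ β * n := by
        refine le_trans ?_ hB
        have h1 : A + p.1 * (L + G) + p.2 ≤ A + N * (L + G) := by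
          have h2 : (p.1 + 1) * (L + G) ≤ N * (L + G) := Nat.mul_le_mul_right _ hp.1
          have h3 : (p.1 + 1) * (L + G) = p.1 * (L + G) + (L + G) := by ring
          omega
        rw [hu]
        exact_mod_cast h1
      have hs1 : (u : ℝ) / n ∈ Icc α β := ⟨(le_div_iff₀ hn').2 hu1, (div_le_iff₀ hn').2 hu2⟩
      have f1 := Int.floor_le ((n : ℝ) * y.1)
      have f2 := Int.lt_floor_add_one ((n : ℝ) * y.1)
      have f3 := Int.floor_le ((n : ℝ) * y.1 + n * t)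
      have f4 := Int.lt_floor_add_one ((n : ℝ) * y.1 + n * t)
      rw [← hw, hwu] at f3 f4
      rw [← hz₁] at f1 f2
      push_cast at f3 f4
      have hd : |n * t - u| ≤ 1 := abs_le.2 ⟨by linarith, by linarith⟩
      have hd' : |t - u / n| ≤ 1 / n := by
        have h1 : t - u / n = (n * t - u) / n := by field_simp
        rw [h1, abs_div, abs_of_pos hn']
        exact div_le_div_of_nonneg_right hd hn'.le
      have hg' : |(n : ℝ) * g t - n * g (u / n)| ≤ Λ := by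
        rw [← mul_sub, abs_mul, abs_of_pos hn']
        have h1 := (hg t ht _ hs1).trans (mul_le_mul_of_nonneg_left hd' hΛ)
        calc (n : ℝ) * |g t - g (u / n)| ≤ n * (Λ * (1 / n)) := mul_le_mul_of_nonneg_left h1 hn'.le
          _ = Λ := by field_simp
      have f5 := Int.floor_le ((n : ℝ) * y.2)
      have f6 := Int.lt_floor_add_one ((n : ℝ) * y.2)
      rw [← hz₂] at f5 f6
      have f7 := Int.floor_le ((n : ℝ) * g (u / n))
      have f8 := Int.lt_floor_add_one ((n : ℝ) * g (u / n))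
      have hg'' := abs_le.1 hg'
      have habs : |((n : ℝ) * y.2 + n * g t) - ((z₂ + ⌊(n : ℝ) * g (((w - z₁ : ℤ) : ℝ) / n)⌋ : ℤ) : ℝ)| ≤ 2 + Λ := by
        rw [hcast]
        push_cast
        refine abs_le.2 ⟨?_, ?_⟩ <;> linarith [hg''.1, hg''.2]
      have hsum : ∑ k ∈ Finset.range K, (fun z : ℤ => H (w, z))
          (z₂ + ⌊(n : ℝ) * g (((w - z₁ : ℤ) : ℝ) / n)⌋ + k) = K * ψ w := by
        rw [hψ]
        beta_reduce
        rw [mul_div_cancel₀ _ hK'.ne']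
        refine Finset.sum_congr rfl fun k _ => ?_
        rw [add_assoc]
      rw [hsum] at hs
      have h2 := mul_le_mul_of_nonneg_left (hs.trans (add_le_add_right habs _)) (one_div_nonneg.2 hK'.le)
      refine h2.trans (le_of_eq ?_)
      rw [he]
      field_simp
    · have h1 := (cm_bd hφ (show (n : ℝ) * y.2 + n * g t ≤ (n : ℝ) * y.2 + n * g t + K by linarith)).2
      have h2 := mul_le_mul_of_nonneg_left h1 (one_div_nonneg.2 hK'.le)
      refine h2.trans (le_of_eq ?_)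
      rw [add_sub_cancel_left, one_div_mul_cancel hK'.ne']
  -- the right side
  obtain ⟨hint, c, M, hc, hM, hout⟩ := cm_outer hΦ0 hΦ1 hn hαβ ((n : ℝ) * y.1)
  set U : Finset ℤ := (Finset.range M).image fun k : ℕ => c + (k : ℤ) with hU
  have hUinj : Set.InjOn (fun k : ℕ => c + (k : ℤ)) (Finset.range M) := by
    intro a _ b _ hab
    have : c + (a : ℤ) = c + (b : ℤ) := hab
    omega
  have hUcard : U.card = M := by
    rw [hU, Finset.card_image_of_injOn hUinj, Finset.card_range]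
  have hVinj : Set.InjOn (fun p : ℕ × ℕ => z₁ + ((A : ℤ) + p.1 * (L + G) + p.2))
      (Finset.range N ×ˢ Finset.range L : Finset (ℕ × ℕ)) := by
    intro p hp q hq hpq
    rw [Finset.mem_coe, Finset.mem_product, Finset.mem_range, Finset.mem_range] at hp hq
    exact cm_inj hp.2 hq.2 hpq
  have hVcard : V.card = N * L := by
    rw [hV, Finset.card_image_of_injOn hVinj, Finset.card_product, Finset.card_range, Finset.card_range]
  have f1 := Int.floor_le ((n : ℝ) * y.1)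
  have f2 := Int.lt_floor_add_one ((n : ℝ) * y.1)
  rw [← hz₁] at f1 f2
  have hVU : V ⊆ U := by
    intro w hw
    obtain ⟨p, hp, rfl⟩ := Finset.mem_image.1 hw
    rw [Finset.mem_product, Finset.mem_range, Finset.mem_range] at hp
    have k1 : c ≤ z₁ + (A : ℤ) := by
      rw [hc, ← Int.lt_add_one_iff, Int.floor_lt]
      push_cast
      linarith
    have k2 : z₁ + ((A : ℤ) + p.1 * (L + G) + p.2) ≤ ⌊(n : ℝ) * y.1 + n * β⌋ := by
      rw [Int.le_floor]
      have h1 : A + p.1 * (L + G) + p.2 ≤ A + N * (L + G) := by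
        have h2 : (p.1 + 1) * (L + G) ≤ N * (L + G) := Nat.mul_le_mul_right _ hp.1
        have h3 : (p.1 + 1) * (L + G) = p.1 * (L + G) + (L + G) := by ring
        omega
      have h2 : (A : ℝ) + p.1 * (L + G) + p.2 ≤ A + N * (L + G) := by exact_mod_cast h1
      push_cast
      linarith
    rw [hU, Finset.mem_image]
    have k3 : (0 : ℤ) ≤ (p.1 : ℤ) * (L + G) + p.2 := by positivity
    refine ⟨(z₁ + ((A : ℤ) + p.1 * (L + G) + p.2) - c).toNat, ?_, ?_⟩
    · rw [Finset.mem_range]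
      omega
    · rw [Int.toNat_of_nonneg (by omega)]
      ring
  have hMr : (M : ℝ) ≤ (β - α) * n + 2 := by
    have k1 := Int.floor_le ((n : ℝ) * y.1 + n * β)
    have k2 := Int.lt_floor_add_one ((n : ℝ) * y.1 + n * α)
    rw [← hc] at k2
    have k3 : (c : ℝ) + M = (⌊(n : ℝ) * y.1 + n * β⌋ : ℤ) + 1 := by exact_mod_cast hM
    linarith
  have hsumU : ∑ k ∈ Finset.range M, Φ (c + k) = ∑ w ∈ U, Φ w := by
    rw [hU, Finset.sum_image hUinj]
  have hsplit : ∑ w ∈ U, Φ w = ∑ w ∈ V, (ψ w + e) + ((M : ℝ) - N * L) := by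
    rw [← Finset.sum_sdiff hVU, add_comm]
    congr 1
    · refine Finset.sum_congr rfl fun w hw => ?_
      rw [hΦ]
      beta_reduce
      rw [if_pos hw]
    · have k1 : ∀ w ∈ U \ V, Φ w = 1 := by
        intro w hw
        rw [hΦ]
        beta_reduce
        rw [if_neg (Finset.mem_sdiff.1 hw).2]
      rw [Finset.sum_congr rfl k1, Finset.sum_const, nsmul_eq_mul, mul_one,
        Finset.card_sdiff_of_subset hVU, hUcard, hVcard, Nat.cast_sub, Nat.cast_mul]
      rw [← hUcard, ← hVcard]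
      exact Finset.card_le_card hVU
  have hsumV : ∑ w ∈ V, (ψ w + e) = (∑ j ∈ Finset.range N, ∑ l ∈ Finset.range L, ∑ k ∈ Finset.range K,
      H (cell n y + pt g n (A + j * (L + G) + l) k)) / K + N * L * e := by
    rw [Finset.sum_add_distrib, Finset.sum_const, hVcard, nsmul_eq_mul, Nat.cast_mul]
    congr 1
    rw [hV, Finset.sum_image hVinj, Finset.sum_product, Finset.sum_div]
    refine Finset.sum_congr rfl fun j _ => ?_
    rw [Finset.sum_div]
    refine Finset.sum_congr rfl fun l _ => ?_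
    rw [hψ]
    beta_reduce
    congr 1
    refine Finset.sum_congr rfl fun k _ => ?_
    unfold cell pt
    rw [Prod.mk_add_mk]
    have k1 : z₁ + ((A : ℤ) + (j : ℤ) * (L + G) + l) - z₁ = ((A + j * (L + G) + l : ℕ) : ℤ) := by
      push_cast
      ring
    rw [k1, Int.cast_natCast, ← hz₁, ← hz₂]
    congr 2
  have hRHS : (∑ k ∈ Finset.range M, Φ (c + k)) / n ≤
      (∑ j ∈ Finset.range N, ∑ l ∈ Finset.range L, ∑ k ∈ Finset.range K,
        H (cell n y + pt g n (A + j * (L + G) + l) k)) / (n * K) +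
      (β - α) * (2 + Λ) / K + ((β - α) * n + 2 - N * L) / n := by
    rw [hsumU, hsplit, hsumV]
    generalize (∑ j ∈ Finset.range N, ∑ l ∈ Finset.range L, ∑ k ∈ Finset.range K,
      H (cell n y + pt g n (A + j * (L + G) + l) k)) = SS
    have k1 : (N : ℝ) * L * e ≤ (β - α) * n * e := mul_le_mul_of_nonneg_right hNL he0
    have k2 : (SS / K + N * L * e + ((M : ℝ) - N * L)) / n ≤
        (SS / K + (β - α) * n * e + ((β - α) * n + 2 - N * L)) / n :=
      div_le_div_of_nonneg_right (by linarith) hn'.le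
    refine k2.trans (le_of_eq ?_)
    rw [he]
    field_simp
  have hnn : 0 ≤ (∑ k ∈ Finset.range M, Φ (c + k)) / n :=
    div_nonneg (Finset.sum_nonneg fun k _ => hΦ0 _) hn'.le
  refine le_trans ?_ hRHS
  unfold Tr
  by_cases hI : IntervalIntegrable (fun t => (1 / ((K : ℝ) / n)) *
      ∫ κ in (0 : ℝ)..(K / n), H (cell n (y + (t, g t + κ)))) volume α β
  · exact (intervalIntegral.integral_mono_on hαβ hI hint hpt).trans hout
  · rw [intervalIntegral.integral_undef hI]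
    exact hnn

end Pool.Agent.DNB
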