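import Pool.Agent.DNB.Defs

/-!
# Compactness over the rational plane

Proof. As `Pool.Agent.AEP.finite_of`, with the compact space `ℚ × ℚ → Fin 4`.
-/

open Set MeasureTheory Filter Topology Metric
open Pool.Agent.Helper2.LM Pool.Agent.AEP Pool.Agent.H99N

namespace Pool.Agent.DNB

/-- the extension of a colouring of the rational points -/
private noncomputable def cpE (κ : ℚ × ℚ → Fin 4) (x : ℝ × ℝ) : Fin 4 := by
  classical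
  exact if H : ∃ q : ℚ × ℚ, x = ((q.1 : ℝ), (q.2 : ℝ)) then κ H.choose else 0

private theorem cpE_eq (κ : ℚ × ℚ → Fin 4) (q : ℚ × ℚ) : cpE κ ((q.1 : ℝ), (q.2 : ℝ)) = κ q := by
  classical
  have H : ∃ q' : ℚ × ℚ, ((q.1 : ℝ), (q.2 : ℝ)) = ((q'.1 : ℝ), (q'.2 : ℝ)) := ⟨q, rfl⟩
  have h1 : cpE κ ((q.1 : ℝ), (q.2 : ℝ)) = κ H.choose := by
    unfold cpE
    exact dif_pos H
  rw [h1]
  have h2 := H.choose_spec
  rw [Prod.mk.injEq] at h2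
  have h3 : H.choose = q := Prod.ext (Rat.cast_injective h2.1.symm) (Rat.cast_injective h2.2.symm)
  rw [h3]

theorem finite_of_Q2 {Nm : Seminorm ℝ (ℝ × ℝ)}
    (h : ∀ κ : ℝ × ℝ → Fin 4, ∃ x ∈ Q2, ∃ y ∈ Q2, κ x = κ y ∧ Nm (x - y) = 1) :
    ∃ X : Finset (ℚ × ℚ), ∀ κ : ℚ × ℚ → Fin 4, ∃ x ∈ X, ∃ y ∈ X, κ x = κ y ∧
      Nm ((x.1 : ℝ) - y.1, (x.2 : ℝ) - y.2) = 1 := by
  classical
  have h' : ∀ κ : ℚ × ℚ → Fin 4, ∃ x y : ℚ × ℚ, κ x = κ y ∧ Nm ((x.1 : ℝ) - y.1, (x.2 : ℝ) - y.2) = 1 := by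
    intro κ
    obtain ⟨x, ⟨q, hq⟩, y, ⟨q', hq'⟩, h1, h2⟩ := h (cpE κ)
    rw [hq, hq', cpE_eq, cpE_eq] at h1
    rw [hq, hq', Prod.mk_sub_mk] at h2
    exact ⟨q, q', h1, h2⟩
  have hopen : ∀ z : {z : (ℚ × ℚ) × (ℚ × ℚ) // Nm ((z.1.1 : ℝ) - z.2.1, (z.1.2 : ℝ) - z.2.2) = 1},
      IsOpen {κ : ℚ × ℚ → Fin 4 | κ z.1.1 = κ z.1.2} := by
    intro z
    have h1 : Continuous fun κ : ℚ × ℚ → Fin 4 => (κ z.1.1, κ z.1.2) :=
      (continuous_apply _).prodMk (continuous_apply _)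
    exact (isOpen_discrete {q : Fin 4 × Fin 4 | q.1 = q.2}).preimage h1
  obtain ⟨t, ht⟩ := (isCompact_univ (X := ℚ × ℚ → Fin 4)).elim_finite_subcover _ hopen (by
    intro κ _
    obtain ⟨x, y, hxy, h1⟩ := h' κ
    exact mem_iUnion.2 ⟨⟨(x, y), h1⟩, hxy⟩)
  refine ⟨(t.image fun z => z.1.1) ∪ (t.image fun z => z.1.2), ?_⟩
  intro κ
  have h1 := ht (mem_univ κ)
  simp only [mem_iUnion] at h1
  obtain ⟨z, hz, hκ⟩ := h1
  refine ⟨z.1.1, ?_, z.1.2, ?_, hκ, z.2⟩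
  · exact Finset.mem_union_left _ (Finset.mem_image_of_mem (fun z => z.1.1) hz)
  · exact Finset.mem_union_right _ (Finset.mem_image_of_mem (fun z => z.1.2) hz)

end Pool.Agent.DNB
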