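import Pool.Agent.AEP.Defs
import Pool.Agent.H99N.Defs

/-!
# Norms near the `l_p` norm whose plane needs five colours: definitions

`p > 1` is fixed. The base octant of the unit circle of the `l_p` norm is the graph of
`gp p x = (1 - x ^ p) ^ (1 / p)` over `(0, xs p)`, `xs p = (1 / 2) ^ (1 / p)`. The symmetries of the
square are `dm e`, `e : Bool × Bool × Bool`. Colourings are looked at on the centres `cen n z` of the
squares of side `1 / n`, `cell n y` is the square (an element of `ℤ × ℤ`) containing `y`.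
-/

open Set MeasureTheory Filter Topology Metric
open Pool.Agent.Helper2.LM Pool.Agent.AEP

namespace Pool.Agent.DNB

/-- the profile of the unit circle of the `l_p` norm -/
noncomputable def gp (p x : ℝ) : ℝ := (1 - x ^ p) ^ (1 / p)

/-- the coordinates of the point on the diagonal -/
noncomputable def xs (p : ℝ) : ℝ := (1 / 2) ^ (1 / p)

/-- symmetries of the square: exchange the coordinates, then change signs -/
def dm (e : Bool × Bool × Bool) (x : ℝ × ℝ) : ℝ × ℝ :=
  (if e.2.1 then -(if e.1 then x.2 else x.1) else (if e.1 then x.2 else x.1),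
    if e.2.2 then -(if e.1 then x.1 else x.2) else (if e.1 then x.1 else x.2))

/-- the square of side `1 / n` which contains `y` -/
noncomputable def cell (n : ℕ) (y : ℝ × ℝ) : ℤ × ℤ := (⌊(n : ℝ) * y.1⌋, ⌊(n : ℝ) * y.2⌋)

/-- the centre of the square `z` of side `1 / n` -/
noncomputable def cen (n : ℕ) (z : ℤ × ℤ) : ℝ × ℝ :=
  (((z.1 : ℝ) + 1 / 2) / n, ((z.2 : ℝ) + 1 / 2) / n)

/-- the vector `s / n` -/
noncomputable def sc (n : ℕ) (s : ℤ × ℤ) : ℝ × ℝ := ((s.1 : ℝ) / n, (s.2 : ℝ) / n)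

/-- lattice vectors near the graph of `g` (enlarged by the factor `n`) -/
noncomputable def pt (g : ℝ → ℝ) (n u k : ℕ) : ℤ × ℤ :=
  ((u : ℤ), ⌊(n : ℝ) * g ((u : ℝ) / n)⌋ + (k : ℤ))

/-- the average of `a` over the arc `t ↦ y + (t, g t)`, `α ≤ t ≤ β` -/
noncomputable def T1 (g : ℝ → ℝ) (α β : ℝ) (a : ℝ × ℝ → ℝ) (y : ℝ × ℝ) : ℝ :=
  ∫ t in α..β, a (y + (t, g t))

/-- the average of `a` over the arc, thickened in the vertical direction by `ρ` -/
noncomputable def Tr (g : ℝ → ℝ) (α β ρ : ℝ) (a : ℝ × ℝ → ℝ) (y : ℝ × ℝ) : ℝ :=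
  ∫ t in α..β, (1 / ρ) * ∫ κ in (0 : ℝ)..ρ, a (y + (t, g t + κ))

/-- the points with rational coordinates -/
def Q2 : Set (ℝ × ℝ) := {x | ∃ q : ℚ × ℚ, x = ((q.1 : ℝ), (q.2 : ℝ))}

/-- a strictly convex norm with the symmetries of the square, `ε`-close to the `l_p` norm -/
structure GN (p ε : ℝ) (N : Seminorm ℝ (ℝ × ℝ)) : Prop where
  ne : ∀ x, N x = 0 → x = 0
  strict : ∀ x y, N x = 1 → N y = 1 → x ≠ y → N (x + y) < 2
  sym : ∀ e x, N (dm e x) = N x
  near : ∀ x, |N x - (hp p x) ^ (1 / p)| ≤ ε * (hp p x) ^ (1 / p)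

/-- the functional `x ↦ D‖·‖(s) x / ‖s‖` for the `l_p` norm -/
noncomputable def ell (p : ℝ) (s x : ℝ × ℝ) : ℝ := (op p s.1 * x.1 + op p s.2 * x.2) / hp p s

/-- profiles: continuous on `[α, β]`, differentiable with strictly decreasing derivative -/
structure Pf (g g' : ℝ → ℝ) (α β : ℝ) : Prop where
  lt : α < β
  meas : Measurable g
  cont : ContinuousOn g (Icc α β)
  der : ∀ t ∈ Ioo α β, HasDerivAt g (g' t) t
  anti : StrictAntiOn g' (Ioo α β)

/-- the box of the `M ^ 2` lattice points with corner `c` -/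
noncomputable def box (c : ℤ × ℤ) (M : ℕ) : Finset (ℤ × ℤ) :=
  Finset.Ico c.1 (c.1 + M) ×ˢ Finset.Ico c.2 (c.2 + M)

end Pool.Agent.DNB
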