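import Pool.Agent.DNB.Sym

/-!
# Euclidean norms with prescribed tangent
-/

open Set MeasureTheory Filter Topology Metric
open Pool.Agent.Helper2.LM Pool.Agent.AEP Pool.Agent.H99N

namespace Pool.Agent.DNB

private theorem op_mul_self {p : ℝ} (hp1 : 1 < p) (t : ℝ) : op p t * t = |t| ^ p := by
  unfold op
  by_cases ht : t = 0
  · rw [ht, abs_zero, Real.zero_rpow (by linarith : p ≠ 0), mul_zero]
  · have h1 : 0 < |t| := abs_pos.2 ht
    have h2 : |t| ^ p = |t| ^ (p - 2) * |t| ^ (2 : ℕ) := by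
      rw [← Real.rpow_natCast, ← Real.rpow_add h1]
      congr 1
      push_cast
      ring
    rw [h2, sq_abs]
    ring

theorem hp_pos {p : ℝ} (hp1 : 1 < p) {s : ℝ × ℝ} (hs : s ≠ 0) : 0 < hp p s := by
  unfold hp
  have h : s.1 ≠ 0 ∨ s.2 ≠ 0 := by
    by_contra hc
    push Not at hc
    exact hs (Prod.ext hc.1 hc.2)
  rcases h with h | h
  · have h1 := Real.rpow_pos_of_pos (abs_pos.2 h) p
    have h2 := Real.rpow_nonneg (abs_nonneg s.2) p
    linarith
  · have h1 := Real.rpow_pos_of_pos (abs_pos.2 h) p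
    have h2 := Real.rpow_nonneg (abs_nonneg s.1) p
    linarith

theorem ell_self {p : ℝ} (hp1 : 1 < p) {s : ℝ × ℝ} (hs : s ≠ 0) : ell p s s = 1 := by
  unfold ell
  rw [op_mul_self hp1, op_mul_self hp1]
  exact div_self (hp_pos hp1 hs).ne'

theorem hp_dm (p : ℝ) (e : Bool × Bool × Bool) (x : ℝ × ℝ) : hp p (dm e x) = hp p x := by
  obtain ⟨e1, e2, e3⟩ := e
  unfold hp dm
  cases e1 <;> cases e2 <;> cases e3 <;> simp [add_comm]

private theorem op_neg' (p t : ℝ) : op p (-t) = -op p t := by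
  unfold op
  rw [abs_neg]
  ring

theorem ell_dm (p : ℝ) (e : Bool × Bool × Bool) (s x : ℝ × ℝ) :
    ell p (dm e s) (dm e x) = ell p s x := by
  unfold ell
  rw [hp_dm]
  congr 1
  obtain ⟨e1, e2, e3⟩ := e
  unfold dm
  cases e1 <;> cases e2 <;> cases e3 <;> simp [op_neg', add_comm]

theorem det2_dm (e : Bool × Bool × Bool) (s x : ℝ × ℝ) :
    (det2 (dm e s) (dm e x)) ^ 2 = (det2 s x) ^ 2 := by
  obtain ⟨e1, e2, e3⟩ := e
  unfold det2 dm
  cases e1 <;> cases e2 <;> cases e3 <;> simp <;> ring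

private theorem euc_inj {p : ℝ} (hp1 : 1 < p) {s z : ℝ × ℝ} (hs : s ≠ 0) (h1 : ell p s z = 0) (h2 : det2 s z = 0) :
    z = 0 := by
  have h0 := hp_pos hp1 hs
  unfold ell at h1
  have h3 : op p s.1 * z.1 + op p s.2 * z.2 = 0 := by
    rcases div_eq_zero_iff.1 h1 with h | h
    · exact h
    · exact absurd h h0.ne'
  unfold det2 at h2
  have e1 := op_mul_self hp1 s.1
  have e2 := op_mul_self hp1 s.2
  have h4 : hp p s * z.1 = 0 := by
    unfold hp
    rw [← e1, ← e2]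
    linear_combination s.1 * h3 - op p s.2 * h2
  have h5 : hp p s * z.2 = 0 := by
    unfold hp
    rw [← e1, ← e2]
    linear_combination s.2 * h3 + op p s.1 * h2
  refine Prod.ext ?_ ?_
  · exact (mul_eq_zero.1 h4).resolve_left h0.ne'
  · exact (mul_eq_zero.1 h5).resolve_left h0.ne'

theorem exists_euc {p : ℝ} (hp1 : 1 < p) {s : ℝ × ℝ} (hs : s ≠ 0) {θ : ℝ} (hθ : 0 < θ) :
    ∃ E : Seminorm ℝ (ℝ × ℝ), (∀ x, E x = √((ell p s x) ^ 2 + θ * (det2 s x) ^ 2)) ∧
      ∀ x y, E x ≤ 1 → E y ≤ 1 → x ≠ y → E (x + y) < 2 := by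
  have hq : √θ * √θ = θ := Real.mul_self_sqrt hθ.le
  have hadd : ∀ x y, ell p s (x + y) = ell p s x + ell p s y := by
    intro x y
    unfold ell
    rw [Prod.fst_add, Prod.snd_add]
    ring
  have hsub : ∀ x y, ell p s (x - y) = ell p s x - ell p s y := by
    intro x y
    unfold ell
    rw [Prod.fst_sub, Prod.snd_sub]
    ring
  have hsmul : ∀ (c : ℝ) x, ell p s (c • x) = c * ell p s x := by
    intro c x
    unfold ell
    rw [Prod.smul_fst, Prod.smul_snd, smul_eq_mul, smul_eq_mul]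
    ring
  have dadd : ∀ x y, det2 s (x + y) = det2 s x + det2 s y := by
    intro x y
    unfold det2
    rw [Prod.fst_add, Prod.snd_add]
    ring
  have dsub : ∀ x y, det2 s (x - y) = det2 s x - det2 s y := by
    intro x y
    unfold det2
    rw [Prod.fst_sub, Prod.snd_sub]
    ring
  have dsmul : ∀ (c : ℝ) x, det2 s (c • x) = c * det2 s x := by
    intro c x
    unfold det2
    rw [Prod.smul_fst, Prod.smul_snd, smul_eq_mul, smul_eq_mul]
    ring
  let L : (ℝ × ℝ) →ₗ[ℝ] ℂ :=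
    { toFun := fun x => ((ell p s x : ℝ) : ℂ) + ((√θ * det2 s x : ℝ) : ℂ) * Complex.I
      map_add' := fun x y => by
        rw [hadd, dadd]
        push_cast
        ring
      map_smul' := fun c x => by
        rw [hsmul, dsmul, RingHom.id_apply, Complex.real_smul]
        push_cast
        ring }
  have hE : ∀ x, (normSeminorm ℝ ℂ).comp L x = √((ell p s x) ^ 2 + θ * (det2 s x) ^ 2) := by
    intro x
    show ‖((ell p s x : ℝ) : ℂ) + ((√θ * det2 s x : ℝ) : ℂ) * Complex.I‖ = _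
    rw [Complex.norm_add_mul_I]
    congr 1
    rw [mul_pow, Real.sq_sqrt hθ.le]
  refine ⟨(normSeminorm ℝ ℂ).comp L, hE, ?_⟩
  intro x y hx hy hxy
  rw [hE] at hx hy ⊢
  by_contra hc
  push Not at hc
  have hx' : (ell p s x) ^ 2 + θ * (det2 s x) ^ 2 ≤ 1 := by
    have := Real.sqrt_le_one.1 hx
    exact this
  have hy' : (ell p s y) ^ 2 + θ * (det2 s y) ^ 2 ≤ 1 := Real.sqrt_le_one.1 hy
  have hc' : (4 : ℝ) ≤ (ell p s (x + y)) ^ 2 + θ * (det2 s (x + y)) ^ 2 := by
    have := (Real.le_sqrt' (by norm_num : (0 : ℝ) < 2)).1 hc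
    linarith
  rw [hadd, dadd] at hc'
  have h1 : (ell p s (x - y)) ^ 2 + θ * (det2 s (x - y)) ^ 2 ≤ 0 := by
    rw [hsub, dsub]
    nlinarith
  have h2 : 0 ≤ (ell p s (x - y)) ^ 2 := sq_nonneg _
  have h3 : 0 ≤ (det2 s (x - y)) ^ 2 := sq_nonneg _
  have h4 : 0 ≤ θ * (det2 s (x - y)) ^ 2 := mul_nonneg hθ.le h3
  have h5 : ell p s (x - y) = 0 := by
    have : (ell p s (x - y)) ^ 2 = 0 := by linarith
    exact pow_eq_zero_iff (two_ne_zero) |>.1 this
  have h6 : det2 s (x - y) = 0 := by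
    have : θ * (det2 s (x - y)) ^ 2 = 0 := by linarith
    rcases mul_eq_zero.1 this with h | h
    · exact absurd h hθ.ne'
    · exact pow_eq_zero_iff (two_ne_zero) |>.1 h
  exact hxy (sub_eq_zero.1 (euc_inj hp1 hs h5 h6))

end Pool.Agent.DNB
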