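import Pool.Agent.DNB.NC
import Pool.Agent.DNB.NE

/-!
# Convex position

Plan. Let `c₀` be the constant of `convex_ineq` for `α₀`, `c = c₀ * p / 4`. Let `w = dm e v`,
`w' = dm e' v'` and let `a`, `a'` be the vectors of the absolute values of their coordinates, so
`a ∈ {v, swap v}`, `a' ∈ {v', swap v'}` (all coordinates of `v`, `v'` are positive). `hp p w = a.1 ^ p
+ a.2 ^ p =: H` is within `τ` of `1`, the same for `w'`, `H'`. `|op p w.i| = a.i ^ (p - 1)`, so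
`|ell p w w'| ≤ (a.1 ^ (p - 1) * a'.1 + a.2 ^ (p - 1) * a'.2) / H`.
Case 1: `(a.1 - a'.1) ^ 2 + (a.2 - a'.2) ^ 2 ≥ γ ^ 2`. By `convex_ineq` the numerator is at most
`H + 2 * τ / p - c₀ * γ ^ 2 < H` because `2 * τ / p ≤ c₀ * γ ^ 2 / 2`. This is the case if
`a = v, a' = v', v ≠ v'` and if `a = swap v, a' = swap v', v ≠ v'` (`hsep`), and if exactly one of
them is swapped (`hoct`: `v'.2 - v.1 ≥ γ`, `v.2 - v'.1 ≥ γ`).
Case 2: `a = a'` (then `v = v'`). As `w' ≠ w`, `w' ≠ -w`, exactly one of the two coordinates has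
changed its sign, so `|ell p w w'| = |a.1 ^ p - a.2 ^ p| / H < 1` since `a.1, a.2 > 0`.
(`H > 0` since the coordinates are positive.) It may be convenient to reduce to `e = ` identity with
`ell_dm` and `dm_inv` (a composition of two symmetries is a symmetry).
-/

open Set MeasureTheory Filter Topology Metric
open Pool.Agent.Helper2.LM Pool.Agent.AEP Pool.Agent.H99N

namespace Pool.Agent.DNB

private noncomputable def psg (b : Bool) : ℝ := if b then -1 else 1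

private noncomputable def pav (e : Bool × Bool × Bool) (v : ℝ × ℝ) : ℝ × ℝ :=
  if e.1 then (v.2, v.1) else v

private theorem po_dm (e : Bool × Bool × Bool) (v : ℝ × ℝ) :
    dm e v = (psg e.2.1 * (pav e v).1, psg e.2.2 * (pav e v).2) := by
  obtain ⟨e1, e2, e3⟩ := e
  cases e1 <;> cases e2 <;> cases e3 <;> simp [dm, psg, pav]

private theorem po_abs (b : Bool) {x : ℝ} (hx : 0 < x) : |psg b * x| = x := by
  cases b
  · simp [psg, abs_of_pos hx]
  · simp [psg, abs_of_pos hx]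

private theorem po_op (p : ℝ) (b : Bool) {x : ℝ} (hx : 0 < x) :
    op p (psg b * x) = psg b * x ^ (p - 1) := by
  unfold op
  rw [po_abs b hx]
  have h : x ^ (p - 2) * x = x ^ (p - 1) := by
    rw [← Real.rpow_add_one hx.ne']
    congr 1
    ring
  rw [← h]
  ring

private theorem po_ell (p : ℝ) (e e' : Bool × Bool × Bool) (v v' : ℝ × ℝ)
    (h1 : 0 < (pav e v).1) (h2 : 0 < (pav e v).2) :
    ell p (dm e v) (dm e' v') =
      (psg e.2.1 * psg e'.2.1 * ((pav e v).1 ^ (p - 1) * (pav e' v').1) +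
        psg e.2.2 * psg e'.2.2 * ((pav e v).2 ^ (p - 1) * (pav e' v').2)) /
          ((pav e v).1 ^ p + (pav e v).2 ^ p) := by
  unfold ell hp
  rw [po_dm e v, po_dm e' v']
  show (op p (psg e.2.1 * (pav e v).1) * (psg e'.2.1 * (pav e' v').1) +
    op p (psg e.2.2 * (pav e v).2) * (psg e'.2.2 * (pav e' v').2)) /
    (|psg e.2.1 * (pav e v).1| ^ p + |psg e.2.2 * (pav e v).2| ^ p) = _
  rw [po_op p _ h1, po_op p _ h2, po_abs _ h1, po_abs _ h2]
  congr 1
  ring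

private theorem psg_abs (b : Bool) : |psg b| = 1 := by
  cases b <;> simp [psg]

theorem pos_ell {p : ℝ} (hp1 : 1 < p) {α₀ : ℝ} (h0 : 0 < α₀) : ∃ c : ℝ, 0 < c ∧
    ∀ (S : Finset (ℝ × ℝ)) (τ γ : ℝ), 0 < γ → τ ≤ c * γ ^ 2 →
      (∀ v ∈ S, α₀ ≤ v.1 ∧ v.2 ≤ 2 ∧ |v.1 ^ p + v.2 ^ p - 1| ≤ τ) →
      (∀ v ∈ S, ∀ v' ∈ S, v ≠ v' → γ ≤ |v.1 - v'.1|) →
      (∀ v ∈ S, ∀ v' ∈ S, v.1 + γ ≤ v'.2) →
      ∀ v ∈ S, ∀ v' ∈ S, ∀ e e', dm e' v' ≠ dm e v → dm e' v' ≠ -dm e v →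
        |ell p (dm e v) (dm e' v')| < 1 := by
  obtain ⟨c₀, hc₀, hconv⟩ := convex_ineq hp1 h0
  have hp0 : 0 < p := by linarith
  refine ⟨c₀ * p / 4, by positivity, ?_⟩
  intro S τ γ hγ hτ hS hsep hoct v hv v' hv' e e' hne1 hne2
  have hmem : ∀ u ∈ S, ∀ e : Bool × Bool × Bool, (pav e u).1 ∈ Icc α₀ 2 ∧ (pav e u).2 ∈ Icc α₀ 2 ∧
      |(pav e u).1 ^ p + (pav e u).2 ^ p - 1| ≤ τ := by
    intro u hu e
    obtain ⟨h1, h2, h3⟩ := hS u hu
    have h4 := hoct u hu u hu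
    have h5 : u.1 ∈ Icc α₀ 2 := ⟨h1, by linarith⟩
    have h6 : u.2 ∈ Icc α₀ 2 := ⟨by linarith, h2⟩
    unfold pav
    split_ifs
    · refine ⟨h6, h5, ?_⟩
      show |u.2 ^ p + u.1 ^ p - 1| ≤ τ
      rw [add_comm (u.2 ^ p)]
      exact h3
    · exact ⟨h5, h6, h3⟩
  obtain ⟨m1, m2, m3⟩ := hmem v hv e
  obtain ⟨m1', m2', m3'⟩ := hmem v' hv' e'
  have a1 : 0 < (pav e v).1 := lt_of_lt_of_le h0 m1.1
  have a2 : 0 < (pav e v).2 := lt_of_lt_of_le h0 m2.1
  have a1' : 0 < (pav e' v').1 := lt_of_lt_of_le h0 m1'.1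
  have a2' : 0 < (pav e' v').2 := lt_of_lt_of_le h0 m2'.1
  have hH : 0 < (pav e v).1 ^ p + (pav e v).2 ^ p :=
    add_pos (Real.rpow_pos_of_pos a1 p) (Real.rpow_pos_of_pos a2 p)
  have hA : 0 < (pav e v).1 ^ (p - 1) * (pav e' v').1 :=
    mul_pos (Real.rpow_pos_of_pos a1 _) a1'
  have hB : 0 < (pav e v).2 ^ (p - 1) * (pav e' v').2 :=
    mul_pos (Real.rpow_pos_of_pos a2 _) a2'
  rw [po_ell p e e' v v' a1 a2, abs_div, abs_of_pos hH, div_lt_one hH]
  by_cases hcase : e.1 = e'.1 ∧ v = v'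
  · -- the same point
    obtain ⟨he, rfl⟩ := hcase
    have haa : pav e' v = pav e v := by
      unfold pav
      rw [he]
    have hA' : (pav e v).1 ^ (p - 1) * (pav e' v).1 = (pav e v).1 ^ p := by
      rw [haa, ← Real.rpow_add_one a1.ne']
      congr 1
      ring
    have hB' : (pav e v).2 ^ (p - 1) * (pav e' v).2 = (pav e v).2 ^ p := by
      rw [haa, ← Real.rpow_add_one a2.ne']
      congr 1
      ring
    rw [hA', hB']
    have hA2 : 0 < (pav e v).1 ^ p := Real.rpow_pos_of_pos a1 p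
    have hB2 : 0 < (pav e v).2 ^ p := Real.rpow_pos_of_pos a2 p
    rw [po_dm e' v, po_dm e v, haa] at hne1 hne2
    obtain ⟨e1, e2, e3⟩ := e
    obtain ⟨e1', e2', e3'⟩ := e'
    simp only at hne1 hne2 hA2 hB2 ⊢
    rw [abs_lt]
    cases e2 <;> cases e3 <;> cases e2' <;> cases e3' <;> simp [psg] at hne1 hne2 ⊢ <;>
      first
      | exact hne1 rfl
      | exact hne2 rfl
      | (constructor <;> linarith)
  · -- different points
    have hdist : γ ^ 2 ≤ ((pav e v).1 - (pav e' v').1) ^ 2 + ((pav e v).2 - (pav e' v').2) ^ 2 := by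
      by_cases he : e.1 = e'.1
      · have hvv : v ≠ v' := fun h => hcase ⟨he, h⟩
        have h1 := hsep v hv v' hv' hvv
        have h2 : γ ^ 2 ≤ (v.1 - v'.1) ^ 2 := by
          rw [← sq_abs (v.1 - v'.1)]
          exact pow_le_pow_left₀ hγ.le h1 2
        unfold pav
        rw [he]
        split_ifs
        · show γ ^ 2 ≤ (v.2 - v'.2) ^ 2 + (v.1 - v'.1) ^ 2
          nlinarith [sq_nonneg (v.2 - v'.2)]
        · nlinarith [sq_nonneg (v.2 - v'.2)]
      · have h1 := hoct v hv v' hv'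
        have h2 := hoct v' hv' v hv
        obtain ⟨e1, e2, e3⟩ := e
        obtain ⟨e1', e2', e3'⟩ := e'
        cases e1 <;> cases e1'
        · exact absurd rfl he
        · show γ ^ 2 ≤ (v.1 - v'.2) ^ 2 + (v.2 - v'.1) ^ 2
          nlinarith [sq_nonneg (v.2 - v'.1)]
        · show γ ^ 2 ≤ (v.2 - v'.1) ^ 2 + (v.1 - v'.2) ^ 2
          nlinarith [sq_nonneg (v.1 - v'.2)]
        · exact absurd rfl he
    have h1 := hconv (pav e v) (pav e' v') m1 m2 m1' m2'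
    have h2 : (((pav e' v').1 ^ p + (pav e' v').2 ^ p) - ((pav e v).1 ^ p + (pav e v).2 ^ p)) / p ≤
        c₀ * γ ^ 2 / 2 := by
      rw [div_le_iff₀ hp0]
      have h3 := (abs_le.1 m3).1
      have h4 := (abs_le.1 m3').2
      nlinarith
    have h3 : c₀ * γ ^ 2 ≤
        c₀ * (((pav e v).1 - (pav e' v').1) ^ 2 + ((pav e v).2 - (pav e' v').2) ^ 2) :=
      mul_le_mul_of_nonneg_left hdist hc₀.le
    have h4 : 0 < c₀ * γ ^ 2 := by positivity
    refine lt_of_le_of_lt (abs_add_le _ _) ?_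
    rw [abs_mul, abs_mul, abs_mul (psg e.2.2 * psg e'.2.2), abs_mul (psg e.2.2), psg_abs, psg_abs,
      psg_abs, psg_abs, abs_of_pos hA, abs_of_pos hB]
    linarith

end Pool.Agent.DNB
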