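import Pool.Agent.DNB.Gp

/-!
# Estimates for the lattice vectors

Rounding and the mean value theorem for `x ^ p`.
-/

open Set MeasureTheory Filter Topology Metric
open Pool.Agent.Helper2.LM Pool.Agent.AEP Pool.Agent.H99N

namespace Pool.Agent.DNB

private theorem pt_mvt {p : ℝ} (hp1 : 1 < p) {a b : ℝ} (ha : a ∈ Icc (0 : ℝ) 2) (hb : b ∈ Icc (0 : ℝ) 2) :
    |b ^ p - a ^ p| ≤ p * 2 ^ (p - 1) * |b - a| := by
  have h := Convex.norm_image_sub_le_of_norm_hasDerivWithin_le (f := fun x : ℝ => x ^ p)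
    (f' := fun x : ℝ => p * x ^ (p - 1)) (s := Icc (0 : ℝ) 2) (x := a) (y := b) (C := p * 2 ^ (p - 1))
    (fun x _ => (Real.hasDerivAt_rpow_const (Or.inr hp1.le)).hasDerivWithinAt)
    (fun x hx => by
      have h1 : 0 ≤ x ^ (p - 1) := Real.rpow_nonneg hx.1 _
      have h2 : x ^ (p - 1) ≤ 2 ^ (p - 1) := Real.rpow_le_rpow hx.1 hx.2 (by linarith)
      rw [Real.norm_eq_abs, abs_of_nonneg (mul_nonneg (by linarith) h1)]
      exact mul_le_mul_of_nonneg_left h2 (by linarith))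
    (convex_Icc 0 2) ha hb
  exact h

theorem pt_est {p : ℝ} (hp1 : 1 < p) {α β : ℝ} (hα : 0 < α) (hαβ : α < β) (hβ : β < xs p) :
    ∃ C γ₀ : ℝ, 0 < C ∧ 0 < γ₀ ∧ ∀ n u k : ℕ, 0 < n → α * n ≤ u → (u : ℝ) ≤ β * n →
      ((k : ℝ) + 1) * C ≤ n →
        (sc n (pt (gp p) n u k)).1 = (u : ℝ) / n ∧ β + γ₀ ≤ (sc n (pt (gp p) n u k)).2 ∧
        (sc n (pt (gp p) n u k)).2 ≤ 2 ∧
        |(sc n (pt (gp p) n u k)).1 ^ p + (sc n (pt (gp p) n u k)).2 ^ p - 1| ≤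
          C * (k + 1) / n := by
  have hxs := xs_pos hp1
  have hβ0 : 0 < β := hα.trans hαβ
  have hgβ := gp_bd hp1 hβ0.le hβ
  have hL : 0 ≤ p * (2 : ℝ) ^ (p - 1) := mul_nonneg (by linarith) (Real.rpow_nonneg (by norm_num) _)
  obtain ⟨γ₀, hγ⟩ : ∃ γ₀ : ℝ, γ₀ = (gp p β - β) / 2 := ⟨_, rfl⟩
  have hγ0 : 0 < γ₀ := by
    rw [hγ]
    linarith [hgβ.1]
  have hiγ : 0 < 1 / γ₀ := by positivity
  obtain ⟨C, hC⟩ : ∃ C : ℝ, C = p * (2 : ℝ) ^ (p - 1) + 1 / γ₀ + 1 := ⟨_, rfl⟩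
  have hC0 : 0 < C := by
    rw [hC]
    linarith
  refine ⟨C, γ₀, hC0, hγ0, fun n u k hn h1 h2 h3 => ?_⟩
  have hn0 : (0 : ℝ) < n := by exact_mod_cast hn
  have hk0 : (0 : ℝ) ≤ k := Nat.cast_nonneg k
  have hx1 : α ≤ (u : ℝ) / n := by
    rw [le_div_iff₀ hn0]
    exact h1
  have hx2 : (u : ℝ) / n ≤ β := by
    rw [div_le_iff₀ hn0]
    exact h2
  obtain ⟨x, hx⟩ : ∃ x : ℝ, x = (u : ℝ) / n := ⟨_, rfl⟩
  rw [← hx] at hx1 hx2
  have hgx := gp_bd hp1 (hα.le.trans hx1) (lt_of_le_of_lt hx2 hβ)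
  have hga := gp_anti hp1 (hα.le.trans hx1) hx2 (hβ.le.trans hxs.2.le)
  have hgm := gp_mem hp1 (hα.le.trans hx1) (hx2.trans (hβ.le.trans hxs.2.le))
  have e1 : (sc n (pt (gp p) n u k)).1 = x := by
    rw [hx]
    unfold sc pt
    simp
  have e2 : (sc n (pt (gp p) n u k)).2 = ((⌊(n : ℝ) * gp p x⌋ : ℝ) + k) / n := by
    rw [hx]
    unfold sc pt
    simp
  rw [e1, e2]
  have hf1 := Int.floor_le ((n : ℝ) * gp p x)
  have hf2 := Int.lt_floor_add_one ((n : ℝ) * gp p x)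
  have hd1 : ((⌊(n : ℝ) * gp p x⌋ : ℝ) + k) / n ≤ gp p x + (k + 1) / n := by
    rw [div_le_iff₀ hn0]
    have e3 : (gp p x + (k + 1) / n) * n = n * gp p x + (k + 1) := by
      field_simp
    rw [e3]
    linarith
  have hd2 : gp p x - 1 / n ≤ ((⌊(n : ℝ) * gp p x⌋ : ℝ) + k) / n := by
    rw [le_div_iff₀ hn0]
    have e3 : (gp p x - 1 / n) * n = n * gp p x - 1 := by
      field_simp
    rw [e3]
    linarith
  have hkn : ((k : ℝ) + 1) / n ≤ 1 := by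
    rw [div_le_one hn0]
    have : (k : ℝ) + 1 ≤ (k + 1) * C := by
      refine le_mul_of_one_le_right (by linarith) ?_
      rw [hC]
      linarith
    linarith
  have h1n : 1 / (n : ℝ) ≤ γ₀ := by
    rw [div_le_iff₀ hn0]
    have h4 : C ≤ n := by
      refine le_trans ?_ h3
      exact le_mul_of_one_le_left hC0.le (by linarith)
    have h5 : 1 / γ₀ ≤ n := by
      refine le_trans ?_ h4
      rw [hC]
      linarith
    rw [div_le_iff₀ hγ0] at h5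
    linarith
  have h1nk : 1 / (n : ℝ) ≤ (k + 1) / n := by
    refine div_le_div_of_nonneg_right ?_ hn0.le
    linarith
  have hlow : β + γ₀ ≤ ((⌊(n : ℝ) * gp p x⌋ : ℝ) + k) / n := by
    refine le_trans ?_ hd2
    linarith
  have hup : ((⌊(n : ℝ) * gp p x⌋ : ℝ) + k) / n ≤ 2 := by
    refine hd1.trans ?_
    linarith [hgx.2]
  refine ⟨hx, hlow, hup, ?_⟩
  obtain ⟨w, hw⟩ : ∃ w : ℝ, w = ((⌊(n : ℝ) * gp p x⌋ : ℝ) + k) / n := ⟨_, rfl⟩
  rw [← hw] at hd1 hd2 hlow hup ⊢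
  have h6 : x ^ p + w ^ p - 1 = w ^ p - gp p x ^ p := by linarith [hgm.2]
  rw [h6]
  have h7 := pt_mvt hp1 (a := gp p x) (b := w) ⟨hgm.1, by linarith [hgx.2]⟩ ⟨by linarith, hup⟩
  have h8 : |w - gp p x| ≤ (k + 1) / n := abs_le.2 ⟨by linarith, by linarith⟩
  refine h7.trans ?_
  calc p * 2 ^ (p - 1) * |w - gp p x| ≤ p * 2 ^ (p - 1) * ((k + 1) / n) := mul_le_mul_of_nonneg_left h8 hL
    _ ≤ C * ((k + 1) / n) := by
        refine mul_le_mul_of_nonneg_right ?_ (by positivity)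
        rw [hC]
        linarith
    _ = C * (k + 1) / n := by ring

end Pool.Agent.DNB
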