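import Pool.Agent.DNB.NM
import Pool.Agent.DNB.PO
import Pool.Agent.DNB.Pts

/-!
# The norm through the chosen points

`pos_ell` for the chosen points, `exists_norm` for their images under the symmetries.
-/

open Set MeasureTheory Filter Topology Metric
open Pool.Agent.Helper2.LM Pool.Agent.AEP Pool.Agent.H99N

namespace Pool.Agent.DNB

private theorem eb_comp (e e' : Bool × Bool × Bool) :
    ∃ e'' : Bool × Bool × Bool, ∀ x, dm e (dm e' x) = dm e'' x := by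
  refine ⟨(xor e.1 e'.1, xor e.2.1 (if e.1 then e'.2.2 else e'.2.1),
    xor e.2.2 (if e.1 then e'.2.1 else e'.2.2)), fun x => ?_⟩
  rcases e with ⟨_ | _, _ | _, _ | _⟩ <;> rcases e' with ⟨_ | _, _ | _, _ | _⟩ <;> simp [dm]

private theorem eb_zero (e : Bool × Bool × Bool) : dm e 0 = 0 := by
  rcases e with ⟨_ | _, _ | _, _ | _⟩ <;> simp [dm]

private theorem eb_id (x : ℝ × ℝ) : dm (false, false, false) x = x := by
  simp [dm]

private theorem eb_pow {p ε H : ℝ} (hp1 : 1 < p) (hε : 0 < ε) (hε1 : ε < 1)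
    (hH : |H - 1| ≤ ε / 4) :
    (1 - ε) * H ^ (1 / p) ≤ 1 ∧ 1 ≤ (1 + ε / 2) * H ^ (1 / p) := by
  obtain ⟨h1, h2⟩ := abs_le.1 hH
  have hp0 : 0 < p := by linarith
  have hp : 1 / p ≤ 1 := by
    rw [div_le_one hp0]
    exact hp1.le
  have hp' : 0 < 1 / p := by positivity
  have hH0 : 0 < H := by linarith
  rcases le_total 1 H with h | h
  · have e1 : H ^ (1 / p) ≤ H := by
      calc H ^ (1 / p) ≤ H ^ (1 : ℝ) := Real.rpow_le_rpow_of_exponent_le h hp
        _ = H := Real.rpow_one H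
    have e2 : 1 ≤ H ^ (1 / p) := Real.one_le_rpow h hp'.le
    constructor
    · nlinarith
    · nlinarith
  · have e1 : H ≤ H ^ (1 / p) := by
      calc H = H ^ (1 : ℝ) := (Real.rpow_one H).symm
        _ ≤ H ^ (1 / p) := Real.rpow_le_rpow_of_exponent_ge hH0 h hp
    have e2 : H ^ (1 / p) ≤ 1 := Real.rpow_le_one hH0.le h hp'.le
    constructor
    · nlinarith
    · nlinarith

theorem ens_B {p : ℝ} (hp1 : 1 < p) {α β ε : ℝ} (hα : 0 < α) (hαβ : α < β) (hβ : β < xs p)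
    (hε : 0 < ε) (hε1 : ε < 1) : ∃ κ₀ : ℝ, 0 < κ₀ ∧ ∀ n N L G K A : ℕ, 0 < n →
      ((K : ℝ) + 1) * n ≤ κ₀ * G ^ 2 → (G : ℝ) ≤ κ₀ * n → (K : ℝ) + 1 ≤ κ₀ * n →
      α * n ≤ A → (A : ℝ) + N * (L + G) ≤ β * n → ∀ ω : Fin N → Fin L × Fin K,
      ∃ Nm : Seminorm ℝ (ℝ × ℝ), GN p ε Nm ∧
        ∀ j, Nm (sc n (pt (gp p) n (A + j * (L + G) + (ω j).1) (ω j).2)) = 1 := by
  obtain ⟨C, γ₀, hC, hγ₀, hest⟩ := pt_est hp1 hα hαβ hβ
  obtain ⟨c, hc, hpos⟩ := pos_ell hp1 hα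
  refine ⟨min (min (c / C) γ₀) (min (1 / C) (ε / 4 / C)),
    lt_min (lt_min (div_pos hc hC) hγ₀) (lt_min (by positivity) (by positivity)), ?_⟩
  intro n N L G K A hn hG1 hG2 hK hA hB ω
  have hn' : (0 : ℝ) < n := Nat.cast_pos.2 hn
  have k1 : min (min (c / C) γ₀) (min (1 / C) (ε / 4 / C)) ≤ c / C :=
    (min_le_left _ _).trans (min_le_left _ _)
  have k2 : min (min (c / C) γ₀) (min (1 / C) (ε / 4 / C)) ≤ γ₀ :=
    (min_le_left _ _).trans (min_le_right _ _)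
  have k3 : min (min (c / C) γ₀) (min (1 / C) (ε / 4 / C)) ≤ 1 / C :=
    (min_le_right _ _).trans (min_le_left _ _)
  have k4 : min (min (c / C) γ₀) (min (1 / C) (ε / 4 / C)) ≤ ε / 4 / C :=
    (min_le_right _ _).trans (min_le_right _ _)
  have hG0 : 0 < G := by
    rcases Nat.eq_zero_or_pos G with h | h
    · exfalso
      rw [h] at hG1
      have h2 : (0 : ℝ) < ((K : ℝ) + 1) * n := by positivity
      norm_num at hG1
      linarith
    · exact h
  have hG' : (0 : ℝ) < G := Nat.cast_pos.2 hG0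
  -- the consequences of the choice of the constant
  have c1 : C * (((K : ℝ) + 1) * n) ≤ c * (G : ℝ) ^ 2 := by
    have h1 := hG1.trans (mul_le_mul_of_nonneg_right k1 (by positivity : (0 : ℝ) ≤ (G : ℝ) ^ 2))
    have h2 := mul_le_mul_of_nonneg_left h1 hC.le
    refine h2.trans (le_of_eq ?_)
    field_simp
  have c2 : (G : ℝ) / n ≤ γ₀ := by
    rw [div_le_iff₀ hn']
    exact hG2.trans (mul_le_mul_of_nonneg_right k2 hn'.le)
  have c3 : ((K : ℝ) + 1) * C ≤ n := by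
    have h1 := hK.trans (mul_le_mul_of_nonneg_right k3 hn'.le)
    have h2 := mul_le_mul_of_nonneg_right h1 hC.le
    refine h2.trans (le_of_eq ?_)
    field_simp
  have c4 : C * ((K : ℝ) + 1) / n ≤ ε / 4 := by
    rw [div_le_iff₀ hn']
    have h1 := hK.trans (mul_le_mul_of_nonneg_right k4 hn'.le)
    have h2 := mul_le_mul_of_nonneg_left h1 hC.le
    refine h2.trans (le_of_eq ?_)
    field_simp
  -- the points
  set u : Fin N → ℕ := fun j => A + j * (L + G) + (ω j).1 with hu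
  set v : Fin N → ℝ × ℝ := fun j => sc n (pt (gp p) n (u j) (ω j).2) with hv
  have hu1 : ∀ j, α * n ≤ (u j : ℝ) := by
    intro j
    refine hA.trans ?_
    have h1 : A ≤ u j := by
      show A ≤ A + (j : ℕ) * (L + G) + ((ω j).1 : ℕ)
      omega
    exact_mod_cast h1
  have hu2 : ∀ j, (u j : ℝ) ≤ β * n := by
    intro j
    refine le_trans ?_ hB
    have h1 : (j : ℕ) + 1 ≤ N := j.2
    have h2 : ((ω j).1 : ℕ) < L := (ω j).1.2
    have h3 : ((j : ℕ) + 1) * (L + G) ≤ N * (L + G) := Nat.mul_le_mul_right _ h1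
    have h4 : u j ≤ A + N * (L + G) := by
      show A + (j : ℕ) * (L + G) + ((ω j).1 : ℕ) ≤ _
      nlinarith
    exact_mod_cast h4
  have hest' : ∀ j, (v j).1 = (u j : ℝ) / n ∧ β + γ₀ ≤ (v j).2 ∧ (v j).2 ≤ 2 ∧
      |(v j).1 ^ p + (v j).2 ^ p - 1| ≤ C * ((K : ℝ) + 1) / n := by
    intro j
    have h1 : (((ω j).2 : ℕ) : ℝ) + 1 ≤ (K : ℝ) + 1 := by
      have h2 : ((ω j).2 : ℕ) < K := (ω j).2.2
      have h3 : (((ω j).2 : ℕ) : ℝ) ≤ K := by exact_mod_cast h2.le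
      linarith
    have h2 : ((((ω j).2 : ℕ) : ℝ) + 1) * C ≤ n :=
      (mul_le_mul_of_nonneg_right h1 hC.le).trans c3
    obtain ⟨e1, e2, e3, e4⟩ := hest n (u j) (ω j).2 hn (hu1 j) (hu2 j) h2
    refine ⟨e1, e2, e3, e4.trans ?_⟩
    exact div_le_div_of_nonneg_right (mul_le_mul_of_nonneg_left h1 hC.le) hn'.le
  have hv1 : ∀ j, α ≤ (v j).1 ∧ (v j).1 ≤ β := by
    intro j
    rw [(hest' j).1]
    exact ⟨(le_div_iff₀ hn').2 (hu1 j), (div_le_iff₀ hn').2 (hu2 j)⟩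
  have hsep : ∀ j j' : Fin N, j < j' → (G : ℝ) / n ≤ (v j').1 - (v j).1 := by
    intro j j' hjj
    rw [(hest' j).1, (hest' j').1, ← sub_div]
    refine div_le_div_of_nonneg_right ?_ hn'.le
    have h1 : (j : ℕ) + 1 ≤ j' := hjj
    have h2 : ((ω j).1 : ℕ) < L := (ω j).1.2
    have h3 : ((j : ℕ) + 1) * (L + G) ≤ j' * (L + G) := Nat.mul_le_mul_right _ h1
    have h4 : G + u j ≤ u j' := by
      show G + (A + (j : ℕ) * (L + G) + ((ω j).1 : ℕ)) ≤ A + (j' : ℕ) * (L + G) + ((ω j').1 : ℕ)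
      nlinarith
    have h5 : (G : ℝ) + u j ≤ u j' := by exact_mod_cast h4
    linarith
  set S₀ : Finset (ℝ × ℝ) := Finset.univ.image v with hS₀
  have hmem : ∀ w ∈ S₀, ∃ j, v j = w := by
    intro w hw
    obtain ⟨j, -, hj⟩ := Finset.mem_image.1 hw
    exact ⟨j, hj⟩
  have hγ : (0 : ℝ) < (G : ℝ) / n := div_pos hG' hn'
  have hell := hpos S₀ (C * ((K : ℝ) + 1) / n) ((G : ℝ) / n) hγ (by
      rw [div_pow, ← mul_div_assoc, div_le_div_iff₀ hn' (by positivity)]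
      nlinarith) (by
      intro w hw
      obtain ⟨j, rfl⟩ := hmem w hw
      exact ⟨(hv1 j).1, (hest' j).2.2.1, (hest' j).2.2.2⟩) (by
      intro w hw w' hw' hne
      obtain ⟨j, rfl⟩ := hmem w hw
      obtain ⟨j', rfl⟩ := hmem w' hw'
      have hjj : j ≠ j' := fun h => hne (by rw [h])
      rcases lt_or_gt_of_ne hjj with h | h
      · rw [abs_sub_comm]
        exact (hsep j j' h).trans (le_abs_self _)
      · exact (hsep j' j h).trans (le_abs_self _)) (by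
      intro w hw w' hw'
      obtain ⟨j, rfl⟩ := hmem w hw
      obtain ⟨j', rfl⟩ := hmem w' hw'
      have h1 := (hv1 j).2
      have h2 := (hest' j').2.1
      linarith)
  set S : Finset (ℝ × ℝ) := Finset.univ.biUnion fun e => S₀.image (dm e) with hS
  have hSmem : ∀ s, s ∈ S ↔ ∃ e, ∃ w ∈ S₀, dm e w = s := by
    intro s
    rw [hS, Finset.mem_biUnion]
    constructor
    · rintro ⟨e, -, h⟩
      obtain ⟨w, hw, rfl⟩ := Finset.mem_image.1 h
      exact ⟨e, w, hw, rfl⟩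
    · rintro ⟨e, w, hw, rfl⟩
      exact ⟨e, Finset.mem_univ _, Finset.mem_image.2 ⟨w, hw, rfl⟩⟩
  obtain ⟨Nm, hNm, hNm1⟩ := exists_norm (S := S) hp1 hε hε1 (by
      intro e s hs
      obtain ⟨e', w, hw, rfl⟩ := (hSmem s).1 hs
      obtain ⟨e'', he''⟩ := eb_comp e e'
      exact (hSmem _).2 ⟨e'', w, hw, (he'' w).symm⟩) (by
      intro s hs hs0
      obtain ⟨e, w, hw, rfl⟩ := (hSmem s).1 hs
      obtain ⟨e', -, he'⟩ := dm_inv e
      have h1 := he' w
      rw [hs0, eb_zero] at h1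
      obtain ⟨j, rfl⟩ := hmem w hw
      have h2 := (hv1 j).1
      rw [← h1, Prod.fst_zero] at h2
      linarith) (by
      intro s hs
      obtain ⟨e, w, hw, rfl⟩ := (hSmem s).1 hs
      obtain ⟨j, rfl⟩ := hmem w hw
      rw [hp_dm]
      have h1 : 0 < (v j).1 := hα.trans_le (hv1 j).1
      have h2 : 0 < (v j).2 := by
        have := (hest' j).2.1
        linarith
      have h3 : hp p (v j) = (v j).1 ^ p + (v j).2 ^ p := by
        rw [hp, abs_of_pos h1, abs_of_pos h2]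
      rw [h3]
      exact eb_pow hp1 hε hε1 ((hest' j).2.2.2.trans c4)) (by
      intro s hs s' hs' h1 h2
      obtain ⟨e, w, hw, rfl⟩ := (hSmem s).1 hs
      obtain ⟨e', w', hw', rfl⟩ := (hSmem s').1 hs'
      exact hell w hw w' hw' e e' h1 h2)
  refine ⟨Nm, hNm, fun j => ?_⟩
  refine hNm1 _ ((hSmem _).2 ⟨(false, false, false), v j,
    Finset.mem_image.2 ⟨j, Finset.mem_univ _, rfl⟩, eb_id _⟩)

end Pool.Agent.DNB
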