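import Pool.Agent.DNB.Defs

/-! Choice of the parameters. -/

open Set MeasureTheory Filter Topology Metric
open Pool.Agent.Helper2.LM Pool.Agent.AEP Pool.Agent.H99N

namespace Pool.Agent.DNB

private theorem par_exp {η : ℝ} (hη : 0 < η) (R : ℕ) : ∀ᶠ N : ℕ in atTop,
    4 * ((2 * R + 3) * ((N ^ 5 : ℕ) : ℝ)) ^ 2 * Real.exp (-(N * η ^ 2 / 2)) < 1 := by
  have h1 := Real.tendsto_pow_mul_exp_neg_atTop_nhds_zero 10
  have h2 : Tendsto (fun N : ℕ => (N : ℝ) * η ^ 2 / 2) atTop atTop := by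
    have h3 : Tendsto (fun N : ℕ => (N : ℝ) * (η ^ 2 / 2)) atTop atTop :=
      tendsto_natCast_atTop_atTop.atTop_mul_const (by positivity)
    refine h3.congr fun N => ?_
    ring
  have h3 := (h1.comp h2).const_mul (4 * (2 * (R : ℝ) + 3) ^ 2 * (2 / η ^ 2) ^ 10)
  rw [mul_zero] at h3
  filter_upwards [h3.eventually (gt_mem_nhds one_pos)] with N hN
  refine lt_of_eq_of_lt ?_ hN
  have hη0 : η ^ 2 ≠ 0 := by positivity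
  show 4 * ((2 * R + 3) * ((N ^ 5 : ℕ) : ℝ)) ^ 2 * Real.exp (-(N * η ^ 2 / 2)) =
    4 * (2 * (R : ℝ) + 3) ^ 2 * (2 / η ^ 2) ^ 10 *
      ((N * η ^ 2 / 2) ^ 10 * Real.exp (-(N * η ^ 2 / 2)))
  have h4 : (2 / η ^ 2) ^ 10 * (N * η ^ 2 / 2) ^ 10 = (N : ℝ) ^ 10 := by
    rw [← mul_pow]
    congr 1
    field_simp
  push_cast
  calc _ = 4 * (2 * (R : ℝ) + 3) ^ 2 * (N : ℝ) ^ 10 * Real.exp (-(N * η ^ 2 / 2)) := by ring
    _ = 4 * (2 * (R : ℝ) + 3) ^ 2 * ((2 / η ^ 2) ^ 10 * (N * η ^ 2 / 2) ^ 10) *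
        Real.exp (-(N * η ^ 2 / 2)) := by rw [h4]
    _ = _ := by ring

theorem exists_par {α β κ₀ η θ Λ : ℝ} (hα : 0 < α) (hαβ : α < β) (hβ : β < 1) (hκ : 0 < κ₀)
    (hη : 0 < η) (hθ : 0 < θ) (hΛ : 0 ≤ Λ) (R : ℕ) : ∃ n N L G K A : ℕ, 0 < n ∧ 0 < N ∧ 0 < L ∧
      0 < K ∧ K < n ∧ α * n ≤ A ∧ (A : ℝ) + N * (L + G) ≤ β * n ∧
      4 * ((2 * R + 3) * n : ℝ) ^ 2 * Real.exp (-(N * η ^ 2 / 2)) < 1 ∧
      ((K : ℝ) + 1) * n ≤ κ₀ * G ^ 2 ∧ (G : ℝ) ≤ κ₀ * n ∧ (K : ℝ) + 1 ≤ κ₀ * n ∧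
      (K : ℝ) / n ≤ θ ∧ (β - α) * (2 + Λ) / K + ((β - α) * n + 2 - N * L) / n ≤ θ := by
  set κ : ℝ := min κ₀ 1 / 2 with hκd
  have hκ0 : 0 < κ := half_pos (lt_min hκ one_pos)
  have hκ1 : κ ≤ 1 / 2 := div_le_div_of_nonneg_right (min_le_right _ _) zero_le_two
  have hκ2 : κ ≤ κ₀ / 2 := div_le_div_of_nonneg_right (min_le_left _ _) zero_le_two
  have hd : 0 < β - α := sub_pos.2 hαβ
  have hx : ∀ C : ℝ, ∀ᶠ N : ℕ in atTop, C ≤ (N : ℝ) := fun C =>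
    tendsto_natCast_atTop_atTop.eventually_ge_atTop C
  obtain ⟨N, hN1, hN2, hN3, hN4, hN5, hN6, hN7⟩ := ((par_exp hη R).and ((hx 1).and
    ((hx (4 / (β - α))).and ((hx (2 / κ)).and ((hx (2 / κ₀)).and ((hx (10 / θ)).and
      (hx (4 * ((β - α) * (2 + Λ)) / (κ * θ))))))))).exists
  set x : ℝ := (N : ℝ) with hxd
  rw [div_le_iff₀ hd] at hN3
  rw [div_le_iff₀ hκ0] at hN4
  rw [div_le_iff₀ hκ] at hN5
  rw [div_le_iff₀ hθ] at hN6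
  rw [div_le_iff₀ (by positivity)] at hN7
  have hx0 : 0 < x := by linarith
  have hx3 : 1 ≤ x ^ 3 := one_le_pow₀ hN2
  have hx4 : 1 ≤ x ^ 4 := one_le_pow₀ hN2
  have hx5 : 0 < x ^ 5 := by positivity
  -- the floor
  have hF1 : (β - α) * x ^ 4 - 1 < (⌊(β - α) * x ^ 4⌋₊ : ℝ) := Nat.sub_one_lt_floor _
  have hF2 : (⌊(β - α) * x ^ 4⌋₊ : ℝ) ≤ (β - α) * x ^ 4 := Nat.floor_le (by positivity)
  have hF3 : 4 * x ^ 3 ≤ (β - α) * x ^ 4 := by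
    have h1 : (β - α) * x ^ 4 = x * (β - α) * x ^ 3 := by ring
    rw [h1]
    exact mul_le_mul_of_nonneg_right hN3 (by positivity)
  have hF4 : N ^ 3 + 1 + 1 ≤ ⌊(β - α) * x ^ 4⌋₊ := by
    have h1 : (((N ^ 3 + 1 + 1 : ℕ)) : ℝ) < (⌊(β - α) * x ^ 4⌋₊ : ℝ) := by
      push_cast
      rw [← hxd]
      linarith
    exact_mod_cast h1.le
  obtain ⟨L₀, hL₀⟩ := Nat.exists_eq_add_of_le hF4
  have hL : (⌊(β - α) * x ^ 4⌋₊ : ℝ) = x ^ 3 + 1 + ((L₀ + 1 : ℕ) : ℝ) := by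
    rw [hL₀]
    push_cast
    rw [← hxd]
    ring
  have hL1 : ((L₀ + 1 : ℕ) : ℝ) ≤ (β - α) * x ^ 4 - x ^ 3 - 1 := by linarith
  have hL2 : (β - α) * x ^ 4 - x ^ 3 - 2 ≤ ((L₀ + 1 : ℕ) : ℝ) := by linarith
  -- the number `K`
  have hK1 : κ * x - 1 < (⌊κ * x⌋₊ : ℝ) := Nat.sub_one_lt_floor _
  have hK2 : (⌊κ * x⌋₊ : ℝ) ≤ κ * x := Nat.floor_le (by positivity)
  have hκx : 2 ≤ κ * x := by linarith
  have hK3 : κ * x / 2 ≤ (⌊κ * x⌋₊ : ℝ) := by linarith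
  have hK4 : 0 < (⌊κ * x⌋₊ : ℝ) := by linarith
  have hκx2 : κ * x + 1 ≤ κ₀ * x := by
    have h1 : κ * x ≤ κ₀ / 2 * x := mul_le_mul_of_nonneg_right hκ2 hx0.le
    linarith
  have hxx5 : x ≤ x ^ 5 := by
    calc x = x * 1 := (mul_one x).symm
      _ ≤ x * x ^ 4 := mul_le_mul_of_nonneg_left hx4 hx0.le
      _ = x ^ 5 := by ring
  have hcast : ((N ^ 5 : ℕ) : ℝ) = x ^ 5 := by push_cast; rfl
  have hcast3 : ((N ^ 3 : ℕ) : ℝ) = x ^ 3 := by push_cast; rfl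
  have hNpos : 0 < N := by
    rw [hxd] at hx0
    exact_mod_cast hx0
  refine ⟨N ^ 5, N, L₀ + 1, N ^ 3, ⌊κ * x⌋₊, ⌈α * x ^ 5⌉₊, pow_pos hNpos 5, hNpos,
    Nat.succ_pos _, by exact_mod_cast hK4, ?_, ?_, ?_, hN1, ?_, ?_, ?_, ?_, ?_⟩
  · -- K < n
    have h1 : (⌊κ * x⌋₊ : ℝ) < ((N ^ 5 : ℕ) : ℝ) := by
      rw [hcast]
      have h2 : κ * x ≤ 1 / 2 * x := mul_le_mul_of_nonneg_right hκ1 hx0.le
      linarith
    exact_mod_cast h1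
  · rw [hcast]
    exact Nat.le_ceil _
  · rw [hcast, hcast3, ← hxd]
    have h1 : (⌈α * x ^ 5⌉₊ : ℝ) < α * x ^ 5 + 1 := Nat.ceil_lt_add_one (by positivity)
    have h2 : x * (((L₀ + 1 : ℕ) : ℝ) + x ^ 3) ≤ x * ((β - α) * x ^ 4 - 1) :=
      mul_le_mul_of_nonneg_left (by linarith) hx0.le
    have h3 : x * ((β - α) * x ^ 4 - 1) = (β - α) * x ^ 5 - x := by ring
    rw [h3] at h2
    linarith
  · rw [hcast, hcast3]
    have h1 : ((⌊κ * x⌋₊ : ℝ) + 1) * x ^ 5 ≤ (κ₀ * x) * x ^ 5 :=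
      mul_le_mul_of_nonneg_right (by linarith) hx5.le
    linarith [show (κ₀ * x) * x ^ 5 = κ₀ * (x ^ 3) ^ 2 by ring]
  · rw [hcast, hcast3]
    have h1 : 1 ≤ κ₀ * x := by linarith
    have h2 : x ^ 3 * 1 ≤ x ^ 4 * (κ₀ * x) := by
      apply mul_le_mul _ h1 zero_le_one (by positivity)
      calc x ^ 3 = x ^ 3 * 1 := (mul_one _).symm
        _ ≤ x ^ 3 * x := mul_le_mul_of_nonneg_left hN2 (by positivity)
        _ = x ^ 4 := by ring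
    linarith [show x ^ 4 * (κ₀ * x) = κ₀ * x ^ 5 by ring]
  · rw [hcast]
    have h1 : κ₀ * x ≤ κ₀ * x ^ 5 := mul_le_mul_of_nonneg_left hxx5 hκ.le
    linarith
  · rw [hcast, div_le_iff₀ hx5]
    have h2 : κ * x ≤ 1 / 2 * x := mul_le_mul_of_nonneg_right hκ1 hx0.le
    have h3 : x * 1 ≤ x ^ 4 * (x * θ) := by
      apply mul_le_mul _ (by linarith) zero_le_one (by positivity)
      calc x = x * 1 := (mul_one x).symm
        _ ≤ x * x ^ 3 := mul_le_mul_of_nonneg_left hx3 hx0.le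
        _ = x ^ 4 := by ring
    linarith [show x ^ 4 * (x * θ) = θ * x ^ 5 by ring]
  · rw [hcast, ← hxd]
    have h1 : (β - α) * (2 + Λ) / (⌊κ * x⌋₊ : ℝ) ≤ θ / 2 := by
      rw [div_le_iff₀ hK4]
      have h2 : θ / 2 * (κ * x / 2) ≤ θ / 2 * (⌊κ * x⌋₊ : ℝ) :=
        mul_le_mul_of_nonneg_left hK3 (by positivity)
      linarith [show θ / 2 * (κ * x / 2) = x * (κ * θ) / 4 by ring]
    have h2 : ((β - α) * x ^ 5 + 2 - x * ((L₀ + 1 : ℕ) : ℝ)) / x ^ 5 ≤ θ / 2 := by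
      rw [div_le_iff₀ hx5]
      have h3 : x * ((β - α) * x ^ 4 - x ^ 3 - 2) ≤ x * ((L₀ + 1 : ℕ) : ℝ) :=
        mul_le_mul_of_nonneg_left hL2 hx0.le
      have h4 : x * ((β - α) * x ^ 4 - x ^ 3 - 2) = (β - α) * x ^ 5 - x ^ 4 - 2 * x := by ring
      rw [h4] at h3
      have h5 : x ≤ x ^ 4 := by
        calc x = x * 1 := (mul_one x).symm
          _ ≤ x * x ^ 3 := mul_le_mul_of_nonneg_left hx3 hx0.le
          _ = x ^ 4 := by ring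
      have h6 : 10 * x ^ 4 ≤ x * θ * x ^ 4 := mul_le_mul_of_nonneg_right hN6 (by positivity)
      linarith [show x * θ * x ^ 4 = θ * x ^ 5 by ring]
    linarith

end Pool.Agent.DNB
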