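import Pool.Agent.DNB.EnA
import Pool.Agent.DNB.EnB
import Pool.Agent.DNB.Par

/-!
# Norms for which the colourings are almost measurable

Plan. `Λ` from `gp_lip` (`β < xs p < 1`), `κ₀` from `ens_B`, `η' = θ / (8 * (2 * R + 3) ^ 2)`,
`θ' = min θ (θ / (2 * (2 * R + 1) ^ 2))`; parameters from `exists_par`; `ω` from `ens_A` (with
`gp_pf`, `gp_bd`), the norm from `ens_B`, `ρ = K / n`. The hypothesis on `H` gives the hypothesis of
`ens_A` because the chosen vectors have norm one.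
-/

open Set MeasureTheory Filter Topology Metric
open Pool.Agent.Helper2.LM Pool.Agent.AEP Pool.Agent.H99N

namespace Pool.Agent.DNB

theorem ens {p : ℝ} (hp1 : 1 < p) {α β ε : ℝ} (hα : 0 < α) (hαβ : α < β) (hβ : β < xs p)
    (hε : 0 < ε) (hε1 : ε < 1) (R : ℕ) {θ : ℝ} (hθ : 0 < θ) :
    ∃ (n : ℕ) (ρ : ℝ) (Nm : Seminorm ℝ (ℝ × ℝ)), 0 < n ∧ 0 < ρ ∧ ρ ≤ θ ∧ GN p ε Nm ∧
      ∀ H : ℤ × ℤ → ℝ, (∀ z, 0 ≤ H z ∧ H z ≤ 1) →
        (∀ z s, Nm (sc n s) = 1 → H z * H (z + s) = 0) →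
        ∫ y in closedBall (0 : ℝ × ℝ) R,
          H (cell n y) * Tr (gp p) α β ρ (fun x => H (cell n x)) y ≤ θ := by
  have hp0 : 0 < p := by linarith
  have hx1 : xs p < 1 := by
    unfold xs
    exact Real.rpow_lt_one (by norm_num) (by norm_num) (by positivity)
  have hx0 : 0 ≤ xs p := by
    unfold xs
    positivity
  have hβ1 : β < 1 := hβ.trans hx1
  have hR3 : (0 : ℝ) < 2 * (R : ℝ) + 3 := by positivity
  have hR1 : (0 : ℝ) < 2 * (R : ℝ) + 1 := by positivity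
  obtain ⟨Λ, hΛ, hlip⟩ := gp_lip hp1 hα hαβ hβ1
  obtain ⟨κ₀, hκ, hB⟩ := ens_B hp1 hα hαβ hβ hε hε1
  obtain ⟨η, hηe⟩ : ∃ η : ℝ, η = θ / (8 * (2 * (R : ℝ) + 3) ^ 2) := ⟨_, rfl⟩
  obtain ⟨θ', hθe⟩ : ∃ θ' : ℝ, θ' = min θ (θ / (2 * (2 * (R : ℝ) + 1) ^ 2)) := ⟨_, rfl⟩
  have hη : 0 < η := by
    rw [hηe]
    positivity
  have hθ' : 0 < θ' := by
    rw [hθe]
    exact lt_min hθ (by positivity)
  have hθ1 : θ' ≤ θ := by
    rw [hθe]
    exact min_le_left _ _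
  have hθ2 : θ' ≤ θ / (2 * (2 * (R : ℝ) + 1) ^ 2) := by
    rw [hθe]
    exact min_le_right _ _
  obtain ⟨n, N, L, G, K, A, hn, hN, hL, hK, hKn, hA, hAB, hexp, hG1, hG2, hG3, hρ, herr⟩ :=
    exists_par hα hαβ hβ1 hκ hη hθ' hΛ R
  have hn' : (0 : ℝ) < n := by exact_mod_cast hn
  have hK' : (0 : ℝ) < K := by exact_mod_cast hK
  obtain ⟨ω, hω⟩ := ens_A (gp_pf hp1 hα hαβ hβ1) hα.le hβ1.le hΛ hlip
    (fun t ht => ⟨hx0.trans (gp_bd hp1 (hα.le.trans ht.1) (ht.2.trans_lt hβ)).1.le,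
      (gp_bd hp1 (hα.le.trans ht.1) (ht.2.trans_lt hβ)).2⟩) (G := G) (A := A) (R := R)
    hn hN hL hK hKn hA hAB hη hexp
  obtain ⟨Nm, hNm, hNv⟩ := hB n N L G K A hn hG1 hG2 hG3 hA hAB ω
  refine ⟨n, (K : ℝ) / n, Nm, hn, by positivity, hρ.trans hθ1, hNm, fun H hH hz => ?_⟩
  refine (hω H hH fun z j => hz z _ (hNv j)).trans ?_
  have e1 : 4 * η * (2 * (R : ℝ) + 3) ^ 2 = θ / 2 := by
    rw [hηe]
    field_simp
    norm_num
  have e2 : (2 * (R : ℝ) + 1) ^ 2 *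
      ((β - α) * (2 + Λ) / K + ((β - α) * n + 2 - N * L) / n) ≤ θ / 2 := by
    refine (mul_le_mul_of_nonneg_left (herr.trans hθ2) (by positivity)).trans (le_of_eq ?_)
    field_simp
  linarith

end Pool.Agent.DNB
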