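import Pool.Agent.DNB.Defs

/-!
# The thickened arc average as an average of translates

Proof. Exchange of the integrals; the integrands are measurable and bounded by `1`.
-/

open Set MeasureTheory Filter Topology Metric
open Pool.Agent.Helper2.LM Pool.Agent.AEP Pool.Agent.H99N

namespace Pool.Agent.DNB

private theorem sw_m {g : ℝ → ℝ} (hg : Measurable g) {a : ℝ × ℝ → ℝ} (ha : Measurable a) (y : ℝ × ℝ) :
    Measurable (fun q : ℝ × ℝ => a (y + (q.1, g q.1 + q.2))) := by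
  refine ha.comp (Measurable.add measurable_const (Measurable.prodMk measurable_fst ?_))
  exact (hg.comp measurable_fst).add measurable_snd

private theorem sw_in {g : ℝ → ℝ} {ρ : ℝ} (hρ : 0 < ρ) {a : ℝ × ℝ → ℝ} (ha1 : ∀ x, |a x| ≤ 1) (y : ℝ × ℝ)
    (t : ℝ) : |(1 / ρ) * ∫ κ in (0 : ℝ)..ρ, a (y + (t, g t + κ))| ≤ 1 := by
  have h1 : ‖∫ κ in (0 : ℝ)..ρ, a (y + (t, g t + κ))‖ ≤ 1 * |ρ - 0| :=
    intervalIntegral.norm_integral_le_of_norm_le_const fun κ _ => ha1 _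
  rw [Real.norm_eq_abs, sub_zero, one_mul, abs_of_pos hρ] at h1
  rw [abs_mul, abs_of_pos (one_div_pos.2 hρ), one_div, inv_mul_le_iff₀ hρ, mul_one]
  exact h1

private theorem sw_ms {g : ℝ → ℝ} (hg : Measurable g) {ρ : ℝ} (hρ : 0 < ρ) {a : ℝ × ℝ → ℝ} (ha : Measurable a)
    (y : ℝ × ℝ) : Measurable (fun t => (1 / ρ) * ∫ κ in (0 : ℝ)..ρ, a (y + (t, g t + κ))) := by
  have h1 : (fun t => (1 / ρ) * ∫ κ in (0 : ℝ)..ρ, a (y + (t, g t + κ))) =
      fun t => (1 / ρ) * ∫ κ in Ioc (0 : ℝ) ρ, a (y + (t, g t + κ)) := by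
    funext t
    rw [intervalIntegral.integral_of_le hρ.le]
  rw [h1]
  refine Measurable.const_mul ?_ _
  exact ((sw_m hg ha y).stronglyMeasurable.integral_prod_right (ν := volume.restrict (Ioc (0 : ℝ) ρ))).measurable

theorem Tr_eq {g g' : ℝ → ℝ} {α β ρ : ℝ} (hg : Pf g g' α β) (hρ : 0 < ρ) {a : ℝ × ℝ → ℝ}
    (ha : Measurable a) (ha1 : ∀ x, |a x| ≤ 1) (y : ℝ × ℝ) :
    Tr g α β ρ a y = (1 / ρ) * ∫ κ in (0 : ℝ)..ρ, T1 g α β a (y + (0, κ)) := by
  unfold Tr T1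
  rw [intervalIntegral.integral_const_mul]
  congr 1
  have h1 : ∀ t : ℝ, (∫ κ in (0 : ℝ)..ρ, a (y + (t, g t + κ))) = ∫ κ in Ioc (0 : ℝ) ρ, a (y + (t, g t + κ)) :=
    fun t => intervalIntegral.integral_of_le hρ.le
  have h2 : ∀ κ : ℝ, (∫ t in α..β, a (y + (0, κ) + (t, g t))) = ∫ t in Ioc α β, a (y + (t, g t + κ)) := by
    intro κ
    rw [intervalIntegral.integral_of_le hg.lt.le]
    refine integral_congr_ae (Filter.Eventually.of_forall fun t => ?_)
    have h3 : y + (0, κ) + (t, g t) = y + (t, g t + κ) := by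
      rw [add_assoc]
      congr 1
      rw [Prod.mk_add_mk, zero_add, add_comm κ]
    show a (y + (0, κ) + (t, g t)) = a (y + (t, g t + κ))
    rw [h3]
  simp only [h1, h2]
  rw [intervalIntegral.integral_of_le hg.lt.le, intervalIntegral.integral_of_le hρ.le]
  refine integral_integral_swap (μ := volume.restrict (Ioc α β)) (ν := volume.restrict (Ioc (0 : ℝ) ρ)) ?_
  refine Integrable.of_bound (sw_m hg.meas ha y).aestronglyMeasurable 1 (Filter.Eventually.of_forall fun q => ?_)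
  exact ha1 _

theorem measurable_T1 {g g' : ℝ → ℝ} {α β : ℝ} (hg : Pf g g' α β) {a : ℝ × ℝ → ℝ}
    (ha : Measurable a) : Measurable (T1 g α β a) := by
  have h1 : T1 g α β a = fun y => ∫ t in Ioc α β, a (y + (t, g t)) := by
    funext y
    unfold T1
    rw [intervalIntegral.integral_of_le hg.lt.le]
  rw [h1]
  have h2 : Measurable (fun q : (ℝ × ℝ) × ℝ => a (q.1 + (q.2, g q.2))) :=
    ha.comp (Measurable.add measurable_fst (Measurable.prodMk measurable_snd (hg.meas.comp measurable_snd)))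
  exact (h2.stronglyMeasurable.integral_prod_right (ν := volume.restrict (Ioc α β))).measurable

theorem abs_T1 {g g' : ℝ → ℝ} {α β : ℝ} (hg : Pf g g' α β) {a : ℝ × ℝ → ℝ}
    (ha1 : ∀ x, |a x| ≤ 1) (y : ℝ × ℝ) : |T1 g α β a y| ≤ β - α := by
  have h1 : ‖∫ t in α..β, a (y + (t, g t))‖ ≤ 1 * |β - α| :=
    intervalIntegral.norm_integral_le_of_norm_le_const fun t _ => ha1 _
  rw [Real.norm_eq_abs, one_mul, abs_of_pos (sub_pos.2 hg.lt)] at h1
  exact h1

theorem measurable_Tr {g g' : ℝ → ℝ} {α β ρ : ℝ} (hg : Pf g g' α β) (hρ : 0 < ρ)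
    {a : ℝ × ℝ → ℝ} (ha : Measurable a) (ha1 : ∀ x, |a x| ≤ 1) :
    Measurable (Tr g α β ρ a) := by
  have h1 : Tr g α β ρ a = fun y => (1 / ρ) * ∫ κ in Ioc (0 : ℝ) ρ, T1 g α β a (y + (0, κ)) := by
    funext y
    rw [Tr_eq hg hρ ha ha1, intervalIntegral.integral_of_le hρ.le]
  rw [h1]
  refine Measurable.const_mul ?_ _
  have h2 : Measurable (fun q : (ℝ × ℝ) × ℝ => T1 g α β a (q.1 + (0, q.2))) :=
    (measurable_T1 hg ha).comp (Measurable.add measurable_fst (Measurable.prodMk measurable_const measurable_snd))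
  exact (h2.stronglyMeasurable.integral_prod_right (ν := volume.restrict (Ioc (0 : ℝ) ρ))).measurable

theorem abs_Tr {g g' : ℝ → ℝ} {α β ρ : ℝ} (hg : Pf g g' α β) (hρ : 0 < ρ) {a : ℝ × ℝ → ℝ}
    (ha1 : ∀ x, |a x| ≤ 1) (y : ℝ × ℝ) : |Tr g α β ρ a y| ≤ β - α := by
  have h1 : ‖∫ t in α..β, (1 / ρ) * ∫ κ in (0 : ℝ)..ρ, a (y + (t, g t + κ))‖ ≤ 1 * |β - α| :=
    intervalIntegral.norm_integral_le_of_norm_le_const fun t _ => sw_in hρ ha1 y t
  rw [Real.norm_eq_abs, one_mul, abs_of_pos (sub_pos.2 hg.lt)] at h1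
  exact h1

/-- `Tr` of a nonnegative function grows with the interval -/
theorem Tr_mono {g g' : ℝ → ℝ} {α β α' β' ρ : ℝ} (hg : Pf g g' α' β') (h1 : α' ≤ α) (h2 : α ≤ β)
    (h3 : β ≤ β') (hρ : 0 < ρ) {a : ℝ × ℝ → ℝ} (ha : Measurable a)
    (ha1 : ∀ x, 0 ≤ a x ∧ a x ≤ 1) (y : ℝ × ℝ) : 0 ≤ Tr g α β ρ a y ∧
      Tr g α β ρ a y ≤ Tr g α' β' ρ a y := by
  have ha1' : ∀ x, |a x| ≤ 1 := fun x => by
    rw [abs_of_nonneg (ha1 x).1]
    exact (ha1 x).2
  have h0 : ∀ t, 0 ≤ (1 / ρ) * ∫ κ in (0 : ℝ)..ρ, a (y + (t, g t + κ)) := fun t =>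
    mul_nonneg (one_div_nonneg.2 hρ.le) (intervalIntegral.integral_nonneg hρ.le fun κ _ => (ha1 _).1)
  refine ⟨intervalIntegral.integral_nonneg h2 fun t _ => h0 t, ?_⟩
  refine intervalIntegral.integral_mono_interval h1 h2 h3 (Filter.Eventually.of_forall fun t => h0 t) ?_
  rw [intervalIntegrable_iff, uIoc_of_le (h1.trans (h2.trans h3))]
  unfold IntegrableOn
  refine Integrable.of_bound (sw_ms hg.meas hρ ha y).aestronglyMeasurable 1 (Filter.Eventually.of_forall fun t => ?_)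
  exact sw_in hρ ha1' y t

end Pool.Agent.DNB
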