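import Pool.Agent.DNB.Defs

/-!
# Symmetries of the square
-/

open Set MeasureTheory Filter Topology Metric
open Pool.Agent.Helper2.LM Pool.Agent.AEP Pool.Agent.H99N

namespace Pool.Agent.DNB

theorem dm_add (e : Bool × Bool × Bool) (x y : ℝ × ℝ) : dm e (x + y) = dm e x + dm e y := by
  obtain ⟨e1, e2, e3⟩ := e
  cases e1 <;> cases e2 <;> cases e3 <;> ext <;> simp [dm] <;> ring

theorem dm_sub (e : Bool × Bool × Bool) (x y : ℝ × ℝ) : dm e (x - y) = dm e x - dm e y := by
  obtain ⟨e1, e2, e3⟩ := e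
  cases e1 <;> cases e2 <;> cases e3 <;> ext <;> simp [dm] <;> ring

theorem dm_cont (e : Bool × Bool × Bool) : Continuous (dm e) := by
  obtain ⟨e1, e2, e3⟩ := e
  unfold dm
  cases e1 <;> cases e2 <;> cases e3 <;> simp only [Bool.false_eq_true, if_false, if_true] <;>
    fun_prop

/-- change of sign -/
private noncomputable def sg (b : Bool) (x : ℝ) : ℝ := if b then -x else x

private theorem sg_mp (b : Bool) : MeasurePreserving (sg b) (volume : Measure ℝ) volume := by
  cases b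
  · have h : sg false = id := by
      funext x
      simp [sg]
    rw [h]
    exact MeasurePreserving.id _
  · have h : sg true = Neg.neg := by
      funext x
      simp [sg]
    rw [h]
    exact Measure.measurePreserving_neg (volume : Measure ℝ)

private theorem dm_eq (e : Bool × Bool × Bool) (x : ℝ × ℝ) :
    dm e x = Prod.map (sg e.2.1) (sg e.2.2) (if e.1 then Prod.swap x else x) := by
  obtain ⟨e1, e2, e3⟩ := e
  cases e1 <;> rfl

theorem dm_mp (e : Bool × Bool × Bool) :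
    MeasurePreserving (dm e) (volume : Measure (ℝ × ℝ)) volume := by
  have h1 : MeasurePreserving (Prod.map (sg e.2.1) (sg e.2.2)) (volume : Measure (ℝ × ℝ)) volume := by
    rw [Measure.volume_eq_prod]
    exact (sg_mp _).prod (sg_mp _)
  have h2 : MeasurePreserving (fun x : ℝ × ℝ => if e.1 then Prod.swap x else x)
      (volume : Measure (ℝ × ℝ)) volume := by
    by_cases he : e.1 = true
    · simp only [he, if_true]
      rw [Measure.volume_eq_prod]
      exact Measure.measurePreserving_swap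
    · simp only [if_neg he]
      exact MeasurePreserving.id _
  have h3 : dm e = Prod.map (sg e.2.1) (sg e.2.2) ∘ fun x : ℝ × ℝ => if e.1 then Prod.swap x else x := by
    funext x
    exact dm_eq e x
  rw [h3]
  exact h1.comp h2

theorem dm_inv (e : Bool × Bool × Bool) : ∃ e', (∀ x, dm e (dm e' x) = x) ∧
    ∀ x, dm e' (dm e x) = x := by
  obtain ⟨e1, e2, e3⟩ := e
  cases e1
  · refine ⟨(false, e2, e3), fun x => ?_, fun x => ?_⟩ <;> cases e2 <;> cases e3 <;> simp [dm]
  · refine ⟨(true, e3, e2), fun x => ?_, fun x => ?_⟩ <;> cases e2 <;> cases e3 <;> simp [dm]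

theorem dm_Q2 (e : Bool × Bool × Bool) {x : ℝ × ℝ} (h : x ∈ Q2) : dm e x ∈ Q2 := by
  obtain ⟨q, rfl⟩ := h
  obtain ⟨e1, e2, e3⟩ := e
  refine ⟨(if e2 then -(if e1 then q.2 else q.1) else (if e1 then q.2 else q.1),
    if e3 then -(if e1 then q.1 else q.2) else (if e1 then q.1 else q.2)), ?_⟩
  cases e1 <;> cases e2 <;> cases e3 <;> simp [dm]

theorem cen_Q2 (n : ℕ) (z : ℤ × ℤ) : cen n z ∈ Q2 := by
  refine ⟨(((z.1 : ℚ) + 1 / 2) / n, ((z.2 : ℚ) + 1 / 2) / n), ?_⟩
  unfold cen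
  push_cast
  rfl

theorem cen_add (n : ℕ) (z s : ℤ × ℤ) : cen n (z + s) = cen n z + sc n s := by
  unfold cen sc
  ext
  · simp only [Prod.fst_add]
    push_cast
    ring
  · simp only [Prod.snd_add]
    push_cast
    ring

private theorem fl_neg {a : ℝ} (h : ∀ k : ℤ, a ≠ k) : ((⌊-a⌋ : ℤ) : ℝ) + 1 / 2 = -((⌊a⌋ : ℝ) + 1 / 2) := by
  have h1 : ⌊-a⌋ = -⌊a⌋ - 1 := by
    rw [Int.floor_eq_iff]
    push_cast
    have h2 := Int.floor_le a
    have h3 := Int.lt_floor_add_one a
    have h4 := lt_of_le_of_ne h2 (Ne.symm (h _))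
    constructor
    · linarith
    · linarith
  rw [h1]
  push_cast
  ring

private theorem ae_ne {n : ℕ} (hn : 0 < n) : ∀ᵐ a : ℝ, ∀ k : ℤ, (n : ℝ) * a ≠ k := by
  rw [ae_all_iff]
  intro k
  have h1 : (volume : Measure ℝ) {((k : ℝ) / n)} = 0 := Real.volume_singleton
  rw [ae_iff]
  refine measure_mono_null ?_ h1
  intro a ha
  have ha' : (n : ℝ) * a = k := not_not.1 ha
  have hn' : (n : ℝ) ≠ 0 := by exact_mod_cast hn.ne'
  rw [mem_singleton_iff, eq_div_iff hn', mul_comm]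
  exact ha'

theorem cen_cell_dm {n : ℕ} (hn : 0 < n) (e : Bool × Bool × Bool) :
    ∀ᵐ y : ℝ × ℝ, cen n (cell n (dm e y)) = dm e (cen n (cell n y)) := by
  have h1 : ∀ᵐ y : ℝ × ℝ, ∀ k : ℤ, (n : ℝ) * y.1 ≠ k := by
    rw [Measure.volume_eq_prod]
    exact (Measure.quasiMeasurePreserving_fst (μ := (volume : Measure ℝ))
      (ν := (volume : Measure ℝ))).ae (ae_ne hn)
  have h2 : ∀ᵐ y : ℝ × ℝ, ∀ k : ℤ, (n : ℝ) * y.2 ≠ k := by
    rw [Measure.volume_eq_prod]
    exact (Measure.quasiMeasurePreserving_snd (μ := (volume : Measure ℝ))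
      (ν := (volume : Measure ℝ))).ae (ae_ne hn)
  filter_upwards [h1, h2] with y hy1 hy2
  have k1 : ((⌊(n : ℝ) * -y.1⌋ : ℤ) : ℝ) + 1 / 2 = -((⌊(n : ℝ) * y.1⌋ : ℝ) + 1 / 2) := by
    rw [mul_neg]
    exact fl_neg hy1
  have k2 : ((⌊(n : ℝ) * -y.2⌋ : ℤ) : ℝ) + 1 / 2 = -((⌊(n : ℝ) * y.2⌋ : ℝ) + 1 / 2) := by
    rw [mul_neg]
    exact fl_neg hy2
  obtain ⟨e1, e2, e3⟩ := e
  unfold cen cell dm
  cases e1 <;> cases e2 <;> cases e3 <;>
    simp only [Bool.false_eq_true, if_false, if_true, k1, k2, neg_div]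

theorem measurable_cell (n : ℕ) : Measurable (cell n) := by
  unfold cell
  exact ((measurable_fst.const_mul _).floor).prodMk ((measurable_snd.const_mul _).floor)

end Pool.Agent.DNB
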