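import Pool.Agent.DNB.Wr
import Pool.Agent.DNB.Cmp
import Pool.Agent.DNB.Sw
import Pool.Agent.DNB.Sym

/-!
# The good choice: colourings and thickened arcs

The cell of `y` is in a box of lattice points, where `choice_box` and `cmp` apply.
-/

open Set MeasureTheory Filter Topology Metric
open Pool.Agent.Helper2.LM Pool.Agent.AEP Pool.Agent.H99N

namespace Pool.Agent.DNB

/-- the square `z` -/
private def EC (n : ℕ) (z : ℤ × ℤ) : Set (ℝ × ℝ) :=
  Ico ((z.1 : ℝ) / n) (((z.1 : ℝ) + 1) / n) ×ˢ Ico ((z.2 : ℝ) / n) (((z.2 : ℝ) + 1) / n)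

private theorem ea_mem {n : ℕ} (hn : 0 < n) (y : ℝ × ℝ) (z : ℤ × ℤ) :
    y ∈ EC n z ↔ cell n y = z := by
  have hn' : (0 : ℝ) < n := Nat.cast_pos.2 hn
  rw [EC, Set.mem_prod, Set.mem_Ico, Set.mem_Ico, div_le_iff₀ hn', lt_div_iff₀ hn',
    div_le_iff₀ hn', lt_div_iff₀ hn', cell, Prod.ext_iff, Int.floor_eq_iff, Int.floor_eq_iff,
    mul_comm y.1, mul_comm y.2]

private theorem ea_meas (n : ℕ) (z : ℤ × ℤ) : MeasurableSet (EC n z) :=
  measurableSet_Ico.prod measurableSet_Ico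

private theorem ea_vol {n : ℕ} (hn : 0 < n) (z : ℤ × ℤ) :
    (volume : Measure (ℝ × ℝ)) (EC n z) = ENNReal.ofReal (1 / (n : ℝ) ^ 2) := by
  have hn' : (0 : ℝ) < n := Nat.cast_pos.2 hn
  rw [EC, Measure.volume_eq_prod, Measure.prod_prod, Real.volume_Ico, Real.volume_Ico,
    ← ENNReal.ofReal_mul]
  · congr 1
    field_simp
    ring
  · rw [← sub_div, add_sub_cancel_left]
    positivity

private theorem ea_int {n : ℕ} (hn : 0 < n) (B : Set (ℝ × ℝ)) (z : ℤ × ℤ) :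
    ∫ y in B, (EC n z).indicator (1 : ℝ × ℝ → ℝ) y ≤ 1 / (n : ℝ) ^ 2 := by
  have h0 : (0 : ℝ) ≤ 1 / (n : ℝ) ^ 2 := by positivity
  rw [integral_indicator_one (ea_meas n z), measureReal_def]
  have h1 : ((volume : Measure (ℝ × ℝ)).restrict B) (EC n z) ≤ ENNReal.ofReal (1 / (n : ℝ) ^ 2) :=
    (Measure.restrict_le_self _).trans (ea_vol hn z).le
  calc (((volume : Measure (ℝ × ℝ)).restrict B) (EC n z)).toReal
      ≤ (ENNReal.ofReal (1 / (n : ℝ) ^ 2)).toReal := ENNReal.toReal_mono ENNReal.ofReal_ne_top h1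
    _ = 1 / (n : ℝ) ^ 2 := ENNReal.toReal_ofReal h0

private theorem ea_integrable {n : ℕ} (hn : 0 < n) (B : Set (ℝ × ℝ)) (z : ℤ × ℤ) :
    Integrable ((EC n z).indicator (1 : ℝ × ℝ → ℝ)) ((volume : Measure (ℝ × ℝ)).restrict B) := by
  rw [integrable_indicator_iff (ea_meas n z)]
  refine integrableOn_const ?_
  refine ((Measure.restrict_le_self _).trans_lt ?_).ne
  rw [ea_vol hn z]
  exact ENNReal.ofReal_lt_top

/-- bound of the integral of a function which is bounded by a function of the cell -/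
private theorem ea_bound {n : ℕ} (hn : 0 < n) (B : Set (ℝ × ℝ)) (hB : MeasurableSet B)
    (Z : Finset (ℤ × ℤ)) (hZ : ∀ y ∈ B, cell n y ∈ Z) (f : ℝ × ℝ → ℝ) (Φ : ℤ × ℤ → ℝ)
    (hf : ∀ y, 0 ≤ f y) (hΦ : ∀ z, 0 ≤ Φ z) (hfΦ : ∀ y, f y ≤ Φ (cell n y)) :
    ∫ y in B, f y ≤ (∑ z ∈ Z, Φ z) * (1 / (n : ℝ) ^ 2) := by
  have h1 : ∫ y in B, f y ≤
      ∫ y in B, ∑ z ∈ Z, Φ z * (EC n z).indicator (1 : ℝ × ℝ → ℝ) y := by
    refine integral_mono_of_nonneg (Eventually.of_forall hf)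
      (integrable_finsetSum Z fun z _ => (ea_integrable hn B z).const_mul (Φ z)) ?_
    rw [Filter.EventuallyLE, ae_restrict_iff' hB]
    refine Eventually.of_forall fun y hy => ?_
    refine (hfΦ y).trans ?_
    have h2 : Φ (cell n y) = Φ (cell n y) *
        (EC n (cell n y)).indicator (1 : ℝ × ℝ → ℝ) y := by
      rw [Set.indicator_of_mem ((ea_mem hn y _).2 rfl), Pi.one_apply, mul_one]
    rw [h2]
    refine Finset.single_le_sum (f := fun z => Φ z * (EC n z).indicator (1 : ℝ × ℝ → ℝ) y)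
      (fun z _ => ?_) (hZ y hy)
    exact mul_nonneg (hΦ z) (Set.indicator_nonneg (fun _ _ => zero_le_one) y)
  refine h1.trans ?_
  rw [integral_finsetSum Z fun z _ => (ea_integrable hn B z).const_mul (Φ z), Finset.sum_mul]
  refine Finset.sum_le_sum fun z _ => ?_
  rw [integral_const_mul]
  exact mul_le_mul_of_nonneg_left (ea_int hn B z) (hΦ z)

private theorem ea_cell {n R : ℕ} (hn : 0 < n) {y : ℝ × ℝ} (hy : y ∈ closedBall (0 : ℝ × ℝ) R) :
    cell n y ∈ box (-((R * n : ℕ) : ℤ), -((R * n : ℕ) : ℤ)) (2 * R * n + 1) := by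
  have hn' : (0 : ℝ) < n := Nat.cast_pos.2 hn
  rw [mem_closedBall_zero_iff, Prod.norm_def, max_le_iff, Real.norm_eq_abs, Real.norm_eq_abs,
    abs_le, abs_le] at hy
  obtain ⟨⟨h1, h2⟩, h3, h4⟩ := hy
  have key : ∀ t : ℝ, -(R : ℝ) ≤ t → t ≤ R → ⌊(n : ℝ) * t⌋ ∈
      Finset.Ico (-((R * n : ℕ) : ℤ)) (-((R * n : ℕ) : ℤ) + ((2 * R * n + 1 : ℕ) : ℤ)) := by
    intro t ht ht'
    rw [Finset.mem_Ico]
    constructor
    · rw [Int.le_floor]
      push_cast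
      nlinarith
    · have h5 : ⌊(n : ℝ) * t⌋ ≤ ((R * n : ℕ) : ℤ) := by
        have h6 : (⌊(n : ℝ) * t⌋ : ℝ) ≤ ((R * n : ℕ) : ℝ) :=
          (Int.floor_le _).trans (by push_cast; nlinarith)
        exact_mod_cast h6
      push_cast at h5 ⊢
      nlinarith
  exact Finset.mem_product.2 ⟨key _ h1 h2, key _ h3 h4⟩

private theorem ea_card (c : ℤ × ℤ) (M : ℕ) : (box c M).card = M * M := by
  rw [box, Finset.card_product, Int.card_Ico, Int.card_Ico]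
  simp

theorem ens_A {g g' : ℝ → ℝ} {α β Λ : ℝ} (hpf : Pf g g' α β) (hα : 0 ≤ α) (hβ : β ≤ 1)
    (hΛ : 0 ≤ Λ) (hg : ∀ s ∈ Icc α β, ∀ t ∈ Icc α β, |g s - g t| ≤ Λ * |s - t|)
    (hg1 : ∀ t ∈ Icc α β, 0 ≤ g t ∧ g t ≤ 1) {n N L G K A R : ℕ} (hn : 0 < n) (hN : 0 < N)
    (hL : 0 < L) (hK : 0 < K) (hKn : K < n) (hA : α * n ≤ A)
    (hB : (A : ℝ) + N * (L + G) ≤ β * n) {η : ℝ} (hη : 0 < η)
    (h : 4 * ((2 * R + 3) * n : ℝ) ^ 2 * Real.exp (-(N * η ^ 2 / 2)) < 1) :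
    ∃ ω : Fin N → Fin L × Fin K, ∀ H : ℤ × ℤ → ℝ, (∀ z, 0 ≤ H z ∧ H z ≤ 1) →
      (∀ z j, H z * H (z + pt g n (A + j * (L + G) + (ω j).1) (ω j).2) = 0) →
      ∫ y in closedBall (0 : ℝ × ℝ) R,
        H (cell n y) * Tr g α β (K / n) (fun x => H (cell n x)) y ≤
      4 * η * (2 * R + 3) ^ 2 + (2 * R + 1) ^ 2 *
        ((β - α) * (2 + Λ) / K + ((β - α) * n + 2 - N * L) / n) := by
  have hn' : (0 : ℝ) < n := Nat.cast_pos.2 hn
  have hN' : (0 : ℝ) < N := Nat.cast_pos.2 hN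
  have hL' : (0 : ℝ) < L := Nat.cast_pos.2 hL
  have hK' : (0 : ℝ) < K := Nat.cast_pos.2 hK
  have hαβ : α < β := hpf.lt
  have _ : Nonempty (Fin L × Fin K) := ⟨(⟨0, hL⟩, ⟨0, hK⟩)⟩
  -- the abscissae
  have hu : ∀ (j : Fin N) (l : Fin L), α * n ≤ ((A + j * (L + G) + l : ℕ) : ℝ) ∧
      ((A + j * (L + G) + l : ℕ) : ℝ) ≤ β * n := by
    intro j l
    constructor
    · refine hA.trans ?_
      exact_mod_cast (by omega : A ≤ A + j * (L + G) + l)
    · refine le_trans ?_ hB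
      have h1 : (j : ℕ) + 1 ≤ N := j.2
      have h2 : (l : ℕ) < L := l.2
      have h3 : ((j : ℕ) + 1) * (L + G) ≤ N * (L + G) := Nat.mul_le_mul_right _ h1
      have h4 : A + (j : ℕ) * (L + G) + l ≤ A + N * (L + G) := by nlinarith
      exact_mod_cast h4
  have hNL : (N : ℝ) * L ≤ (β - α) * n := by
    have h1 : (0 : ℝ) ≤ N * G := by positivity
    nlinarith
  have hAn : (0 : ℝ) ≤ α * n := mul_nonneg hα hn'.le
  have hβn : β * n ≤ n := by nlinarith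
  have hNLn : (N : ℝ) * L ≤ n := by nlinarith
  -- the points
  have hP : ∀ (j : Fin N) (w : Fin L × Fin K),
      0 ≤ (pt g n (A + j * (L + G) + w.1) w.2).1 ∧
      (pt g n (A + j * (L + G) + w.1) w.2).1 + ((2 * R * n + 1 : ℕ) : ℤ) ≤
        (((2 * R + 3) * n : ℕ) : ℤ) ∧
      0 ≤ (pt g n (A + j * (L + G) + w.1) w.2).2 ∧
      (pt g n (A + j * (L + G) + w.1) w.2).2 + ((2 * R * n + 1 : ℕ) : ℤ) ≤
        (((2 * R + 3) * n : ℕ) : ℤ) := by
    intro j w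
    obtain ⟨h1, h2⟩ := hu j w.1
    obtain ⟨u, hu'⟩ : ∃ u : ℕ, u = A + j * (L + G) + w.1 := ⟨_, rfl⟩
    rw [← hu'] at h1 h2 ⊢
    have h3 : u ≤ n := by
      have h4 : (u : ℝ) ≤ n := h2.trans hβn
      exact_mod_cast h4
    have h5 : (u : ℝ) / n ∈ Icc α β := ⟨(le_div_iff₀ hn').2 h1, (div_le_iff₀ hn').2 h2⟩
    obtain ⟨h6, h7⟩ := hg1 _ h5
    have h8 : 0 ≤ ⌊(n : ℝ) * g ((u : ℝ) / n)⌋ := Int.floor_nonneg.2 (mul_nonneg hn'.le h6)
    have h9 : ⌊(n : ℝ) * g ((u : ℝ) / n)⌋ ≤ (n : ℤ) := by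
      have h10 : (⌊(n : ℝ) * g ((u : ℝ) / n)⌋ : ℝ) ≤ (n : ℝ) :=
        (Int.floor_le _).trans (by nlinarith)
      exact_mod_cast h10
    have h11 : (w.2 : ℕ) < K := w.2.2
    have h12 : (1 : ℤ) ≤ n := by exact_mod_cast hn
    have h13 : ((u : ℕ) : ℤ) ≤ n := by exact_mod_cast h3
    have h14 : (((w.2 : ℕ) : ℤ)) + 1 ≤ n := by
      have : (w.2 : ℕ) + 1 ≤ n := by omega
      exact_mod_cast this
    have h15 : (0 : ℤ) ≤ ((w.2 : ℕ) : ℤ) := Int.natCast_nonneg _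
    unfold pt
    refine ⟨Int.natCast_nonneg _, ?_, ?_, ?_⟩
    · push_cast
      nlinarith
    · show 0 ≤ ⌊(n : ℝ) * g ((u : ℝ) / n)⌋ + ((w.2 : ℕ) : ℤ)
      omega
    · show ⌊(n : ℝ) * g ((u : ℝ) / n)⌋ + ((w.2 : ℕ) : ℤ) + _ ≤ _
      push_cast
      nlinarith
  have hexp : 4 * (((2 * R + 3) * n : ℕ) : ℝ) ^ 2 * Real.exp (-(N * η ^ 2 / 2)) < 1 := by
    push_cast
    exact h
  obtain ⟨ω, hω⟩ := choice_box (M := 2 * R * n + 1) (m := (2 * R + 3) * n) hN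
    (fun (j : Fin N) (w : Fin L × Fin K) => pt g n (A + j * (L + G) + w.1) w.2) hP hη hexp
  refine ⟨ω, fun H hH hHz => ?_⟩
  have hω' := hω (-((R * n : ℕ) : ℤ), -((R * n : ℕ) : ℤ)) H fun z => by
    rw [abs_of_nonneg (hH z).1]
    exact (hH z).2
  -- the bounding function
  obtain ⟨err, herr⟩ : ∃ err : ℝ, err =
      (β - α) * (2 + Λ) / K + ((β - α) * n + 2 - N * L) / n := ⟨_, rfl⟩
  have herr0 : 0 ≤ err := by
    rw [herr]
    have h1 : 0 ≤ (β - α) * (2 + Λ) / K := by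
      have : 0 ≤ β - α := by linarith
      positivity
    have h2 : 0 ≤ ((β - α) * n + 2 - N * L) / n := div_nonneg (by linarith) hn'.le
    linarith
  set Sg : ℤ × ℤ → ℝ := fun z =>
    ∑ j : Fin N, ∑ w : Fin L × Fin K, H (z + pt g n (A + j * (L + G) + w.1) w.2) with hSg
  have hSg0 : ∀ z, 0 ≤ Sg z := fun z =>
    Finset.sum_nonneg fun j _ => Finset.sum_nonneg fun w _ => (hH _).1
  have hSgr : ∀ z, (∑ j ∈ Finset.range N, ∑ l ∈ Finset.range L, ∑ k ∈ Finset.range K,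
      H (z + pt g n (A + j * (L + G) + l) k)) = Sg z := by
    intro z
    rw [Finset.sum_range, hSg]
    refine Finset.sum_congr rfl fun j _ => ?_
    rw [Fintype.sum_prod_type, Finset.sum_range]
    refine Finset.sum_congr rfl fun l _ => ?_
    rw [Finset.sum_range]
  have hmeas : Measurable fun x : ℝ × ℝ => H (cell n x) :=
    (measurable_of_countable H).comp (measurable_cell n)
  have hρ : (0 : ℝ) < K / n := div_pos hK' hn'
  have hTr0 : ∀ y, 0 ≤ Tr g α β (K / n) (fun x => H (cell n x)) y := fun y =>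
    (Tr_mono hpf le_rfl hαβ.le le_rfl hρ hmeas (fun x => hH _) y).1
  have hb := ea_bound hn (closedBall (0 : ℝ × ℝ) R) isClosed_closedBall.measurableSet
    (box (-((R * n : ℕ) : ℤ), -((R * n : ℕ) : ℤ)) (2 * R * n + 1)) (fun y hy => ea_cell hn hy)
    (fun y => H (cell n y) * Tr g α β (K / n) (fun x => H (cell n x)) y)
    (fun z => H z * (Sg z / (n * K) + err)) (fun y => mul_nonneg (hH _).1 (hTr0 y))
    (fun z => mul_nonneg (hH z).1 (add_nonneg (div_nonneg (hSg0 z) (by positivity)) herr0))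
    (fun y => mul_le_mul_of_nonneg_left (by
      have h1 := cmp hH hpf.meas hαβ.le hΛ hg hn hK hA hB y
      rw [hSgr, add_assoc, ← herr] at h1
      exact h1) (hH _).1)
  refine hb.trans ?_
  -- the two sums
  set Z := box (-((R * n : ℕ) : ℤ), -((R * n : ℕ) : ℤ)) (2 * R * n + 1) with hZ
  have e1 : ∑ z ∈ Z, H z * (Sg z / (n * K) + err) =
      (∑ z ∈ Z, H z * Sg z) / (n * K) + (∑ z ∈ Z, H z) * err := by
    rw [Finset.sum_div, Finset.sum_mul, ← Finset.sum_add_distrib]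
    refine Finset.sum_congr rfl fun z _ => ?_
    ring
  have e2 : ∑ z ∈ Z, H z ≤ ((2 * R + 1) * n : ℝ) ^ 2 := by
    have h1 : ∑ z ∈ Z, H z ≤ ∑ _z ∈ Z, (1 : ℝ) := Finset.sum_le_sum fun z _ => (hH z).2
    rw [Finset.sum_const, hZ, ea_card, nsmul_eq_mul, mul_one] at h1
    refine h1.trans ?_
    push_cast
    have h2 : (2 * R * n + 1 : ℝ) ≤ (2 * R + 1) * n := by
      have h3 : (1 : ℝ) ≤ n := by exact_mod_cast hn
      nlinarith
    have h4 : (0 : ℝ) ≤ 2 * R * n + 1 := by positivity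
    nlinarith
  have e3 : ∑ z ∈ Z, H z * Sg z ≤ 4 * η * ((2 * R + 3) * n) ^ 2 * (N * (L * K)) := by
    have hω2 : |∑ z ∈ Z, H z *
        ((∑ j : Fin N, H (z + pt g n (A + j * (L + G) + (ω j).1) (ω j).2)) / N -
        (∑ j : Fin N, ∑ w : Fin L × Fin K, H (z + pt g n (A + j * (L + G) + w.1) w.2)) /
        (N * Fintype.card (Fin L × Fin K)))| ≤ 4 * η * (((2 * R + 3) * n : ℕ) : ℝ) ^ 2 := hω'
    have h1 : ∑ z ∈ Z, H z *
        ((∑ j : Fin N, H (z + pt g n (A + j * (L + G) + (ω j).1) (ω j).2)) / N -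
        (∑ j : Fin N, ∑ w : Fin L × Fin K, H (z + pt g n (A + j * (L + G) + w.1) w.2)) /
        (N * Fintype.card (Fin L × Fin K))) = -((∑ z ∈ Z, H z * Sg z) / (N * (L * K))) := by
      rw [Finset.sum_div, ← Finset.sum_neg_distrib]
      refine Finset.sum_congr rfl fun z _ => ?_
      have h2 : H z *
          (∑ j : Fin N, H (z + pt g n (A + j * (L + G) + (ω j).1) (ω j).2)) = 0 := by
        rw [Finset.mul_sum]
        exact Finset.sum_eq_zero fun j _ => hHz z j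
      rw [Fintype.card_prod, Fintype.card_fin, Fintype.card_fin, Nat.cast_mul, mul_sub,
        ← mul_div_assoc, h2, zero_div, zero_sub, ← mul_div_assoc]
    rw [h1, abs_neg] at hω2
    have h3 := (le_abs_self _).trans hω2
    rw [div_le_iff₀ (by positivity)] at h3
    push_cast at h3
    exact h3
  rw [e1, ← herr]
  have hnK : (0 : ℝ) < n * K := by positivity
  have e4 : (∑ z ∈ Z, H z * Sg z) / (n * K) ≤
      4 * η * ((2 * R + 3) * n) ^ 2 * (N * (L * K)) / (n * K) :=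
    div_le_div_of_nonneg_right e3 hnK.le
  have e5 : 4 * η * ((2 * R + 3) * n) ^ 2 * (N * (L * K)) / (n * K) =
      4 * η * (2 * R + 3) ^ 2 * (n : ℝ) ^ 2 * ((N * L) / n) := by
    field_simp
  have e6 : (N * L : ℝ) / n ≤ 1 := by
    rw [div_le_one hn']
    exact hNLn
  have e7 : 4 * η * (2 * R + 3) ^ 2 * (n : ℝ) ^ 2 * ((N * L) / n) ≤
      4 * η * (2 * R + 3) ^ 2 * (n : ℝ) ^ 2 := by
    have h1 : 0 ≤ 4 * η * (2 * R + 3 : ℝ) ^ 2 * (n : ℝ) ^ 2 := by positivity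
    nlinarith
  have e8 : (∑ z ∈ Z, H z) * err ≤ ((2 * R + 1) * n : ℝ) ^ 2 * err :=
    mul_le_mul_of_nonneg_right e2 herr0
  have e9 : (∑ z ∈ Z, H z * Sg z) / (n * K) + (∑ z ∈ Z, H z) * err ≤
      (4 * η * (2 * R + 3) ^ 2 + (2 * R + 1) ^ 2 * err) * (n : ℝ) ^ 2 := by
    rw [e5] at e4
    have h1 := add_le_add (e4.trans e7) e8
    refine h1.trans (le_of_eq ?_)
    ring
  have e10 : (0 : ℝ) ≤ 1 / (n : ℝ) ^ 2 := by positivity
  refine (mul_le_mul_of_nonneg_right e9 e10).trans (le_of_eq ?_)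
  field_simp

end Pool.Agent.DNB
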