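import Pool.Agent.DNB.Asm
import Pool.Agent.DNB.Cp2

/-!
# The final form
-/

open Set MeasureTheory Filter Topology Metric
open Pool.Agent.Helper2.LM Pool.Agent.AEP Pool.Agent.H99N

namespace Pool.Agent.DNB

theorem final {p : ℝ} (hp1 : 1 < p) {ε : ℝ} (hε : 0 < ε) :
    ∃ N : Seminorm ℝ (ℝ × ℝ), (∀ x, N x = 0 → x = 0) ∧
      (∀ x y, N x = 1 → N y = 1 → x ≠ y → N (x + y) < 2) ∧
      (∀ a b : ℝ, N (b, a) = N (a, b) ∧ N (-a, b) = N (a, b) ∧ N (a, -b) = N (a, b)) ∧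
      (∀ a b : ℝ, |N (a, b) - (|a| ^ p + |b| ^ p) ^ (1 / p)| ≤
        ε * (|a| ^ p + |b| ^ p) ^ (1 / p)) ∧
      ∃ X : Finset (ℚ × ℚ), ∀ κ : ℚ × ℚ → Fin 4, ∃ x ∈ X, ∃ y ∈ X, κ x = κ y ∧
        N ((x.1 : ℝ) - y.1, (x.2 : ℝ) - y.2) = 1 := by
  obtain ⟨N, hN, h⟩ := main (ε := min ε (1 / 2)) hp1 (lt_min hε (by norm_num))
    (lt_of_le_of_lt (min_le_right _ _) (by norm_num))
  refine ⟨N, hN.ne, hN.strict, ?_, ?_, finite_of_Q2 h⟩
  · intro a b
    have h1 := hN.sym (true, false, false) (a, b)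
    have h2 := hN.sym (false, true, false) (a, b)
    have h3 := hN.sym (false, false, true) (a, b)
    simp only [dm] at h1 h2 h3
    exact ⟨h1, h2, h3⟩
  · intro a b
    have h1 := hN.near (a, b)
    refine h1.trans (mul_le_mul_of_nonneg_right (min_le_left _ _) ?_)
    unfold hp
    positivity

end Pool.Agent.DNB
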