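import Pool.Agent.DNB.Defs

/-!
# The profile of the unit circle of the l_p norm

Plan. For `0 < t < 1`: `0 < t ^ p < 1`, so `1 - t ^ p ∈ (0, 1)`; the chain rule
(`Real.hasDerivAt_rpow_const`, `HasDerivAt.rpow_const`) gives
`gp' = -(t ^ (p - 1)) * (1 - t ^ p) ^ (1 / p - 1)`; it is strictly decreasing: both factors
`t ^ (p - 1)` and `(1 - t ^ p) ^ (1 / p - 1)` are positive and increasing (`1 / p - 1 < 0`), the first
strictly (`Real.rpow_lt_rpow`, `Real.rpow_le_rpow_of_nonpos` or similar). Lipschitz: the derivative is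
bounded on `[α, β]`, `0 < α`, `β < 1` (continuous on a compact set), use
`Convex.norm_image_sub_le_of_norm_deriv_le` or `Convex.lipschitzOnWith_of_nnnorm_deriv_le`.
`xs p ^ p = 1 / 2`, `gp p (xs p) = xs p`, `gp p` is strictly decreasing on `[0, 1]`, so
`xs p < gp p t ≤ 1` for `0 ≤ t < xs p`. `mem`: `t ^ p + gp p t ^ p = 1`.
-/

open Set MeasureTheory Filter Topology Metric
open Pool.Agent.Helper2.LM Pool.Agent.AEP Pool.Agent.H99N

namespace Pool.Agent.DNB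

/-- the derivative of the profile -/
noncomputable def gpd (p t : ℝ) : ℝ := -(t ^ (p - 1)) * (1 - t ^ p) ^ (1 / p - 1)

theorem xs_pos {p : ℝ} (hp : 1 < p) : 0 < xs p ∧ xs p < 1 := by
  have hp0 : 0 < p := by linarith
  unfold xs
  exact ⟨Real.rpow_pos_of_pos (by norm_num) _,
    Real.rpow_lt_one (by norm_num) (by norm_num) (one_div_pos.2 hp0)⟩

private theorem gp_u {p t : ℝ} (hp : 1 < p) (h0 : 0 < t) (h1 : t < 1) :
    0 < t ^ p ∧ t ^ p < 1 ∧ 0 < 1 - t ^ p := by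
  have h2 := Real.rpow_pos_of_pos h0 p
  have h3 := Real.rpow_lt_one h0.le h1 (by linarith : 0 < p)
  exact ⟨h2, h3, by linarith⟩

private theorem gp_der {p t : ℝ} (hp : 1 < p) (h0 : 0 < t) (h1 : t < 1) :
    HasDerivAt (gp p) (gpd p t) t := by
  obtain ⟨h2, h3, h4⟩ := gp_u hp h0 h1
  have hd : HasDerivAt (fun x : ℝ => 1 - x ^ p) (-(p * t ^ (p - 1))) t :=
    (Real.hasDerivAt_rpow_const (Or.inl h0.ne')).const_sub 1
  have hd2 := hd.rpow_const (p := 1 / p) (Or.inl h4.ne')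
  have e : -(p * t ^ (p - 1)) * (1 / p) * (1 - t ^ p) ^ (1 / p - 1) = gpd p t := by
    unfold gpd
    have hp0 : p ≠ 0 := by linarith
    field_simp
  rw [e] at hd2
  exact hd2

private theorem gp_cont {p : ℝ} (hp : 1 < p) : Continuous (gp p) := by
  have hp0 : 0 < p := by linarith
  unfold gp
  exact (continuous_const.sub (continuous_id.rpow_const (fun _ => Or.inr hp0.le))).rpow_const
    (fun _ => Or.inr (one_div_pos.2 hp0).le)

private theorem gp_e {p : ℝ} (hp : 1 < p) : 1 / p - 1 ≤ 0 := by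
  have hp0 : 0 < p := by linarith
  have : 1 / p ≤ 1 := by
    rw [div_le_one hp0]
    exact hp.le
  linarith

theorem gp_pf {p : ℝ} (hp : 1 < p) {α β : ℝ} (hα : 0 < α) (hαβ : α < β) (hβ : β < 1) :
    Pf (gp p) (gpd p) α β := by
  refine ⟨hαβ, (gp_cont hp).measurable, (gp_cont hp).continuousOn, ?_, ?_⟩
  · intro t ht
    exact gp_der hp (hα.trans ht.1) (ht.2.trans hβ)
  · intro s hs t ht hst
    have hs0 : 0 < s := hα.trans hs.1
    have ht0 : 0 < t := hα.trans ht.1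
    obtain ⟨s1, s2, s3⟩ := gp_u hp hs0 (hs.2.trans hβ)
    obtain ⟨t1, t2, t3⟩ := gp_u hp ht0 (ht.2.trans hβ)
    have h1 : s ^ (p - 1) < t ^ (p - 1) := Real.rpow_lt_rpow hs0.le hst (by linarith)
    have h2 : s ^ p ≤ t ^ p := Real.rpow_le_rpow hs0.le hst.le (by linarith)
    have h3 : (1 - s ^ p) ^ (1 / p - 1) ≤ (1 - t ^ p) ^ (1 / p - 1) :=
      Real.rpow_le_rpow_of_nonpos t3 (by linarith) (gp_e hp)
    have h4 : 0 < (1 - s ^ p) ^ (1 / p - 1) := Real.rpow_pos_of_pos s3 _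
    have h5 : 0 < t ^ (p - 1) := Real.rpow_pos_of_pos ht0 _
    show gpd p t < gpd p s
    unfold gpd
    have h6 : s ^ (p - 1) * (1 - s ^ p) ^ (1 / p - 1) < t ^ (p - 1) * (1 - t ^ p) ^ (1 / p - 1) :=
      mul_lt_mul h1 h3 h4 h5.le
    linarith

theorem gp_lip {p : ℝ} (hp : 1 < p) {α β : ℝ} (hα : 0 < α) (hαβ : α < β) (hβ : β < 1) :
    ∃ Λ : ℝ, 0 ≤ Λ ∧ ∀ s ∈ Icc α β, ∀ t ∈ Icc α β, |gp p s - gp p t| ≤ Λ * |s - t| := by
  have hβ0 : 0 < β := hα.trans hαβ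
  obtain ⟨b1, b2, b3⟩ := gp_u hp hβ0 hβ
  refine ⟨(1 - β ^ p) ^ (1 / p - 1), (Real.rpow_pos_of_pos b3 _).le, ?_⟩
  intro s hs t ht
  have hb : ∀ x ∈ Icc α β, ‖gpd p x‖ ≤ (1 - β ^ p) ^ (1 / p - 1) := by
    intro x hx
    have hx0 : 0 < x := hα.trans_le hx.1
    have hx1 : x < 1 := hx.2.trans_lt hβ
    obtain ⟨x1, x2, x3⟩ := gp_u hp hx0 hx1
    have h2 : x ^ p ≤ β ^ p := Real.rpow_le_rpow hx0.le hx.2 (by linarith)
    have h3 : (1 - x ^ p) ^ (1 / p - 1) ≤ (1 - β ^ p) ^ (1 / p - 1) :=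
      Real.rpow_le_rpow_of_nonpos b3 (by linarith) (gp_e hp)
    have h4 : 0 < (1 - x ^ p) ^ (1 / p - 1) := Real.rpow_pos_of_pos x3 _
    have h5 : 0 < x ^ (p - 1) := Real.rpow_pos_of_pos hx0 _
    have h6 : x ^ (p - 1) ≤ 1 := Real.rpow_le_one hx0.le hx1.le (by linarith)
    unfold gpd
    rw [Real.norm_eq_abs, neg_mul, abs_neg, abs_of_pos (mul_pos h5 h4)]
    calc x ^ (p - 1) * (1 - x ^ p) ^ (1 / p - 1) ≤ 1 * (1 - x ^ p) ^ (1 / p - 1) :=
          mul_le_mul_of_nonneg_right h6 h4.le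
      _ ≤ _ := by rw [one_mul]; exact h3
  have h1 := Convex.norm_image_sub_le_of_norm_hasDerivWithin_le (f := gp p) (f' := gpd p) (s := Icc α β)
    (fun x hx => (gp_der hp (hα.trans_le hx.1) (hx.2.trans_lt hβ)).hasDerivWithinAt) hb
    (convex_Icc α β) ht hs
  rw [Real.norm_eq_abs, Real.norm_eq_abs] at h1
  exact h1

private theorem xs_pow {p : ℝ} (hp : 1 < p) : xs p ^ p = 1 / 2 := by
  unfold xs
  rw [← Real.rpow_mul (by norm_num), one_div_mul_cancel (by linarith), Real.rpow_one]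

theorem gp_bd {p : ℝ} (hp : 1 < p) {t : ℝ} (h0 : 0 ≤ t) (h1 : t < xs p) :
    xs p < gp p t ∧ gp p t ≤ 1 := by
  have hp0 : 0 < p := by linarith
  have h2 : t ^ p < 1 / 2 := by
    rw [← xs_pow hp]
    exact Real.rpow_lt_rpow h0 h1 hp0
  have h3 : 0 ≤ t ^ p := Real.rpow_nonneg h0 p
  constructor
  · unfold xs gp
    exact Real.rpow_lt_rpow (by norm_num) (by linarith) (one_div_pos.2 hp0)
  · unfold gp
    exact Real.rpow_le_one (by linarith) (by linarith) (one_div_pos.2 hp0).le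

theorem gp_anti {p : ℝ} (hp : 1 < p) {s t : ℝ} (h0 : 0 ≤ s) (h1 : s ≤ t) (h2 : t ≤ 1) :
    gp p t ≤ gp p s := by
  have hp0 : 0 < p := by linarith
  have h3 : s ^ p ≤ t ^ p := Real.rpow_le_rpow h0 h1 hp0.le
  have h4 : t ^ p ≤ 1 := Real.rpow_le_one (h0.trans h1) h2 hp0.le
  unfold gp
  exact Real.rpow_le_rpow (by linarith) (by linarith) (one_div_pos.2 hp0).le

theorem gp_mem {p : ℝ} (hp : 1 < p) {t : ℝ} (h0 : 0 ≤ t) (h1 : t ≤ 1) :
    0 ≤ gp p t ∧ t ^ p + gp p t ^ p = 1 := by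
  have hp0 : 0 < p := by linarith
  have h4 : t ^ p ≤ 1 := Real.rpow_le_one h0 h1 hp0.le
  unfold gp
  refine ⟨Real.rpow_nonneg (by linarith) _, ?_⟩
  rw [← Real.rpow_mul (by linarith), one_div_mul_cancel hp0.ne', Real.rpow_one]
  ring

end Pool.Agent.DNB
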