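import Pool.Agent.DNB.Defs

/-!
# Hoeffding bound in counting form

Plan. Suppose the claim fails: every `ω` has a `c` with `|∑ j, X c j (ω j)| > η * N`, so
`exp (η * S) + exp (-η * S) > exp (η ^ 2 * N)` for `S = ∑ j, X c j (ω j)`. Sum over all `ω`:
`card ι ^ N * exp (η ^ 2 * N) ≤ ∑ c, ∑ ω, (exp (η * S c ω) + exp (-η * S c ω))`. For fixed `c`
`∑ ω, exp (η * ∑ j, X c j (ω j)) = ∏ j, ∑ w, exp (η * X c j w)` (`Real.exp_sum`,
`Finset.mul_sum`, `Finset.prod_univ_sum`, `Fintype.piFinset_univ`) and, for `|x| ≤ 1`,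
`exp (η * x) ≤ cosh η + x * sinh η` (convexity of `exp`: `x = ((1+x)/2) * 1 + ((1-x)/2) * (-1)`), so
`∑ w, exp (η * X c j w) ≤ card ι * cosh η ≤ card ι * exp (η ^ 2 / 2)`
(`Real.cosh_le_exp_half_sq`); the same with `-η`. Total
`card ι ^ N * exp (η ^ 2 * N) ≤ 2 * card C * card ι ^ N * exp (η ^ 2 / 2 * N)`, i.e.
`1 ≤ 2 * card C * exp (-(N * η ^ 2 / 2))`, a contradiction. (If `N = 0` the claim is trivial, the same
argument works.)
-/

open Set MeasureTheory Filter Topology Metric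
open Pool.Agent.Helper2.LM Pool.Agent.AEP Pool.Agent.H99N

namespace Pool.Agent.DNB

private theorem hf_cvx {t x : ℝ} (hx : |x| ≤ 1) :
    Real.exp (t * x) ≤ Real.cosh t + x * Real.sinh t := by
  obtain ⟨h1, h2⟩ := abs_le.1 hx
  have h := convexOn_exp.2 (Set.mem_univ t) (Set.mem_univ (-t)) (show 0 ≤ (1 + x) / 2 by linarith)
    (show 0 ≤ (1 - x) / 2 by linarith) (by ring)
  simp only [smul_eq_mul] at h
  have e : (1 + x) / 2 * t + (1 - x) / 2 * -t = t * x := by ring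
  rw [e] at h
  refine h.trans (le_of_eq ?_)
  rw [Real.cosh_eq, Real.sinh_eq]
  ring

private theorem hf_prod {ι : Type} [Fintype ι] {N : ℕ} (X : Fin N → ι → ℝ)
    (h1 : ∀ j w, |X j w| ≤ 1) (h0 : ∀ j, ∑ w, X j w = 0) (t : ℝ) :
    ∑ ω : Fin N → ι, Real.exp (t * ∑ j, X j (ω j)) ≤
      ((Fintype.card ι : ℝ) * Real.exp (t ^ 2 / 2)) ^ N := by
  have e : ∑ ω : Fin N → ι, Real.exp (t * ∑ j, X j (ω j)) = ∏ j, ∑ w, Real.exp (t * X j w) := by
    rw [Finset.prod_univ_sum, Fintype.piFinset_univ]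
    refine Finset.sum_congr rfl fun ω _ => ?_
    rw [Finset.mul_sum, Real.exp_sum]
  rw [e]
  have h : ∀ j : Fin N, ∑ w, Real.exp (t * X j w) ≤ (Fintype.card ι : ℝ) * Real.exp (t ^ 2 / 2) := by
    intro j
    calc ∑ w, Real.exp (t * X j w) ≤ ∑ w, (Real.cosh t + X j w * Real.sinh t) :=
          Finset.sum_le_sum fun w _ => hf_cvx (h1 j w)
      _ = (Fintype.card ι : ℝ) * Real.cosh t := by
          rw [Finset.sum_add_distrib, ← Finset.sum_mul, h0 j, zero_mul, add_zero, Finset.sum_const,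
            Finset.card_univ, nsmul_eq_mul]
      _ ≤ (Fintype.card ι : ℝ) * Real.exp (t ^ 2 / 2) :=
          mul_le_mul_of_nonneg_left (Real.cosh_le_exp_half_sq t) (Nat.cast_nonneg _)
  calc ∏ j, ∑ w, Real.exp (t * X j w) ≤ ∏ _j : Fin N, ((Fintype.card ι : ℝ) * Real.exp (t ^ 2 / 2)) :=
        Finset.prod_le_prod (fun j _ => Finset.sum_nonneg fun w _ => (Real.exp_pos _).le)
          fun j _ => h j
    _ = _ := by rw [Finset.prod_const, Finset.card_univ, Fintype.card_fin]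

theorem hoeff {ι C : Type} [Fintype ι] [Nonempty ι] [Fintype C] {N : ℕ} (X : C → Fin N → ι → ℝ)
    (h1 : ∀ c j w, |X c j w| ≤ 1) (h0 : ∀ c j, ∑ w, X c j w = 0) {η : ℝ} (hη : 0 < η)
    (hC : 2 * (Fintype.card C : ℝ) * Real.exp (-(N * η ^ 2 / 2)) < 1) :
    ∃ ω : Fin N → ι, ∀ c, |∑ j, X c j (ω j)| ≤ η * N := by
  by_contra hcon
  push Not at hcon
  have hpt : ∀ ω : Fin N → ι, Real.exp (η ^ 2 * N) ≤
      ∑ c, (Real.exp (η * ∑ j, X c j (ω j)) + Real.exp (-η * ∑ j, X c j (ω j))) := by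
    intro ω
    obtain ⟨c, hc⟩ := hcon ω
    refine le_trans ?_ (Finset.single_le_sum (f := fun c =>
      Real.exp (η * ∑ j, X c j (ω j)) + Real.exp (-η * ∑ j, X c j (ω j)))
      (fun c _ => (add_pos (Real.exp_pos _) (Real.exp_pos _)).le) (Finset.mem_univ c))
    show Real.exp (η ^ 2 * N) ≤
      Real.exp (η * ∑ j, X c j (ω j)) + Real.exp (-η * ∑ j, X c j (ω j))
    rcases lt_abs.1 hc with h | h
    · have h2 : η ^ 2 * N ≤ η * ∑ j, X c j (ω j) := by
        have := mul_le_mul_of_nonneg_left h.le hη.le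
        nlinarith
      have h3 := Real.exp_le_exp.2 h2
      have h4 := Real.exp_pos (-η * ∑ j, X c j (ω j))
      linarith
    · have h2 : η ^ 2 * N ≤ -η * ∑ j, X c j (ω j) := by
        have := mul_le_mul_of_nonneg_left h.le hη.le
        nlinarith
      have h3 := Real.exp_le_exp.2 h2
      have h4 := Real.exp_pos (η * ∑ j, X c j (ω j))
      linarith
  have hsum := Finset.sum_le_sum fun (ω : Fin N → ι) (_ : ω ∈ Finset.univ) => hpt ω
  rw [Finset.sum_const, Finset.card_univ, Fintype.card_fun, Fintype.card_fin, nsmul_eq_mul,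
    Finset.sum_comm] at hsum
  have hb : ∀ c : C, ∑ ω : Fin N → ι,
      (Real.exp (η * ∑ j, X c j (ω j)) + Real.exp (-η * ∑ j, X c j (ω j))) ≤
      2 * ((Fintype.card ι : ℝ) * Real.exp (η ^ 2 / 2)) ^ N := by
    intro c
    rw [Finset.sum_add_distrib]
    have h2 := hf_prod (X c) (h1 c) (h0 c) η
    have h3 := hf_prod (X c) (h1 c) (h0 c) (-η)
    rw [neg_sq] at h3
    linarith
  have hsum2 := hsum.trans (Finset.sum_le_sum fun c _ => hb c)
  rw [Finset.sum_const, Finset.card_univ, nsmul_eq_mul, mul_pow, ← Real.exp_nat_mul] at hsum2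
  have hι : (0 : ℝ) < (Fintype.card ι : ℝ) ^ N := by
    have : (0 : ℝ) < (Fintype.card ι : ℝ) := by exact_mod_cast Fintype.card_pos
    positivity
  push_cast at hsum2
  have h5 : Real.exp (η ^ 2 * N) ≤ 2 * (Fintype.card C : ℝ) * Real.exp (N * (η ^ 2 / 2)) := by
    refine le_of_mul_le_mul_left ?_ hι
    refine hsum2.trans (le_of_eq ?_)
    ring
  have h6 : Real.exp (N * (η ^ 2 / 2)) = Real.exp (-(N * η ^ 2 / 2)) * Real.exp (η ^ 2 * N) := by
    rw [← Real.exp_add]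
    congr 1
    ring
  rw [h6] at h5
  have h7 := Real.exp_pos (η ^ 2 * N)
  have h8 : (2 * (Fintype.card C : ℝ) * Real.exp (-(N * η ^ 2 / 2))) * Real.exp (η ^ 2 * N) <
      1 * Real.exp (η ^ 2 * N) := mul_lt_mul_of_pos_right hC h7
  nlinarith

end Pool.Agent.DNB
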