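import Pool.Agent.DNB.Defs

/-!
# Strong convexity of the p-th power away from zero
-/

open Set MeasureTheory Filter Topology Metric
open Pool.Agent.Helper2.LM Pool.Agent.AEP Pool.Agent.H99N

namespace Pool.Agent.DNB

private theorem nc_low {p : ℝ} {α₀ : ℝ} (h0 : 0 < α₀) : ∃ m : ℝ, 0 < m ∧
    ∀ x ∈ Icc α₀ 2, m ≤ x ^ (p - 2) := by
  refine ⟨min (α₀ ^ (p - 2)) (2 ^ (p - 2)), lt_min (Real.rpow_pos_of_pos h0 _)
    (Real.rpow_pos_of_pos (by norm_num) _), fun x hx => ?_⟩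
  have hx0 : 0 < x := h0.trans_le hx.1
  rcases le_total 0 (p - 2) with h | h
  · exact (min_le_left _ _).trans (Real.rpow_le_rpow h0.le hx.1 h)
  · exact (min_le_right _ _).trans (Real.rpow_le_rpow_of_nonpos hx0 hx.2 h)

private theorem nc_mono {p : ℝ} (hp1 : 1 < p) {α₀ : ℝ} (h0 : 0 < α₀) {m : ℝ}
    (hm : ∀ x ∈ Icc α₀ 2, m ≤ x ^ (p - 2)) :
    MonotoneOn (fun y : ℝ => y ^ (p - 1) - (p - 1) * m * y) (Icc α₀ 2) := by
  have hd : ∀ y ∈ Icc α₀ 2, HasDerivAt (fun y : ℝ => y ^ (p - 1) - (p - 1) * m * y)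
      ((p - 1) * y ^ (p - 1 - 1) - (p - 1) * m * 1) y := by
    intro y hy
    have hy0 : y ≠ 0 := (h0.trans_le hy.1).ne'
    exact (Real.hasDerivAt_rpow_const (Or.inl hy0)).sub ((hasDerivAt_id y).const_mul _)
  apply monotoneOn_of_deriv_nonneg (convex_Icc _ _)
  · exact fun y hy => (hd y hy).continuousAt.continuousWithinAt
  · exact fun y hy => (hd y (interior_subset hy)).differentiableAt.differentiableWithinAt
  · intro y hy
    have hy' := interior_subset hy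
    rw [(hd y hy').deriv]
    have h1 := hm y hy'
    have h2 : p - 1 - 1 = p - 2 := by ring
    rw [h2]
    nlinarith

private theorem nc_one {p : ℝ} (hp1 : 1 < p) {α₀ : ℝ} (h0 : 0 < α₀) {m : ℝ}
    (hm : ∀ x ∈ Icc α₀ 2, m ≤ x ^ (p - 2)) {x y : ℝ} (hx : x ∈ Icc α₀ 2) (hy : y ∈ Icc α₀ 2) :
    x ^ p + p * x ^ (p - 1) * (y - x) + p * (p - 1) * m / 2 * (y - x) ^ 2 ≤ y ^ p := by
  have hd : ∀ y ∈ Icc α₀ 2, HasDerivAt
      (fun y : ℝ => y ^ p - (p * x ^ (p - 1) * (y - x) + p * (p - 1) * m / 2 * (y - x) ^ 2))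
      (p * y ^ (p - 1) - (p * x ^ (p - 1) * 1 +
        p * (p - 1) * m / 2 * (((2 : ℕ) : ℝ) * (y - x) ^ (2 - 1) * 1))) y := by
    intro y hy
    have hy0 : y ≠ 0 := (h0.trans_le hy.1).ne'
    have h1 : HasDerivAt (fun y : ℝ => y - x) 1 y := (hasDerivAt_id y).sub_const x
    exact (Real.hasDerivAt_rpow_const (Or.inl hy0)).sub
      ((h1.const_mul _).add ((h1.pow 2).const_mul _))
  have hmono := nc_mono hp1 h0 hm
  have hp0 : 0 < p := by linarith
  rcases le_total x y with hxy | hxy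
  · have h1 : MonotoneOn (fun y : ℝ => y ^ p -
        (p * x ^ (p - 1) * (y - x) + p * (p - 1) * m / 2 * (y - x) ^ 2)) (Icc x 2) := by
      apply monotoneOn_of_deriv_nonneg (convex_Icc _ _)
      · exact fun z hz => (hd z ⟨hx.1.trans hz.1, hz.2⟩).continuousAt.continuousWithinAt
      · exact fun z hz => (hd z ⟨hx.1.trans (interior_subset hz).1,
          (interior_subset hz).2⟩).differentiableAt.differentiableWithinAt
      · intro z hz
        have hz' := interior_subset hz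
        have hz2 : z ∈ Icc α₀ 2 := ⟨hx.1.trans hz'.1, hz'.2⟩
        rw [(hd z hz2).deriv]
        have h2 := hmono hx hz2 hz'.1
        simp only at h2
        norm_num
        nlinarith
    have h3 := h1 ⟨le_rfl, hx.2⟩ ⟨hxy, hy.2⟩ hxy
    simp only [sub_self] at h3
    norm_num at h3
    linarith
  · have h1 : AntitoneOn (fun y : ℝ => y ^ p -
        (p * x ^ (p - 1) * (y - x) + p * (p - 1) * m / 2 * (y - x) ^ 2)) (Icc α₀ x) := by
      apply antitoneOn_of_deriv_nonpos (convex_Icc _ _)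
      · exact fun z hz => (hd z ⟨hz.1, hz.2.trans hx.2⟩).continuousAt.continuousWithinAt
      · exact fun z hz => (hd z ⟨(interior_subset hz).1,
          (interior_subset hz).2.trans hx.2⟩).differentiableAt.differentiableWithinAt
      · intro z hz
        have hz' := interior_subset hz
        have hz2 : z ∈ Icc α₀ 2 := ⟨hz'.1, hz'.2.trans hx.2⟩
        rw [(hd z hz2).deriv]
        have h2 := hmono hz2 hx hz'.2
        simp only at h2
        norm_num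
        nlinarith
    have h3 := h1 ⟨hy.1, hxy⟩ ⟨hx.1, le_rfl⟩ hxy
    simp only [sub_self] at h3
    norm_num at h3
    linarith

private theorem nc_div {p : ℝ} (hp1 : 1 < p) {α₀ : ℝ} (h0 : 0 < α₀) {m : ℝ}
    (hm : ∀ x ∈ Icc α₀ 2, m ≤ x ^ (p - 2)) {x y : ℝ} (hx : x ∈ Icc α₀ 2) (hy : y ∈ Icc α₀ 2) :
    x ^ (p - 1) * y ≤ x ^ p + (y ^ p - x ^ p) / p - (p - 1) * m / 2 * (x - y) ^ 2 := by
  have h1 := nc_one hp1 h0 hm hx hy
  have hx0 : 0 < x := h0.trans_le hx.1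
  have hp0 : 0 < p := by linarith
  have h2 : x ^ (p - 1) * x = x ^ p := by
    rw [← Real.rpow_add_one hx0.ne', sub_add_cancel]
  have h3 : p * (x ^ (p - 1) * y) ≤ p * (x ^ p + (y ^ p - x ^ p) / p -
      (p - 1) * m / 2 * (x - y) ^ 2) := by
    have h4 : p * (x ^ p + (y ^ p - x ^ p) / p - (p - 1) * m / 2 * (x - y) ^ 2) =
        p * x ^ p + (y ^ p - x ^ p) - p * (p - 1) * m / 2 * (y - x) ^ 2 := by
      field_simp
      ring
    rw [h4]
    have h5 : p * x ^ (p - 1) * (y - x) = p * (x ^ (p - 1) * y) - p * x ^ p := by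
      rw [← h2]
      ring
    rw [h5] at h1
    linarith
  exact le_of_mul_le_mul_left h3 hp0

theorem convex_ineq {p : ℝ} (hp1 : 1 < p) {α₀ : ℝ} (h0 : 0 < α₀) : ∃ c : ℝ, 0 < c ∧
    ∀ v w : ℝ × ℝ, v.1 ∈ Icc α₀ 2 → v.2 ∈ Icc α₀ 2 → w.1 ∈ Icc α₀ 2 → w.2 ∈ Icc α₀ 2 →
      v.1 ^ (p - 1) * w.1 + v.2 ^ (p - 1) * w.2 ≤ (v.1 ^ p + v.2 ^ p) +
        ((w.1 ^ p + w.2 ^ p) - (v.1 ^ p + v.2 ^ p)) / p -
          c * ((v.1 - w.1) ^ 2 + (v.2 - w.2) ^ 2) := by
  obtain ⟨m, hm0, hm⟩ := nc_low (p := p) h0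
  refine ⟨(p - 1) * m / 2, by
    have : 0 < p - 1 := by linarith
    positivity, fun v w h1 h2 h3 h4 => ?_⟩
  have e1 := nc_div hp1 h0 hm h1 h3
  have e2 := nc_div hp1 h0 hm h2 h4
  have e3 : ((w.1 ^ p + w.2 ^ p) - (v.1 ^ p + v.2 ^ p)) / p =
      (w.1 ^ p - v.1 ^ p) / p + (w.2 ^ p - v.2 ^ p) / p := by ring
  rw [e3]
  linarith

end Pool.Agent.DNB
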