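import Pool.Agent.DNB.Defs
import Pool.Agent.Helper2.LM.G1

/-!
# Hoelder inequality for the tangent functional

`abs_op` and the inequality of Hoelder for two terms with the exponents `p / (p - 1)` and `p`.
-/

open Set MeasureTheory Filter Topology Metric
open Pool.Agent.Helper2.LM Pool.Agent.AEP Pool.Agent.H99N

namespace Pool.Agent.DNB

private theorem nh_holder {p q : ℝ} (hpq : q.HolderConjugate p) {a b c d : ℝ} (ha : 0 ≤ a)
    (hb : 0 ≤ b) (hc : 0 ≤ c) (hd : 0 ≤ d) :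
    a * c + b * d ≤ (a ^ q + b ^ q) ^ (1 / q) * (c ^ p + d ^ p) ^ (1 / p) := by
  have h := Real.inner_le_Lp_mul_Lq_of_nonneg (Finset.univ : Finset (Fin 2)) (f := ![a, b])
    (g := ![c, d]) hpq (by
      intro i _
      fin_cases i
      · exact ha
      · exact hb) (by
      intro i _
      fin_cases i
      · exact hc
      · exact hd)
  simpa [Fin.sum_univ_two] using h

theorem ell_bd {p : ℝ} (hp1 : 1 < p) {s : ℝ × ℝ} (hs : 0 < hp p s) (x : ℝ × ℝ) :
    |ell p s x| * (hp p s) ^ (1 / p) ≤ (hp p x) ^ (1 / p) := by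
  have hc := Real.HolderConjugate.conjExponent hp1
  obtain ⟨q, hq⟩ : ∃ q, q = Real.conjExponent p := ⟨_, rfl⟩
  rw [← hq] at hc
  have h1 := nh_holder hc.symm (a := |s.1| ^ (p - 1)) (b := |s.2| ^ (p - 1)) (c := |x.1|)
    (d := |x.2|) (by positivity) (by positivity) (abs_nonneg _) (abs_nonneg _)
  rw [← Real.rpow_mul (abs_nonneg _), ← Real.rpow_mul (abs_nonneg _), hc.sub_one_mul_conj] at h1
  have h2 : |op p s.1 * x.1 + op p s.2 * x.2| ≤ (hp p s) ^ (1 / q) * (hp p x) ^ (1 / p) := by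
    refine (abs_add_le _ _).trans ?_
    rw [abs_mul, abs_mul, abs_op hp1, abs_op hp1]
    exact h1
  unfold ell
  rw [abs_div, abs_of_pos hs, div_mul_eq_mul_div, div_le_iff₀ hs]
  have h3 : (hp p s) ^ (1 / q) * (hp p s) ^ (1 / p) = hp p s := by
    rw [← Real.rpow_add hs]
    have h4 : 1 / q + 1 / p = 1 := by
      rw [one_div, one_div]
      exact hc.symm.inv_add_inv_eq_one
    rw [h4, Real.rpow_one]
  calc |op p s.1 * x.1 + op p s.2 * x.2| * (hp p s) ^ (1 / p)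
      ≤ ((hp p s) ^ (1 / q) * (hp p x) ^ (1 / p)) * (hp p s) ^ (1 / p) :=
        mul_le_mul_of_nonneg_right h2 (by positivity)
    _ = (hp p x) ^ (1 / p) * ((hp p s) ^ (1 / q) * (hp p s) ^ (1 / p)) := by ring
    _ = (hp p x) ^ (1 / p) * hp p s := by rw [h3]

private theorem nh_le {p : ℝ} (hp1 : 1 < p) (x : ℝ × ℝ) :
    |x.1| ≤ (hp p x) ^ (1 / p) ∧ |x.2| ≤ (hp p x) ^ (1 / p) := by
  have hp0 : 0 < p := by linarith
  have key : ∀ t : ℝ, (|t| ^ p) ^ (1 / p) = |t| := by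
    intro t
    rw [← Real.rpow_mul (abs_nonneg t), mul_one_div_cancel hp0.ne', Real.rpow_one]
  have h1 : 0 ≤ |x.1| ^ p := by positivity
  have h2 : 0 ≤ |x.2| ^ p := by positivity
  unfold hp
  constructor
  · conv_lhs => rw [← key x.1]
    exact Real.rpow_le_rpow h1 (by linarith) (by positivity)
  · conv_lhs => rw [← key x.2]
    exact Real.rpow_le_rpow h2 (by linarith) (by positivity)

theorem det2_bd {p : ℝ} (hp1 : 1 < p) (s x : ℝ × ℝ) :
    |det2 s x| ≤ 2 * ‖s‖ * (hp p x) ^ (1 / p) := by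
  obtain ⟨h1, h2⟩ := nh_le hp1 x
  have h3 : |s.1| ≤ ‖s‖ := by
    have := norm_fst_le s
    rwa [Real.norm_eq_abs] at this
  have h4 : |s.2| ≤ ‖s‖ := by
    have := norm_snd_le s
    rwa [Real.norm_eq_abs] at this
  unfold det2
  refine (abs_sub _ _).trans ?_
  rw [abs_mul, abs_mul]
  have h5 : |s.1| * |x.2| ≤ ‖s‖ * (hp p x) ^ (1 / p) :=
    mul_le_mul h3 h2 (abs_nonneg _) (norm_nonneg _)
  have h6 : |s.2| * |x.1| ≤ ‖s‖ * (hp p x) ^ (1 / p) :=
    mul_le_mul h4 h1 (abs_nonneg _) (norm_nonneg _)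
  linarith

end Pool.Agent.DNB
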