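import Pool.Agent.DNB.NE
import Pool.Agent.DNB.NH
import Pool.Agent.H99M.NLp

/-!
# A strictly convex norm through a finite set

Plan. Let `N₀` be the `l_p` norm (`Pool.Agent.H99M.exists_lp`: `Nm N₀` and
`N₀ x = (|x.1| ^ p + |x.2| ^ p) ^ (1 / p) = (hp p x) ^ (1 / p)`). If `S = ∅` take `N = N₀`. Choose
`θ > 0` so small that for all `s, s' ∈ S`: `(ell p s s') ^ 2 + θ * (det2 s s') ^ 2 ≤ 1` (for
`s' = s` and `s' = -s` the left side is `1` by `ell_self`, linearity and `det2 s (±s) = 0`; otherwise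
`(ell p s s') ^ 2 < 1` by `hS2`, finitely many conditions) and
`(1 + ε / 2) ^ 2 + θ * (2 * ‖s‖) ^ 2 ≤ (1 + ε) ^ 2` for all `s ∈ S`. Let `E s` be the norm of
`exists_euc` and let `N` be the maximum of `(1 - ε) • N₀` and of the `E s`, `s ∈ S`
(`S.sup' _ E`/`Finset.sup`, or define `N x = max ((1 - ε) * N₀ x) (S.sup' _ fun s => E s x)` and prove
the seminorm axioms; `Seminorm` is a lattice, `Seminorm.sup_apply`, `Seminorm.finset_sup_apply`).
Then: `ne`: `N x ≥ (1 - ε) * N₀ x`. `near`: lower bound from `(1 - ε) * N₀`, upper bound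
`E s x ≤ (1 + ε) * N₀ x` from `ell_bd`, `hS1` (`|ell p s x| ≤ (1 + ε / 2) * N₀ x`), `det2_bd`.
`N s = 1` for `s ∈ S`: `(1 - ε) * N₀ s ≤ 1` by `hS1`, `E s' s ≤ 1`, `E s s = 1`. `sym`: `N₀` is
invariant (`hp_dm`) and `E (dm e s) (dm e x) = E s x` (`ell_dm`, `det2_dm`), `S` is invariant
(`hsym`; `dm e` is injective on the finite set `S`, so the maximum over `S` is the maximum over
`dm e '' S`; only `≤` is needed for all `e`, then use `dm_inv`). `strict`: for the maximum of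
finitely many norms with the property `x ≠ y, E x ≤ 1, E y ≤ 1 → E (x + y) < 2` it is immediate; for
`N' = (1 - ε) • N₀`: if `N' x ≤ 1`, `N' y ≤ 1`, `x ≠ y` then `N' (x + y) < 2` by strict convexity of
`N₀` (after scaling by `1 - ε`: if both are `1`; otherwise the sum is `< 2`).
-/

open Set MeasureTheory Filter Topology Metric
open Pool.Agent.Helper2.LM Pool.Agent.AEP Pool.Agent.H99N

namespace Pool.Agent.DNB

/-- the number `θ` exists -/
private theorem nm_theta {p : ℝ} (hp1 : 1 < p) {ε : ℝ} (hε : 0 < ε) {S : Finset (ℝ × ℝ)}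
    (hS0 : ∀ s ∈ S, s ≠ 0)
    (hS2 : ∀ s ∈ S, ∀ s' ∈ S, s' ≠ s → s' ≠ -s → |ell p s s'| < 1) :
    ∃ θ : ℝ, 0 < θ ∧ (∀ s ∈ S, ∀ s' ∈ S, (ell p s s') ^ 2 + θ * (det2 s s') ^ 2 ≤ 1) ∧
      ∀ s ∈ S, (1 + ε / 2) ^ 2 + θ * (2 * ‖s‖) ^ 2 ≤ (1 + ε) ^ 2 := by
  have hlim : ∀ a b c : ℝ, a < c → ∀ᶠ θ : ℝ in 𝓝[>] 0, a + θ * b ≤ c := by
    intro a b c hac
    have h1 : Tendsto (fun θ : ℝ => a + θ * b) (𝓝[>] 0) (𝓝 (a + 0 * b)) := by
      refine Tendsto.mono_left ?_ nhdsWithin_le_nhds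
      exact (continuous_const.add (continuous_id.mul continuous_const)).tendsto 0
    rw [zero_mul, add_zero] at h1
    exact (h1.eventually_lt_const hac).mono fun θ hθ => hθ.le
  have e1 : ∀ᶠ θ : ℝ in 𝓝[>] 0, ∀ s ∈ S, ∀ s' ∈ S, (ell p s s') ^ 2 + θ * (det2 s s') ^ 2 ≤ 1 := by
    rw [Filter.eventually_all_finset]
    intro s hs
    rw [Filter.eventually_all_finset]
    intro s' hs'
    by_cases h1 : s' = s
    · refine Filter.Eventually.of_forall fun θ => ?_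
      have h2 : det2 s s = 0 := by
        unfold det2
        ring
      rw [h1, ell_self hp1 (hS0 s hs), h2]
      norm_num
    · by_cases h2 : s' = -s
      · refine Filter.Eventually.of_forall fun θ => ?_
        have h3 : det2 s (-s) = 0 := by
          unfold det2
          rw [Prod.fst_neg, Prod.snd_neg]
          ring
        have h4 : ell p s (-s) = -1 := by
          have h5 := ell_self hp1 (hS0 s hs)
          unfold ell at h5 ⊢
          rw [Prod.fst_neg, Prod.snd_neg, ← h5]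
          ring
        rw [h2, h3, h4]
        norm_num
      · refine hlim _ _ _ ?_
        rw [sq_lt_one_iff_abs_lt_one]
        exact hS2 s hs s' hs' h1 h2
  have e2 : ∀ᶠ θ : ℝ in 𝓝[>] 0, ∀ s ∈ S, (1 + ε / 2) ^ 2 + θ * (2 * ‖s‖) ^ 2 ≤ (1 + ε) ^ 2 := by
    rw [Filter.eventually_all_finset]
    intro s hs
    refine hlim _ _ _ ?_
    nlinarith
  have e3 : ∀ᶠ θ : ℝ in 𝓝[>] 0, 0 < θ := self_mem_nhdsWithin
  obtain ⟨θ, h1, h2, h3⟩ := (e3.and (e1.and e2)).exists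
  exact ⟨θ, h1, h2, h3⟩

theorem exists_norm {p : ℝ} (hp1 : 1 < p) {ε : ℝ} (hε : 0 < ε) (hε1 : ε < 1)
    {S : Finset (ℝ × ℝ)} (hsym : ∀ e, ∀ s ∈ S, dm e s ∈ S) (hS0 : ∀ s ∈ S, s ≠ 0)
    (hS1 : ∀ s ∈ S, (1 - ε) * (hp p s) ^ (1 / p) ≤ 1 ∧ 1 ≤ (1 + ε / 2) * (hp p s) ^ (1 / p))
    (hS2 : ∀ s ∈ S, ∀ s' ∈ S, s' ≠ s → s' ≠ -s → |ell p s s'| < 1) :
    ∃ N : Seminorm ℝ (ℝ × ℝ), GN p ε N ∧ ∀ s ∈ S, N s = 1 := by
  obtain ⟨N₀, hN0, hN0'⟩ := Pool.Agent.H99M.exists_lp hp1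
  have hN : ∀ x, N₀ x = (hp p x) ^ (1 / p) := fun x => hN0' x
  obtain ⟨θ, hθ, hT1, hT2⟩ := nm_theta hp1 hε hS0 hS2
  have hE := fun (s : ℝ × ℝ) (hs : s ≠ 0) => exists_euc hp1 hs hθ
  choose! E hE using hE
  -- the norm
  obtain ⟨r, hr⟩ : ∃ r : NNReal, (r : ℝ) = 1 - ε := ⟨⟨1 - ε, by linarith⟩, rfl⟩
  have hsm : ∀ x, (r • N₀) x = (1 - ε) * N₀ x := by
    intro x
    rw [smul_apply, NNReal.smul_def, hr, smul_eq_mul]
  have hsup : ∀ x, ((r • N₀) ⊔ S.sup E) x = max ((1 - ε) * N₀ x) (S.sup E x) := by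
    intro x
    rw [Seminorm.sup_apply, hsm]
  have hnn : ∀ x, 0 ≤ N₀ x := fun x => apply_nonneg N₀ x
  -- upper bound of the Euclidean norms
  have hEup : ∀ s ∈ S, ∀ x, E s x ≤ (1 + ε) * N₀ x := by
    intro s hs x
    rw [(hE s (hS0 s hs)).1 x]
    apply Real.sqrt_le_iff.2
    refine ⟨mul_nonneg (by linarith) (hnn x), ?_⟩
    have h1 := ell_bd hp1 (hp_pos hp1 (hS0 s hs)) x
    have h2 := det2_bd hp1 s x
    rw [← hN] at h1 h2
    have h3 := (hS1 s hs).2
    rw [← hN] at h1 h3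
    have h4 : |ell p s x| ≤ (1 + ε / 2) * N₀ x := by
      calc |ell p s x| = |ell p s x| * 1 := (mul_one _).symm
        _ ≤ |ell p s x| * ((1 + ε / 2) * N₀ s) := mul_le_mul_of_nonneg_left h3 (abs_nonneg _)
        _ = (1 + ε / 2) * (|ell p s x| * N₀ s) := by ring
        _ ≤ (1 + ε / 2) * N₀ x := mul_le_mul_of_nonneg_left h1 (by linarith)
    have h5 : (ell p s x) ^ 2 ≤ ((1 + ε / 2) * N₀ x) ^ 2 := by
      rw [← sq_abs]
      exact pow_le_pow_left₀ (abs_nonneg _) h4 2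
    have h6 : (det2 s x) ^ 2 ≤ (2 * ‖s‖ * N₀ x) ^ 2 := by
      rw [← sq_abs]
      exact pow_le_pow_left₀ (abs_nonneg _) h2 2
    calc (ell p s x) ^ 2 + θ * (det2 s x) ^ 2
        ≤ ((1 + ε / 2) * N₀ x) ^ 2 + θ * (2 * ‖s‖ * N₀ x) ^ 2 :=
          add_le_add h5 (mul_le_mul_of_nonneg_left h6 hθ.le)
      _ = ((1 + ε / 2) ^ 2 + θ * (2 * ‖s‖) ^ 2) * (N₀ x) ^ 2 := by ring
      _ ≤ (1 + ε) ^ 2 * (N₀ x) ^ 2 := mul_le_mul_of_nonneg_right (hT2 s hs) (sq_nonneg _)
      _ = ((1 + ε) * N₀ x) ^ 2 := by ring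
  -- symmetry
  have hEdm : ∀ e x, ∀ s ∈ S, E (dm e s) (dm e x) = E s x := by
    intro e x s hs
    rw [(hE _ (hS0 _ (hsym e s hs))).1, (hE s (hS0 s hs)).1, ell_dm, det2_dm]
  have hle : ∀ e x, S.sup E (dm e x) ≤ S.sup E x := by
    intro e x
    refine Seminorm.finset_sup_apply_le (apply_nonneg _ _) fun s hs => ?_
    obtain ⟨e', he1, he2⟩ := dm_inv e
    have h1 := hEdm e x (dm e' s) (hsym e' s hs)
    rw [he1] at h1
    rw [h1]
    exact Seminorm.le_finset_sup_apply (hsym e' s hs)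
  have hEsym : ∀ e x, S.sup E (dm e x) = S.sup E x := by
    intro e x
    refine le_antisymm (hle e x) ?_
    obtain ⟨e', he1, he2⟩ := dm_inv e
    have h1 := hle e' (dm e x)
    rw [he2] at h1
    exact h1
  refine ⟨(r • N₀) ⊔ S.sup E, ⟨?_, ?_, ?_, ?_⟩, ?_⟩
  · intro x hx
    rw [hsup] at hx
    have h1 : (1 - ε) * N₀ x ≤ 0 := by
      rw [← hx]
      exact le_max_left _ _
    have h2 := hnn x
    have h3 : N₀ x = 0 := by nlinarith
    exact hN0.ne x h3
  · intro x y hx hy hxy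
    rw [hsup] at hx hy ⊢
    have hx1 : (1 - ε) * N₀ x ≤ 1 := (le_max_left _ _).trans hx.le
    have hy1 : (1 - ε) * N₀ y ≤ 1 := (le_max_left _ _).trans hy.le
    have hx2 : S.sup E x ≤ 1 := (le_max_right _ _).trans hx.le
    have hy2 : S.sup E y ≤ 1 := (le_max_right _ _).trans hy.le
    refine max_lt ?_ ?_
    · have hadd : N₀ (x + y) ≤ N₀ x + N₀ y := map_add_le_add N₀ x y
      have h0 : 0 < 1 - ε := by linarith
      by_cases h1 : (1 - ε) * N₀ x = 1
      · by_cases h2 : (1 - ε) * N₀ y = 1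
        · have h3 : ∀ z, N₀ ((1 - ε) • z) = (1 - ε) * N₀ z := by
            intro z
            rw [map_smul_eq_mul, Real.norm_eq_abs, abs_of_pos h0]
          have h4 := hN0.strict ((1 - ε) • x) ((1 - ε) • y) (by rw [h3, h1]) (by rw [h3, h2])
            (fun h => hxy (smul_right_injective _ h0.ne' h))
          rw [← smul_add, h3] at h4
          exact h4
        · have h3 := lt_of_le_of_ne hy1 h2
          nlinarith
      · have h3 := lt_of_le_of_ne hx1 h1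
        nlinarith
    · refine Seminorm.finset_sup_apply_lt (by norm_num) fun s hs => ?_
      exact (hE s (hS0 s hs)).2 x y ((Seminorm.le_finset_sup_apply hs).trans hx2)
        ((Seminorm.le_finset_sup_apply hs).trans hy2) hxy
  · intro e x
    rw [hsup, hsup, hEsym, hN, hN, hp_dm]
  · intro x
    rw [hsup, ← hN, abs_le]
    have h2 := hnn x
    have h3 := le_max_left ((1 - ε) * N₀ x) (S.sup E x)
    have h4 : max ((1 - ε) * N₀ x) (S.sup E x) ≤ (1 + ε) * N₀ x := by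
      refine max_le (mul_le_mul_of_nonneg_right (by linarith) h2) ?_
      exact Seminorm.finset_sup_apply_le (mul_nonneg (by linarith) h2) fun s hs => hEup s hs x
    constructor
    · linarith
    · linarith
  · intro s hs
    rw [hsup]
    refine le_antisymm (max_le ?_ ?_) ?_
    · rw [hN]
      exact (hS1 s hs).1
    · refine Seminorm.finset_sup_apply_le zero_le_one fun s' hs' => ?_
      rw [(hE s' (hS0 s' hs')).1]
      refine Real.sqrt_le_iff.2 ⟨zero_le_one, ?_⟩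
      rw [one_pow]
      exact hT1 s' hs' s hs
    · refine le_trans ?_ (le_max_right _ _)
      refine le_trans ?_ (Seminorm.le_finset_sup_apply hs)
      rw [(hE s (hS0 s hs)).1, ell_self hp1 (hS0 s hs)]
      have h2 : det2 s s = 0 := by
        unfold det2
        ring
      rw [h2]
      norm_num

end Pool.Agent.DNB
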