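import Pool.Agent.DNB.Defs

/-!
# Null pairs and density points

A ball is covered by three sets of small measure.
-/

open Set MeasureTheory Filter Topology Metric
open Pool.Agent.Helper2.LM Pool.Agent.AEP Pool.Agent.H99N

namespace Pool.Agent.DNB

theorem noPair_null {B : Set (ℝ × ℝ)} (mB : MeasurableSet B) {s : ℝ × ℝ}
    (h : volume {z : ℝ × ℝ | z ∈ B ∧ z + s ∈ B} = 0) : NoPair B s := by
  intro x hx hy
  have h99 : (99 / 100 : ENNReal) < 1 := by
    rw [ENNReal.div_lt_iff] <;> norm_num
  obtain ⟨n, hn1, hn2⟩ := ((hx.eventually_const_lt h99).and (hy.eventually_const_lt h99)).exists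
  set r := rad n with hr
  -- complement proportions
  have hcomp : ∀ w : ℝ × ℝ, (99 / 100 : ENNReal) < dens B n w →
      volume (Bᶜ ∩ closedBall w r) ≤ 1 / 100 * volume (closedBall (0 : ℝ × ℝ) r) := by
    intro w hw
    have h1 := dens_add_le mB.compl (disjoint_compl_right) n w (B := B)
    have h2 : dens Bᶜ n w ≤ 1 / 100 := by
      have h3 : (99 / 100 : ENNReal) + dens Bᶜ n w ≤ 99 / 100 + 1 / 100 := by
        have e : (99 / 100 : ENNReal) + 1 / 100 = 1 := by
          rw [← ENNReal.add_div]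
          norm_num
          exact ENNReal.div_self (by norm_num) (by norm_num)
        rw [e]
        exact (add_le_add_left hw.le _).trans h1
      exact (ENNReal.add_le_add_iff_left (ne_top_of_lt h99)).1 h3
    unfold dens at h2
    rw [m2_vol_rad n w] at h2
    rw [ENNReal.div_le_iff (vol_ball_pos n 0).ne' (vol_ball_lt n 0).ne] at h2
    exact h2
  have hsub : closedBall x r ⊆ {z : ℝ × ℝ | z ∈ B ∧ z + s ∈ B} ∪
      (Bᶜ ∩ closedBall x r) ∪ ((fun z => z + s) ⁻¹' (Bᶜ ∩ closedBall (x + s) r)) := by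
    intro z hz
    have hz3 : z + s ∈ closedBall (x + s) r := by
      rw [mem_closedBall, dist_add_right]
      exact hz
    by_cases hb1 : z ∈ B
    · by_cases hb2 : z + s ∈ B
      · exact Or.inl (Or.inl ⟨hb1, hb2⟩)
      · exact Or.inr ⟨hb2, hz3⟩
    · exact Or.inl (Or.inr ⟨hb1, hz⟩)
  have hV : volume (closedBall (0 : ℝ × ℝ) r) ≤ 2 / 100 * volume (closedBall (0 : ℝ × ℝ) r) := by
    calc volume (closedBall (0 : ℝ × ℝ) r) = volume (closedBall x r) := (m2_vol_rad n x).symm
      _ ≤ volume {z : ℝ × ℝ | z ∈ B ∧ z + s ∈ B} + volume (Bᶜ ∩ closedBall x r) +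
          volume ((fun z => z + s) ⁻¹' (Bᶜ ∩ closedBall (x + s) r)) :=
          (measure_mono hsub).trans ((measure_union_le _ _).trans
            (add_le_add_left (measure_union_le _ _) _))
      _ = volume (Bᶜ ∩ closedBall x r) + volume (Bᶜ ∩ closedBall (x + s) r) := by
          rw [h, zero_add, measure_preimage_add_right]
      _ ≤ 1 / 100 * volume (closedBall (0 : ℝ × ℝ) r) +
          1 / 100 * volume (closedBall (0 : ℝ × ℝ) r) := add_le_add (hcomp x hn1) (hcomp (x + s) hn2)
      _ = 2 / 100 * volume (closedBall (0 : ℝ × ℝ) r) := by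
          rw [← add_mul, ← ENNReal.add_div]
          norm_num
  have hVpos := vol_ball_pos n (0 : ℝ × ℝ)
  have hVlt := vol_ball_lt n (0 : ℝ × ℝ)
  set V := volume (closedBall (0 : ℝ × ℝ) r) with hVdef
  have h1 : V.toReal ≤ (2 / 100 * V).toReal := by
    apply ENNReal.toReal_mono _ hV
    exact ENNReal.mul_ne_top (ENNReal.div_ne_top (by norm_num) (by norm_num)) hVlt.ne
  have h2 : (2 / 100 * V).toReal = 2 / 100 * V.toReal := by
    simp [ENNReal.toReal_mul, ENNReal.toReal_div]
  have h3 : 0 < V.toReal := ENNReal.toReal_pos hVpos.ne' hVlt.ne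
  rw [h2] at h1
  linarith

end Pool.Agent.DNB
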