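import Pool.Agent.DNB.Str

/-!
# Thickened arc averages converge strongly
-/

open Set MeasureTheory Filter Topology Metric
open Pool.Agent.Helper2.LM Pool.Agent.AEP Pool.Agent.H99N

namespace Pool.Agent.DNB

private theorem sr_cont {φ : ℝ × ℝ → ℝ} (hφ : Integrable φ) {η : ENNReal} (hη : η ≠ 0) :
    ∃ δ : ℝ, 0 < δ ∧ ∀ v : ℝ × ℝ, ‖v‖ ≤ δ → ∫⁻ x, ‖φ (x + v) - φ x‖ₑ ≤ η := by
  obtain ⟨g, hgc, hga, hgcont, hgi⟩ :=
    hφ.exists_hasCompactSupport_lintegral_sub_le (ε := η / 3) (by simpa using hη)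
  have hK : IsCompact (cthickening 1 (tsupport g)) := hgc.isCompact.cthickening
  have hKf : volume (cthickening 1 (tsupport g)) < ⊤ := hK.measure_lt_top
  have huc : UniformContinuous g := hgc.uniformContinuous_of_continuous hgcont
  -- choose ρ
  obtain ⟨ρ, hρ, hρK⟩ : ∃ ρ : ℝ, 0 < ρ ∧
      ENNReal.ofReal ρ * volume (cthickening 1 (tsupport g)) ≤ η / 3 := by
    by_cases hηt : η = ⊤
    · refine ⟨1, one_pos, ?_⟩
      rw [hηt, ENNReal.top_div_of_ne_top (by norm_num)]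
      exact le_top
    · set M : ENNReal := volume (cthickening 1 (tsupport g)) + 1 with hM
      have hM1 : M ≠ ⊤ := by simp [hM, hKf.ne]
      have hM0 : M ≠ 0 := by simp [hM]
      refine ⟨(η / 3 / M).toReal, ?_, ?_⟩
      · refine ENNReal.toReal_pos ?_ ?_
        · exact (ENNReal.div_pos (ENNReal.div_pos hη (by norm_num)).ne' hM1).ne'
        · exact ENNReal.div_ne_top (ENNReal.div_ne_top hηt (by norm_num)) hM0
      · rw [ENNReal.ofReal_toReal
          (ENNReal.div_ne_top (ENNReal.div_ne_top hηt (by norm_num)) hM0)]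
        calc η / 3 / M * volume (cthickening 1 (tsupport g)) ≤ η / 3 / M * M := by
              gcongr
              simp [hM]
          _ = η / 3 := ENNReal.div_mul_cancel hM0 hM1
  obtain ⟨δ, hδ, hδg⟩ := Metric.uniformContinuous_iff.1 huc ρ hρ
  refine ⟨min (δ / 2) 1, by positivity, fun v hv => ?_⟩
  have hv1 : ‖v‖ ≤ 1 := hv.trans (min_le_right _ _)
  have hv2 : ‖v‖ < δ := lt_of_le_of_lt (hv.trans (min_le_left _ _)) (by linarith)
  have hmid : ∫⁻ x, ‖g (x + v) - g x‖ₑ ≤ η / 3 := by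
    calc ∫⁻ x, ‖g (x + v) - g x‖ₑ
        ≤ ∫⁻ x, (cthickening 1 (tsupport g)).indicator (fun _ => ENNReal.ofReal ρ) x := by
          refine lintegral_mono fun x => ?_
          by_cases hx : x ∈ cthickening 1 (tsupport g)
          · rw [indicator_of_mem hx]
            have := hδg (a := x + v) (b := x) (by simpa [dist_eq_norm] using hv2)
            rw [dist_eq_norm] at this
            rw [← ofReal_norm]
            exact ENNReal.ofReal_le_ofReal this.le
          · rw [indicator_of_notMem hx]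
            have h1 : g x = 0 := by
              apply image_eq_zero_of_notMem_tsupport
              intro h
              exact hx (self_subset_cthickening _ h)
            have h2 : g (x + v) = 0 := by
              apply image_eq_zero_of_notMem_tsupport
              intro h
              apply hx
              refine mem_cthickening_of_dist_le x (x + v) 1 _ h ?_
              simpa [dist_eq_norm] using hv1
            simp [h1, h2]
      _ = ENNReal.ofReal ρ * volume (cthickening 1 (tsupport g)) := by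
          rw [lintegral_indicator isClosed_cthickening.measurableSet, setLIntegral_const]
      _ ≤ η / 3 := hρK
  have hshift : ∫⁻ x, ‖φ (x + v) - g (x + v)‖ₑ ≤ η / 3 := by
    rw [lintegral_add_right_eq_self (fun x => ‖φ x - g x‖ₑ) v]
    exact hga
  have hgm : Continuous fun x => ‖g (x + v) - g x‖ₑ := by fun_prop
  have hφm : AEMeasurable (fun x => ‖φ x - g x‖ₑ) :=
    ((hφ.aestronglyMeasurable.sub hgi.aestronglyMeasurable).enorm)
  calc ∫⁻ x, ‖φ (x + v) - φ x‖ₑ
      ≤ ∫⁻ x, (‖φ (x + v) - g (x + v)‖ₑ + (‖g (x + v) - g x‖ₑ + ‖φ x - g x‖ₑ)) := by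
        refine lintegral_mono fun x => ?_
        have : φ (x + v) - φ x = (φ (x + v) - g (x + v)) + ((g (x + v) - g x) - (φ x - g x)) := by
          ring
        rw [this]
        refine (enorm_add_le _ _).trans ?_
        gcongr
        exact enorm_sub_le
    _ = (∫⁻ x, ‖φ (x + v) - g (x + v)‖ₑ) + ∫⁻ x, (‖g (x + v) - g x‖ₑ + ‖φ x - g x‖ₑ) := by
        rw [lintegral_add_right']
        exact hgm.measurable.aemeasurable.add hφm
    _ = (∫⁻ x, ‖φ (x + v) - g (x + v)‖ₑ) +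
          ((∫⁻ x, ‖g (x + v) - g x‖ₑ) + ∫⁻ x, ‖φ x - g x‖ₑ) := by
        rw [lintegral_add_left hgm.measurable]
    _ ≤ η / 3 + (η / 3 + η / 3) := by gcongr
    _ = η := by rw [← add_assoc]; exact ENNReal.add_thirds η

private theorem sr_int {g g' : ℝ → ℝ} {α β : ℝ} (hg : Pf g g' α β) {a : ℝ × ℝ → ℝ} (ha : Measurable a)
    (ha1 : ∀ x, |a x| ≤ 1) (x : ℝ × ℝ) : IntervalIntegrable (fun t => a (x + (t, g t))) volume α β := by
  rw [intervalIntegrable_iff_integrableOn_Ioc_of_le hg.lt.le]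
  refine Measure.integrableOn_of_bounded (M := 1) measure_Ioc_lt_top.ne ?_ ?_
  · exact (ha.comp (measurable_const.add (measurable_id.prodMk hg.meas))).aestronglyMeasurable
  · exact Eventually.of_forall fun t => by simpa using ha1 _

private theorem sr_sub {g g' : ℝ → ℝ} {α β : ℝ} (hg : Pf g g' α β) {a f : ℝ × ℝ → ℝ} (ha : Measurable a)
    (ha1 : ∀ x, |a x| ≤ 1) (hf : Measurable f) (hf1 : ∀ x, |f x| ≤ 1) (x : ℝ × ℝ) :
    T1 g α β (fun y => a y - f y) x = T1 g α β a x - T1 g α β f x := by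
  unfold T1
  rw [← intervalIntegral.integral_sub (sr_int hg ha ha1 x) (sr_int hg hf hf1 x)]

private theorem sr_bint {F : ℝ × ℝ → ℝ} (hF : Measurable F) (R : ℝ) :
    ∫ x in closedBall (0 : ℝ × ℝ) R, |F x| = (∫⁻ x in closedBall (0 : ℝ × ℝ) R, ‖F x‖ₑ).toReal := by
  rw [integral_eq_lintegral_of_nonneg_ae (Eventually.of_forall fun x => abs_nonneg _)
    (hF.norm.aestronglyMeasurable)]
  congr 1
  refine lintegral_congr fun x => ?_
  rw [← Real.norm_eq_abs, ofReal_norm]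

private theorem sr_fin {F : ℝ × ℝ → ℝ} {C : ℝ} (hC : ∀ x, |F x| ≤ C) (R : ℝ) :
    ∫⁻ x in closedBall (0 : ℝ × ℝ) R, ‖F x‖ₑ < ⊤ := by
  calc ∫⁻ x in closedBall (0 : ℝ × ℝ) R, ‖F x‖ₑ ≤ ∫⁻ _ in closedBall (0 : ℝ × ℝ) R, ENNReal.ofReal C := by
        refine lintegral_mono fun x => ?_
        rw [← ofReal_norm, Real.norm_eq_abs]
        exact ENNReal.ofReal_le_ofReal (hC x)
    _ = ENNReal.ofReal C * volume (closedBall (0 : ℝ × ℝ) R) := setLIntegral_const _ _
    _ < ⊤ := ENNReal.mul_lt_top ENNReal.ofReal_lt_top measure_closedBall_lt_top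

private theorem sr_norm {κ : ℝ} (h0 : 0 ≤ κ) : ‖((0, κ) : ℝ × ℝ)‖ ≤ κ := by
  rw [Prod.norm_def]
  simp only [norm_zero, Real.norm_eq_abs, abs_of_nonneg h0]
  exact max_le h0 le_rfl

private theorem sr_pt {g g' : ℝ → ℝ} {α β : ℝ} (hg : Pf g g' α β) {a f : ℝ × ℝ → ℝ} (ha : Measurable a)
    (ha1 : ∀ x, |a x| ≤ 1) {ρ : ℝ} (hρ : 0 < ρ) (x : ℝ × ℝ) :
    ‖Tr g α β ρ a x - T1 g α β f x‖ₑ ≤ ENNReal.ofReal (1 / ρ) * ∫⁻ κ in Ioc 0 ρ,
      (‖T1 g α β a (x + (0, κ)) - T1 g α β f (x + (0, κ))‖ₑ + ‖T1 g α β f (x + (0, κ)) - T1 g α β f x‖ₑ) := by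
  have hm : Measurable fun κ : ℝ => T1 g α β a (x + (0, κ)) :=
    (measurable_T1 hg ha).comp (measurable_const.add (measurable_const.prodMk measurable_id))
  have hi : IntervalIntegrable (fun κ : ℝ => T1 g α β a (x + (0, κ))) volume 0 ρ := by
    rw [intervalIntegrable_iff_integrableOn_Ioc_of_le hρ.le]
    refine Measure.integrableOn_of_bounded (M := β - α) measure_Ioc_lt_top.ne hm.aestronglyMeasurable ?_
    exact Eventually.of_forall fun t => by simpa using abs_T1 hg ha1 _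
  have h1 : Tr g α β ρ a x - T1 g α β f x = (1 / ρ) * ∫ κ in (0 : ℝ)..ρ, (T1 g α β a (x + (0, κ)) - T1 g α β f x) := by
    rw [Tr_eq hg hρ ha ha1, intervalIntegral.integral_sub hi intervalIntegrable_const, intervalIntegral.integral_const,
      mul_sub]
    congr 1
    rw [smul_eq_mul, sub_zero]
    field_simp
  rw [h1, enorm_mul]
  have h2 : ‖(1 / ρ : ℝ)‖ₑ = ENNReal.ofReal (1 / ρ) := by
    rw [← ofReal_norm, Real.norm_eq_abs, abs_of_pos (by positivity)]
  rw [h2, intervalIntegral.integral_of_le hρ.le]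
  refine mul_le_mul_right ?_ _
  refine (enorm_integral_le_lintegral_enorm _).trans ?_
  refine lintegral_mono fun κ => ?_
  have h3 : T1 g α β a (x + (0, κ)) - T1 g α β f x =
      (T1 g α β a (x + (0, κ)) - T1 g α β f (x + (0, κ))) + (T1 g α β f (x + (0, κ)) - T1 g α β f x) := by
    ring
  rw [h3]
  exact enorm_add_le _ _

theorem strong_rho {g g' : ℝ → ℝ} {α β : ℝ} (hg : Pf g g' α β) {a : ℕ → ℝ × ℝ → ℝ}
    {f : ℝ × ℝ → ℝ} (ha : ∀ k, Measurable (a k)) (ha1 : ∀ k x, 0 ≤ a k x ∧ a k x ≤ 1)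
    (hf : Measurable f) (hf1 : ∀ x, 0 ≤ f x ∧ f x ≤ 1) (hw : Weak a f) {ρ : ℕ → ℝ}
    (hρ : ∀ k, 0 < ρ k) (hρ0 : Tendsto ρ atTop (𝓝 0)) (R : ℝ) :
    Tendsto (fun k => ∫ x in closedBall (0 : ℝ × ℝ) R,
      |Tr g α β (ρ k) (a k) x - T1 g α β f x|) atTop (𝓝 0) := by
  have hf' : ∀ x, |f x| ≤ 1 := fun x => by
    rw [abs_of_nonneg (hf1 x).1]
    exact (hf1 x).2
  have ha' : ∀ k x, |a k x| ≤ 1 := fun k x => by
    rw [abs_of_nonneg (ha1 k x).1]
    exact (ha1 k x).2
  have hF := measurable_T1 hg hf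
  have hFb := fun x => abs_T1 hg hf' x
  have hb1 : ∀ k x, |a k x - f x| ≤ 1 := by
    intro k x
    rw [abs_le]
    constructor <;> linarith [(ha1 k x).1, (ha1 k x).2, (hf1 x).1, (hf1 x).2]
  have hbm : ∀ k, Measurable fun x => a k x - f x := fun k => (ha k).sub hf
  have hw0 : Weak (fun k x => a k x - f x) 0 := by
    intro G hG
    have h1 := hw G hG
    have h2 : ∀ k, ∫ x, (a k x - f x) * G x = (∫ x, a k x * G x) - ∫ x, f x * G x := by
      intro k
      rw [← integral_sub]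
      · refine integral_congr_ae (Eventually.of_forall fun x => ?_)
        show (a k x - f x) * G x = a k x * G x - f x * G x
        ring
      · exact hG.bdd_mul (c := 1) (ha k).aestronglyMeasurable (Eventually.of_forall fun x => by simpa using ha' k x)
      · exact hG.bdd_mul (c := 1) hf.aestronglyMeasurable (Eventually.of_forall fun x => by simpa using hf' x)
    simp only [h2, Pi.zero_apply, zero_mul, integral_zero]
    have h3 := h1.sub_const (∫ x, f x * G x)
    rwa [sub_self] at h3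
  have hst := strong hg hbm hb1 hw0 (R + 1)
  obtain ⟨Q, hQ⟩ : ∃ Q : Set (ℝ × ℝ), Q = closedBall (0 : ℝ × ℝ) (R + 1) := ⟨_, rfl⟩
  have hQm : MeasurableSet Q := by
    rw [hQ]
    exact measurableSet_closedBall
  have hφi : Integrable (Q.indicator (T1 g α β f)) := by
    rw [integrable_indicator_iff hQm, hQ]
    refine Measure.integrableOn_of_bounded (M := β - α) measure_closedBall_lt_top.ne hF.aestronglyMeasurable ?_
    exact Eventually.of_forall fun x => by simpa using hFb x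
  rw [Metric.tendsto_atTop]
  intro η hη
  obtain ⟨δ, hδ, hδφ⟩ := sr_cont hφi (η := ENNReal.ofReal (η / 3)) (by simpa using hη)
  obtain ⟨K, hK⟩ := (Metric.tendsto_atTop.1 hρ0) (min δ 1) (by positivity)
  obtain ⟨K', hK'⟩ := (Metric.tendsto_atTop.1 hst) (η / 3) (by positivity)
  refine ⟨max K K', fun k hk => ?_⟩
  have hk1 := hK k (le_of_max_le_left hk)
  have hk2 := hK' k (le_of_max_le_right hk)
  rw [Real.dist_eq, sub_zero, abs_of_pos (hρ k)] at hk1
  have hρ1 : ρ k ≤ 1 := hk1.le.trans (min_le_right _ _)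
  have hρδ : ρ k ≤ δ := hk1.le.trans (min_le_left _ _)
  have hDm : Measurable fun x => T1 g α β (a k) x - T1 g α β f x := (measurable_T1 hg (ha k)).sub hF
  have hA : ∫⁻ x in Q, ‖T1 g α β (a k) x - T1 g α β f x‖ₑ ≤ ENNReal.ofReal (η / 3) := by
    rw [Real.dist_eq, sub_zero, abs_of_nonneg (integral_nonneg fun x => abs_nonneg _)] at hk2
    simp only [sr_sub hg (ha k) (ha' k) hf hf'] at hk2
    rw [sr_bint hDm (R + 1), ← hQ] at hk2
    have hfin : ∫⁻ x in Q, ‖T1 g α β (a k) x - T1 g α β f x‖ₑ < ⊤ := by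
      rw [hQ]
      refine sr_fin (C := (β - α) + (β - α)) (fun x => ?_) (R + 1)
      exact (abs_sub _ _).trans (add_le_add (abs_T1 hg (ha' k) x) (hFb x))
    exact (ENNReal.le_ofReal_iff_toReal_le hfin.ne (by positivity)).2 hk2.le
  have hball : ∀ x ∈ closedBall (0 : ℝ × ℝ) R, ∀ κ ∈ Ioc 0 (ρ k), x + ((0, κ) : ℝ × ℝ) ∈ Q := by
    intro x hx κ hκ
    rw [hQ, mem_closedBall_zero_iff]
    rw [mem_closedBall_zero_iff] at hx
    have h1 := sr_norm hκ.1.le
    have h2 := norm_add_le x ((0, κ) : ℝ × ℝ)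
    linarith [hκ.2]
  have hballQ : ∀ x ∈ closedBall (0 : ℝ × ℝ) R, x ∈ Q := by
    intro x hx
    rw [hQ, mem_closedBall_zero_iff]
    rw [mem_closedBall_zero_iff] at hx
    linarith
  have hG1 : Measurable fun p : (ℝ × ℝ) × ℝ => ‖T1 g α β (a k) (p.1 + (0, p.2)) - T1 g α β f (p.1 + (0, p.2))‖ₑ := by
    have h1 : Measurable fun p : (ℝ × ℝ) × ℝ => p.1 + ((0, p.2) : ℝ × ℝ) := by fun_prop
    exact (hDm.comp h1).enorm
  have hG2 : Measurable fun p : (ℝ × ℝ) × ℝ => ‖T1 g α β f (p.1 + (0, p.2)) - T1 g α β f p.1‖ₑ := by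
    have h1 : Measurable fun p : (ℝ × ℝ) × ℝ => p.1 + ((0, p.2) : ℝ × ℝ) := by fun_prop
    exact ((hF.comp h1).sub (hF.comp measurable_fst)).enorm
  have hin : ∀ κ ∈ Ioc 0 (ρ k), ∫⁻ x in closedBall (0 : ℝ × ℝ) R,
      (‖T1 g α β (a k) (x + (0, κ)) - T1 g α β f (x + (0, κ))‖ₑ + ‖T1 g α β f (x + (0, κ)) - T1 g α β f x‖ₑ) ≤
        ENNReal.ofReal (η / 3) + ENNReal.ofReal (η / 3) := by
    intro κ hκ
    have hm1 : Measurable fun x : ℝ × ℝ => ‖T1 g α β (a k) (x + (0, κ)) - T1 g α β f (x + (0, κ))‖ₑ :=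
      hG1.comp (measurable_id.prodMk measurable_const)
    rw [lintegral_add_left hm1]
    refine add_le_add ?_ ?_
    · refine le_trans ?_ hA
      have e1 : ∫⁻ x in Q, ‖T1 g α β (a k) x - T1 g α β f x‖ₑ =
          ∫⁻ x, Q.indicator (fun x => ‖T1 g α β (a k) x - T1 g α β f x‖ₑ) (x + ((0, κ) : ℝ × ℝ)) := by
        rw [lintegral_add_right_eq_self, lintegral_indicator hQm]
      rw [e1, ← lintegral_indicator measurableSet_closedBall]
      refine lintegral_mono fun x => ?_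
      by_cases hx : x ∈ closedBall (0 : ℝ × ℝ) R
      · rw [indicator_of_mem hx, indicator_of_mem (hball x hx κ hκ)]
      · rw [indicator_of_notMem hx]
        exact zero_le
    · refine le_trans ?_ (hδφ ((0, κ) : ℝ × ℝ) ((sr_norm hκ.1.le).trans (hκ.2.trans hρδ)))
      refine le_trans ?_ (setLIntegral_le_lintegral (closedBall (0 : ℝ × ℝ) R) _)
      refine setLIntegral_mono' measurableSet_closedBall fun x hx => ?_
      rw [indicator_of_mem (hball x hx κ hκ), indicator_of_mem (hballQ x hx)]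
  have key : ∫⁻ x in closedBall (0 : ℝ × ℝ) R, ‖Tr g α β (ρ k) (a k) x - T1 g α β f x‖ₑ ≤
      ENNReal.ofReal (η / 3) + ENNReal.ofReal (η / 3) := by
    calc ∫⁻ x in closedBall (0 : ℝ × ℝ) R, ‖Tr g α β (ρ k) (a k) x - T1 g α β f x‖ₑ
        ≤ ∫⁻ x in closedBall (0 : ℝ × ℝ) R, ENNReal.ofReal (1 / ρ k) * ∫⁻ κ in Ioc 0 (ρ k),
          (‖T1 g α β (a k) (x + (0, κ)) - T1 g α β f (x + (0, κ))‖ₑ + ‖T1 g α β f (x + (0, κ)) - T1 g α β f x‖ₑ) :=
          lintegral_mono fun x => sr_pt hg (ha k) (ha' k) (hρ k) x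
      _ = ENNReal.ofReal (1 / ρ k) * ∫⁻ x in closedBall (0 : ℝ × ℝ) R, ∫⁻ κ in Ioc 0 (ρ k),
          (‖T1 g α β (a k) (x + (0, κ)) - T1 g α β f (x + (0, κ))‖ₑ + ‖T1 g α β f (x + (0, κ)) - T1 g α β f x‖ₑ) := by
          rw [lintegral_const_mul' _ _ ENNReal.ofReal_ne_top]
      _ = ENNReal.ofReal (1 / ρ k) * ∫⁻ κ in Ioc 0 (ρ k), ∫⁻ x in closedBall (0 : ℝ × ℝ) R,
          (‖T1 g α β (a k) (x + (0, κ)) - T1 g α β f (x + (0, κ))‖ₑ + ‖T1 g α β f (x + (0, κ)) - T1 g α β f x‖ₑ) := by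
          rw [lintegral_lintegral_swap]
          exact (hG1.add hG2).aemeasurable
      _ ≤ ENNReal.ofReal (1 / ρ k) * ∫⁻ κ in Ioc 0 (ρ k), (ENNReal.ofReal (η / 3) + ENNReal.ofReal (η / 3)) := by
          refine mul_le_mul_right ?_ _
          exact setLIntegral_mono' measurableSet_Ioc hin
      _ = ENNReal.ofReal (η / 3) + ENNReal.ofReal (η / 3) := by
          rw [setLIntegral_const, Real.volume_Ioc, sub_zero, mul_comm _ (ENNReal.ofReal (ρ k)), ← mul_assoc,
            ← ENNReal.ofReal_mul (by have := hρ k; positivity), one_div, inv_mul_cancel₀ (hρ k).ne', ENNReal.ofReal_one,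
            one_mul]
  have hTm : Measurable fun x => Tr g α β (ρ k) (a k) x - T1 g α β f x := (measurable_Tr hg (hρ k) (ha k) (ha' k)).sub hF
  rw [Real.dist_eq, sub_zero, abs_of_nonneg (integral_nonneg fun x => abs_nonneg _), sr_bint hTm R]
  have h9 : (∫⁻ x in closedBall (0 : ℝ × ℝ) R, ‖Tr g α β (ρ k) (a k) x - T1 g α β f x‖ₑ).toReal ≤ η / 3 + η / 3 := by
    refine ENNReal.toReal_le_of_le_ofReal (by positivity) ?_
    rw [ENNReal.ofReal_add (by positivity) (by positivity)]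
    exact key
  refine lt_of_le_of_lt h9 ?_
  linarith

end Pool.Agent.DNB
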