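import Pool.Agent.DNB.Ac
import Pool.Agent.DNB.Sw
import Pool.Agent.H99N.Auto

/-! Arc averages of a weakly null sequence converge strongly. -/

open Set MeasureTheory Filter Topology Metric
open Pool.Agent.Helper2.LM Pool.Agent.AEP Pool.Agent.H99N

namespace Pool.Agent.DNB

private theorem str_sq {chi : ℝ → ℝ} (hcm : Measurable chi) (hc0 : ∀ t, 0 ≤ chi t)
    (hci : Integrable chi) {b : ℝ × ℝ → ℝ} (hb : Measurable b) (hb1 : ∀ x, |b x| ≤ 1) {Q : Set (ℝ × ℝ)}
    (hQ : MeasurableSet Q) (hQv : volume Q < ⊤) (hbQ : ∀ x, x ∉ Q → b x = 0) {G : ℝ → ℝ}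
    (hG : Measurable G) :
    Integrable (fun x : ℝ × ℝ => (∫ t, chi t * b (x + (t, G t))) ^ 2) ∧
    ∫ x : ℝ × ℝ, (∫ t, chi t * b (x + (t, G t))) ^ 2 =
      ∫ s, ∫ t, chi s * chi t * ∫ x : ℝ × ℝ, b x * b (x + (t - s, G t - G s)) := by
  have hbi : Integrable b := by
    have h1 : Integrable (indicator Q fun _ => (1 : ℝ)) :=
      (integrable_indicator_iff hQ).2 (by simp [hQv])
    refine h1.mono' hb.aestronglyMeasurable (ae_of_all _ fun x => ?_)
    by_cases hx : x ∈ Q
    · rw [indicator_of_mem hx]
      simpa using hb1 x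
    · rw [indicator_of_notMem hx, hbQ x hx]
      simp
  -- the integrand
  set K : (ℝ × ℝ) × (ℝ × ℝ) → ℝ := fun z =>
    (chi z.2.1 * b (z.1 + (z.2.1, G z.2.1))) * (chi z.2.2 * b (z.1 + (z.2.2, G z.2.2))) with hK
  have hKm : Measurable K := by
    have m1 : Measurable fun z : (ℝ × ℝ) × (ℝ × ℝ) => b (z.1 + (z.2.1, G z.2.1)) :=
      hb.comp (measurable_fst.add ((measurable_fst.comp measurable_snd).prodMk
        (hG.comp (measurable_fst.comp measurable_snd))))
    have m2 : Measurable fun z : (ℝ × ℝ) × (ℝ × ℝ) => b (z.1 + (z.2.2, G z.2.2)) :=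
      hb.comp (measurable_fst.add ((measurable_snd.comp measurable_snd).prodMk
        (hG.comp (measurable_snd.comp measurable_snd))))
    exact ((hcm.comp (measurable_fst.comp measurable_snd)).mul m1).mul
      ((hcm.comp (measurable_snd.comp measurable_snd)).mul m2)
  have hKb : ∀ x st, |K (x, st)| ≤ chi st.1 * chi st.2 * |b (x + (st.1, G st.1))| := by
    intro x st
    simp only [hK, abs_mul, abs_of_nonneg (hc0 _)]
    have h1 := hb1 (x + (st.2, G st.2))
    have h2 := hc0 st.1
    have h3 := hc0 st.2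
    have h4 := abs_nonneg (b (x + (st.1, G st.1)))
    calc chi st.1 * |b (x + (st.1, G st.1))| * (chi st.2 * |b (x + (st.2, G st.2))|)
        = (chi st.1 * chi st.2 * |b (x + (st.1, G st.1))|) * |b (x + (st.2, G st.2))| := by ring
      _ ≤ (chi st.1 * chi st.2 * |b (x + (st.1, G st.1))|) * 1 :=
          mul_le_mul_of_nonneg_left h1 (by positivity)
      _ = _ := mul_one _
  have hbs : ∀ v : ℝ × ℝ, Integrable fun x => |b (x + v)| := fun v =>
    (hbi.comp_add_right v).abs
  have hKi : Integrable K ((volume : Measure (ℝ × ℝ)).prod (volume : Measure (ℝ × ℝ))) := by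
    rw [integrable_prod_iff' hKm.aestronglyMeasurable]
    constructor
    · refine ae_of_all _ fun st => ?_
      refine ((hbs (st.1, G st.1)).const_mul (chi st.1 * chi st.2)).mono' ?_ ?_
      · exact (hKm.comp (measurable_id.prodMk measurable_const)).aestronglyMeasurable
      · exact ae_of_all _ fun x => by simpa using hKb x st
    · have h1 : Integrable (fun st : ℝ × ℝ => chi st.1 * chi st.2 * ∫ x, |b x|) :=
        (hci.mul_prod hci).mul_const _
      refine h1.mono' ?_ ?_
      · exact hKm.aestronglyMeasurable.norm.prod_swap.integral_prod_right'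
      · refine ae_of_all _ fun st => ?_
        rw [Real.norm_of_nonneg (integral_nonneg fun x => norm_nonneg _)]
        calc ∫ x, ‖K (x, st)‖ ≤ ∫ x, chi st.1 * chi st.2 * |b (x + (st.1, G st.1))| := by
              refine integral_mono_of_nonneg (ae_of_all _ fun x => norm_nonneg _)
                ((hbs _).const_mul _) (ae_of_all _ fun x => hKb x st)
          _ = chi st.1 * chi st.2 * ∫ x, |b x| := by
              rw [integral_const_mul, integral_add_right_eq_self (fun x => |b x|)]
  have e1 : ∀ x : ℝ × ℝ, ∫ st, K (x, st) = (∫ t, chi t * b (x + (t, G t))) ^ 2 := by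
    intro x
    have := integral_prod_mul (μ := (volume : Measure ℝ)) (ν := (volume : Measure ℝ))
      (fun s => chi s * b (x + (s, G s))) (fun t => chi t * b (x + (t, G t)))
    rw [pow_two]
    exact this
  have e2 : ∀ st : ℝ × ℝ, ∫ x, K (x, st) =
      chi st.1 * chi st.2 * ∫ x : ℝ × ℝ, b x * b (x + (st.2 - st.1, G st.2 - G st.1)) := by
    intro st
    have h1 : ∀ x, K (x, st) = chi st.1 * chi st.2 *
        (fun y => b y * b (y + (st.2 - st.1, G st.2 - G st.1))) (x + (st.1, G st.1)) := by
      intro x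
      have h2 : x + (st.1, G st.1) + (st.2 - st.1, G st.2 - G st.1) = x + (st.2, G st.2) := by
        ext
        · simp
        · simp
      simp only [hK, h2]
      ring
    simp only [h1]
    rw [integral_const_mul, integral_add_right_eq_self
      (fun y => b y * b (y + (st.2 - st.1, G st.2 - G st.1)))]
  have hint1 : Integrable (fun x : ℝ × ℝ => ∫ st, K (x, st)) := hKi.integral_prod_left
  have hint2 : Integrable (fun st : ℝ × ℝ => ∫ x, K (x, st)) := hKi.integral_prod_right
  refine ⟨hint1.congr (ae_of_all _ e1), ?_⟩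
  calc ∫ x : ℝ × ℝ, (∫ t, chi t * b (x + (t, G t))) ^ 2 = ∫ x : ℝ × ℝ, ∫ st, K (x, st) := by
        simp only [e1]
    _ = ∫ st, ∫ x, K (x, st) := integral_integral_swap hKi
    _ = ∫ s, ∫ t, ∫ x, K (x, (s, t)) := by
        exact integral_prod (μ := (volume : Measure ℝ)) (ν := (volume : Measure ℝ)) _ hint2
    _ = _ := by simp only [e2]

/-- the autocorrelation is measurable -/
private lemma str_meas {β : ℝ × ℝ → ℝ} (hβ : Measurable β) :
    Measurable fun u : ℝ × ℝ => ∫ x, β x * β (x + u) := by
  have h1 : StronglyMeasurable fun p : (ℝ × ℝ) × (ℝ × ℝ) => β p.2 * β (p.2 + p.1) := by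
    apply Measurable.stronglyMeasurable
    exact (hβ.comp measurable_snd).mul (hβ.comp (measurable_snd.add measurable_fst))
  exact (StronglyMeasurable.integral_prod_right (f := fun u x => β x * β (x + u)) h1).measurable

private lemma str_bound {β : ℝ × ℝ → ℝ} (hβ1 : ∀ x, |β x| ≤ 1) {Q : Set (ℝ × ℝ)}
    (hQ : MeasurableSet Q) (hQv : volume Q < ⊤) (hβQ : ∀ x, x ∉ Q → β x = 0) (u : ℝ × ℝ) :
    |∫ x, β x * β (x + u)| ≤ (volume Q).toReal := by
  have h1 : |∫ x, β x * β (x + u)| ≤ ∫ x, Q.indicator (fun _ => (1 : ℝ)) x := by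
    rw [← Real.norm_eq_abs]
    refine le_trans (norm_integral_le_integral_norm _) ?_
    apply integral_mono_of_nonneg (Eventually.of_forall fun x => norm_nonneg _)
    · rw [integrable_indicator_iff hQ]
      exact integrableOn_const hQv.ne
    · refine Eventually.of_forall fun x => ?_
      show ‖β x * β (x + u)‖ ≤ Q.indicator (fun _ => (1 : ℝ)) x
      by_cases hx : x ∈ Q
      · rw [indicator_of_mem hx, norm_mul, Real.norm_eq_abs, Real.norm_eq_abs]
        calc |β x| * |β (x + u)| ≤ 1 * 1 :=
              mul_le_mul (hβ1 _) (hβ1 _) (abs_nonneg _) zero_le_one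
          _ = 1 := one_mul _
      · rw [indicator_of_notMem hx, hβQ x hx, zero_mul, norm_zero]
  rw [integral_indicator hQ, setIntegral_const, smul_eq_mul, mul_one] at h1
  exact h1

private noncomputable def wch (α β : ℝ) (t : ℝ) : ℝ := (Ioc α β).indicator (fun _ => (1 : ℝ)) t

private theorem wch_meas (α β : ℝ) : Measurable (wch α β) :=
  measurable_const.indicator measurableSet_Ioc

private theorem wch_nonneg (α β t : ℝ) : 0 ≤ wch α β t :=
  indicator_nonneg (fun _ _ => zero_le_one) t

private theorem wch_int (α β : ℝ) : Integrable (wch α β) :=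
  (integrable_indicator_iff measurableSet_Ioc).2 (integrableOn_const measure_Ioc_lt_top.ne)

private theorem wch_eq {α β : ℝ} (h : α ≤ β) (f : ℝ → ℝ) :
    ∫ t in α..β, f t = ∫ t, wch α β t * f t := by
  rw [intervalIntegral.integral_of_le h, ← integral_indicator measurableSet_Ioc]
  refine integral_congr_ae (Eventually.of_forall fun t => ?_)
  show (Ioc α β).indicator f t = (Ioc α β).indicator (fun _ => (1 : ℝ)) t * f t
  by_cases ht : t ∈ Ioc α β
  · rw [indicator_of_mem ht, indicator_of_mem ht, one_mul]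
  · rw [indicator_of_notMem ht, indicator_of_notMem ht, zero_mul]

theorem strong {g g' : ℝ → ℝ} {α β : ℝ} (hg : Pf g g' α β) {b : ℕ → ℝ × ℝ → ℝ}
    (hb : ∀ k, Measurable (b k)) (hb1 : ∀ k x, |b k x| ≤ 1) (hw : Weak b 0) (R : ℝ) :
    Tendsto (fun k => ∫ x in closedBall (0 : ℝ × ℝ) R, |T1 g α β (b k) x|) atTop (𝓝 0) := by
  have hle : α ≤ β := hg.lt.le
  -- bound of g
  obtain ⟨Cg, hCg⟩ : ∃ C : ℝ, ∀ t ∈ Icc α β, |g t| ≤ C := by
    obtain ⟨C, hC⟩ := (isCompact_Icc (a := α) (b := β)).exists_bound_of_continuousOn hg.cont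
    exact ⟨C, fun t ht => hC t ht⟩
  have hCg0 : 0 ≤ Cg := le_trans (abs_nonneg _) (hCg α ⟨le_rfl, hle⟩)
  set R' : ℝ := R + (Cg + |α| + |β|) with hR'
  set Q : Set (ℝ × ℝ) := closedBall (0 : ℝ × ℝ) R' with hQdef
  have hQ : MeasurableSet Q := measurableSet_closedBall
  have hQv : volume Q < ⊤ := measure_closedBall_lt_top
  set w : ℕ → ℝ × ℝ → ℝ := fun k => Q.indicator (b k) with hwdef
  have hwm : ∀ k, Measurable (w k) := fun k => (hb k).indicator hQ
  have hw1 : ∀ k x, |w k x| ≤ 1 := by
    intro k x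
    by_cases hx : x ∈ Q
    · show |Q.indicator (b k) x| ≤ 1
      rw [indicator_of_mem hx]; exact hb1 k x
    · show |Q.indicator (b k) x| ≤ 1
      rw [indicator_of_notMem hx, abs_zero]; exact zero_le_one
  have hwQ : ∀ k x, x ∉ Q → w k x = 0 := fun k x hx => indicator_of_notMem hx _
  have hsq := fun k => str_sq (wch_meas α β) (wch_nonneg α β) (wch_int α β) (hwm k) (hw1 k) hQ hQv
    (hwQ k) hg.meas
  set c : ℕ → ℝ × ℝ → ℝ := fun k u => ∫ x, w k x * w k (x + u) with hcdef
  have hcm : ∀ k, Measurable (c k) := fun k => str_meas (hwm k)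
  set V : ℝ := (volume Q).toReal with hV
  have hcb : ∀ k u, |c k u| ≤ V := fun k u => str_bound (hw1 k) hQ hQv (hwQ k) u
  set F : ℕ → ℝ × ℝ → ℝ := fun k x => ∫ t, wch α β t * w k (x + (t, g t)) with hF
  -- the integral of the square tends to zero
  have hF2 : Tendsto (fun k => ∫ x, F k x ^ 2) atTop (𝓝 0) := by
    obtain ⟨κ, hκ, hκc⟩ := ac hg
    have h2 := auto hb hb1 hw hQ hQv hκ
    refine h2.congr fun k => ?_
    have h3 : ∫ u, κ u * ∫ x, Q.indicator (b k) x * Q.indicator (b k) (x + u) =
        ∫ u, κ u * c k u := rfl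
    have h4 : ∫ x, F k x ^ 2 =
        ∫ s, ∫ t, wch α β s * wch α β t * c k (t - s, g t - g s) := (hsq k).2
    rw [h3, h4, ← hκc (c k) (hcm k) ⟨V, hcb k⟩, wch_eq hle]
    refine integral_congr_ae (Eventually.of_forall fun s => ?_)
    show wch α β s * (∫ t in α..β, c k (t - s, g t - g s)) =
      ∫ t, wch α β s * wch α β t * c k (t - s, g t - g s)
    rw [wch_eq hle, ← integral_const_mul]
    refine integral_congr_ae (Eventually.of_forall fun t => ?_)
    show wch α β s * (wch α β t * c k (t - s, g t - g s)) =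
      wch α β s * wch α β t * c k (t - s, g t - g s)
    ring
  -- conclusion
  set B : Set (ℝ × ℝ) := closedBall (0 : ℝ × ℝ) R with hB
  have hBv : volume B < ⊤ := measure_closedBall_lt_top
  set W : ℝ := (volume B).toReal with hW
  have hW0 : 0 ≤ W := ENNReal.toReal_nonneg
  have heq : ∀ k, (∫ x in B, |T1 g α β (b k) x|) = ∫ x in B, |F k x| := by
    intro k
    refine setIntegral_congr_fun measurableSet_closedBall fun x hx => ?_
    have e1 : T1 g α β (b k) x = F k x := by
      show ∫ t in α..β, b k (x + (t, g t)) = ∫ t, wch α β t * w k (x + (t, g t))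
      rw [wch_eq hle]
      refine integral_congr_ae (Eventually.of_forall fun t => ?_)
      show wch α β t * b k (x + (t, g t)) = wch α β t * w k (x + (t, g t))
      by_cases ht : t ∈ Ioc α β
      · have hmem : x + (t, g t) ∈ Q := by
          rw [hQdef, mem_closedBall, dist_zero_right]
          have hx' : ‖x‖ ≤ R := by rwa [hB, mem_closedBall, dist_zero_right] at hx
          have h2 : ‖((t, g t) : ℝ × ℝ)‖ ≤ Cg + |α| + |β| := by
            have hg1 := hCg t ⟨ht.1.le, ht.2⟩
            rw [Prod.norm_def]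
            apply max_le
            · show |t| ≤ _
              have h5 : |t| ≤ |α| + |β| := by
                rw [abs_le]
                constructor
                · have := neg_abs_le α
                  have := abs_nonneg β
                  linarith [ht.1]
                · have := le_abs_self β
                  have := abs_nonneg α
                  linarith [ht.2]
              linarith
            · show |g t| ≤ _
              have := abs_nonneg α
              have := abs_nonneg β
              linarith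
          calc ‖x + (t, g t)‖ ≤ ‖x‖ + ‖((t, g t) : ℝ × ℝ)‖ := norm_add_le _ _
            _ ≤ R' := by rw [hR']; linarith
        show _ = wch α β t * Q.indicator (b k) _
        rw [indicator_of_mem hmem]
      · have h0 : wch α β t = 0 := indicator_of_notMem ht _
        rw [h0, zero_mul, zero_mul]
    show |T1 g α β (b k) x| = |F k x|
    rw [e1]
  simp only [heq]
  rw [Metric.tendsto_atTop] at hF2 ⊢
  intro ε hε
  set δ : ℝ := ε / (2 * (W + 1)) with hδ
  have hW1 : 0 < W + 1 := by linarith
  have hδ0 : 0 < δ := by rw [hδ]; positivity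
  obtain ⟨n, hn⟩ := hF2 (ε * δ) (by positivity)
  refine ⟨n, fun k hk => ?_⟩
  have h1 := hn k hk
  rw [Real.dist_eq, sub_zero] at h1 ⊢
  have hint : Integrable (fun x => F k x ^ 2) := (hsq k).1
  have hnn : 0 ≤ ∫ x, F k x ^ 2 := integral_nonneg fun x => sq_nonneg _
  rw [abs_of_nonneg hnn] at h1
  have hnn2 : 0 ≤ ∫ x in B, |F k x| := integral_nonneg fun x => abs_nonneg _
  rw [abs_of_nonneg hnn2]
  have hint2 : Integrable (fun x => (δ + F k x ^ 2 / δ) / 2) (volume.restrict B) := by
    apply Integrable.div_const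
    apply Integrable.add
    · exact integrableOn_const hBv.ne
    · exact hint.restrict.div_const _
  have h2 : (∫ x in B, |F k x|) ≤ ∫ x in B, (δ + F k x ^ 2 / δ) / 2 := by
    apply integral_mono_of_nonneg (Eventually.of_forall fun x => abs_nonneg _) hint2
    refine Eventually.of_forall fun x => ?_
    show |F k x| ≤ (δ + F k x ^ 2 / δ) / 2
    rw [← sq_abs (F k x)]
    have h3 : 0 ≤ (|F k x| - δ) ^ 2 / δ := by positivity
    have h4 : (|F k x| - δ) ^ 2 / δ = |F k x| ^ 2 / δ - 2 * |F k x| + δ := by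
      field_simp
      ring
    linarith
  have h3 : (∫ x in B, (δ + F k x ^ 2 / δ) / 2) = (W * δ + (∫ x in B, F k x ^ 2) / δ) / 2 := by
    have hc : Integrable (fun _ : ℝ × ℝ => δ) (volume.restrict B) := integrableOn_const hBv.ne
    have hd : Integrable (fun x => F k x ^ 2 / δ) (volume.restrict B) := hint.restrict.div_const _
    have e1 : (∫ x in B, F k x ^ 2 / δ) = (∫ x in B, F k x ^ 2) / δ := integral_div _ _
    have e0 : (∫ _ in B, δ) = W * δ := by
      rw [setIntegral_const, smul_eq_mul]
      rfl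
    rw [integral_div, integral_add hc hd, e1, e0]
  have h4 : (∫ x in B, F k x ^ 2) ≤ ∫ x, F k x ^ 2 :=
    setIntegral_le_integral hint (Eventually.of_forall fun x => sq_nonneg _)
  have h5 : (∫ x in B, F k x ^ 2) / δ ≤ ε := by
    rw [div_le_iff₀ hδ0]; linarith
  have h6 : W * δ ≤ ε / 2 := by
    rw [hδ, mul_div_assoc', div_le_iff₀ (by positivity)]
    nlinarith
  linarith

end Pool.Agent.DNB
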