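import Pool.Agent.DNB.Ch

/-!
# The choice for boxes in the lattice
-/

open Set MeasureTheory Filter Topology Metric
open Pool.Agent.Helper2.LM Pool.Agent.AEP Pool.Agent.H99N

namespace Pool.Agent.DNB

private theorem wr_val {m M : ℕ} [NeZero m] (a : ZMod m) (ha : a.val < M) (s : ℤ) (h0 : 0 ≤ s)
    (h1 : s + M ≤ m) : ((a + (s : ZMod m)).val : ℤ) = a.val + s := by
  obtain ⟨k, rfl⟩ := Int.eq_ofNat_of_zero_le h0
  have h2 : k + M ≤ m := by exact_mod_cast h1
  have h3 : ((k : ℤ) : ZMod m) = (k : ZMod m) := Int.cast_natCast k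
  rw [h3]
  have h4 : (k : ZMod m).val = k := ZMod.val_natCast_of_lt (by omega)
  rw [ZMod.val_add_of_lt (by rw [h4]; omega), h4]
  push_cast
  ring

/-- the sum over the box as a sum over the group -/
private theorem wr_sum {m M : ℕ} [NeZero m] (hMm : M ≤ m) (c : ℤ × ℤ) (A : ℤ × ℤ → ℝ) :
    ∑ z ∈ (Finset.univ : Finset (ZMod m × ZMod m)).filter (fun z => z.1.val < M ∧ z.2.val < M),
      A (c + ((z.1.val : ℤ), (z.2.val : ℤ))) = ∑ z ∈ box c M, A z := by
  refine Finset.sum_bij' (fun z _ => c + ((z.1.val : ℤ), (z.2.val : ℤ)))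
    (fun u _ => (((u.1 - c.1).toNat : ZMod m), ((u.2 - c.2).toNat : ZMod m))) ?_ ?_ ?_ ?_ ?_
  · intro z hz
    obtain ⟨h1, h2⟩ := (Finset.mem_filter.1 hz).2
    unfold box
    rw [Finset.mem_product, Finset.mem_Ico, Finset.mem_Ico]
    show (c.1 ≤ c.1 + (z.1.val : ℤ) ∧ c.1 + (z.1.val : ℤ) < c.1 + M) ∧
      (c.2 ≤ c.2 + (z.2.val : ℤ) ∧ c.2 + (z.2.val : ℤ) < c.2 + M)
    omega
  · intro u hu
    unfold box at hu
    rw [Finset.mem_product, Finset.mem_Ico, Finset.mem_Ico] at hu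
    rw [Finset.mem_filter]
    refine ⟨Finset.mem_univ _, ?_, ?_⟩
    · show ((u.1 - c.1).toNat : ZMod m).val < M
      rw [ZMod.val_natCast_of_lt (by omega)]
      omega
    · show ((u.2 - c.2).toNat : ZMod m).val < M
      rw [ZMod.val_natCast_of_lt (by omega)]
      omega
  · intro z hz
    have h3 : (c + ((z.1.val : ℤ), (z.2.val : ℤ))).1 - c.1 = (z.1.val : ℤ) := by
      show c.1 + (z.1.val : ℤ) - c.1 = _
      ring
    have h4 : (c + ((z.1.val : ℤ), (z.2.val : ℤ))).2 - c.2 = (z.2.val : ℤ) := by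
      show c.2 + (z.2.val : ℤ) - c.2 = _
      ring
    rw [h3, h4, Int.toNat_natCast, Int.toNat_natCast, ZMod.natCast_zmod_val, ZMod.natCast_zmod_val]
  · intro u hu
    unfold box at hu
    rw [Finset.mem_product, Finset.mem_Ico, Finset.mem_Ico] at hu
    have h3 : ((u.1 - c.1).toNat : ZMod m).val = (u.1 - c.1).toNat := ZMod.val_natCast_of_lt (by omega)
    have h4 : ((u.2 - c.2).toNat : ZMod m).val = (u.2 - c.2).toNat := ZMod.val_natCast_of_lt (by omega)
    rw [h3, h4]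
    refine Prod.ext ?_ ?_
    · show c.1 + ((u.1 - c.1).toNat : ℤ) = u.1
      omega
    · show c.2 + ((u.2 - c.2).toNat : ℤ) = u.2
      omega
  · intro z hz
    rfl

theorem choice_box {ι : Type} [Fintype ι] [Nonempty ι] {N M m : ℕ} (hN : 0 < N)
    (P : Fin N → ι → ℤ × ℤ)
    (hP : ∀ j w, 0 ≤ (P j w).1 ∧ (P j w).1 + M ≤ m ∧ 0 ≤ (P j w).2 ∧ (P j w).2 + M ≤ m)
    {η : ℝ} (hη : 0 < η) (h : 4 * (m : ℝ) ^ 2 * Real.exp (-(N * η ^ 2 / 2)) < 1) :
    ∃ ω : Fin N → ι, ∀ (c : ℤ × ℤ) (H : ℤ × ℤ → ℝ), (∀ z, |H z| ≤ 1) →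
      |∑ z ∈ box c M, H z * ((∑ j, H (z + P j (ω j))) / N - (∑ j, ∑ w, H (z + P j w)) /
        (N * Fintype.card ι))| ≤ 4 * η * m ^ 2 := by
  classical
  obtain ⟨w₀⟩ := (inferInstance : Nonempty ι)
  rcases Nat.eq_zero_or_pos M with rfl | hM
  · refine ⟨fun _ => w₀, fun c H _ => ?_⟩
    have h1 : box c 0 = ∅ := by
      unfold box
      simp
    rw [h1, Finset.sum_empty, abs_zero]
    positivity
  · have hMm : M ≤ m := by
      obtain ⟨h1, h2, -⟩ := hP ⟨0, hN⟩ w₀
      omega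
    have : NeZero m := ⟨by omega⟩
    have hcard : Fintype.card (ZMod m × ZMod m) = m ^ 2 := by
      rw [Fintype.card_prod, ZMod.card, sq]
    obtain ⟨ω, hω⟩ := choice (G := ZMod m × ZMod m) hN
      (fun j w => (((P j w).1 : ZMod m), ((P j w).2 : ZMod m))) hη (by
        rw [hcard]
        push_cast
        exact h)
    refine ⟨ω, fun c H hH => ?_⟩
    have h1 := hω (fun z => if z.1.val < M ∧ z.2.val < M then
      H (c + ((z.1.val : ℤ), (z.2.val : ℤ))) else 0) (fun z => H (c + ((z.1.val : ℤ), (z.2.val : ℤ))))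
      (fun z => by
        split_ifs
        · exact hH _
        · rw [abs_zero]
          exact zero_le_one) (fun z => hH _)
    rw [hcard] at h1
    push_cast at h1
    refine le_trans (le_of_eq ?_) h1
    congr 1
    rw [← wr_sum hMm c (fun z => H z * ((∑ j, H (z + P j (ω j))) / N - (∑ j, ∑ w, H (z + P j w)) /
        (N * Fintype.card ι))), Finset.sum_filter]
    refine Finset.sum_congr rfl fun z _ => ?_
    have key : z.1.val < M ∧ z.2.val < M → ∀ j w,
        H (c + (((z + (((P j w).1 : ZMod m), ((P j w).2 : ZMod m))).1.val : ℤ),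
          ((z + (((P j w).1 : ZMod m), ((P j w).2 : ZMod m))).2.val : ℤ))) =
        H (c + ((z.1.val : ℤ), (z.2.val : ℤ)) + P j w) := by
      rintro ⟨k1, k2⟩ j w
      obtain ⟨p1, p2, p3, p4⟩ := hP j w
      congr 1
      refine Prod.ext ?_ ?_
      · show c.1 + ((z.1 + ((P j w).1 : ZMod m)).val : ℤ) = c.1 + (z.1.val : ℤ) + (P j w).1
        rw [wr_val z.1 k1 _ p1 p2]
        ring
      · show c.2 + ((z.2 + ((P j w).2 : ZMod m)).val : ℤ) = c.2 + (z.2.val : ℤ) + (P j w).2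
        rw [wr_val z.2 k2 _ p3 p4]
        ring
    by_cases hz : z.1.val < M ∧ z.2.val < M
    · rw [if_pos hz, if_pos hz]
      have k1 := key hz
      rw [Finset.sum_congr rfl fun j _ => (k1 j (ω j)),
        Finset.sum_congr rfl fun j _ => Finset.sum_congr rfl fun w _ => (k1 j w)]
    · rw [if_neg hz, if_neg hz, zero_mul]

end Pool.Agent.DNB
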